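import Pool.Agent.Helper35.MP.W
set_option autoImplicit false

/-! Quotients of polynomials of two variables: derivatives, generic fibres, the area inequality. -/

namespace Pool.Agent.Helper35.CP

open MeasureTheory Set Filter Topology
open scoped ENNReal NNReal
open Pool.Agent.H803R2.Kak (Pol)
open Pool.Agent.Y183.PP

/-- numerators of the first derivatives of `N / T` -/
noncomputable def n1 (N T : Poly) : Poly :=
  MvPolynomial.pderiv 0 N * T - N * MvPolynomial.pderiv 0 T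

noncomputable def n2 (N T : Poly) : Poly :=
  MvPolynomial.pderiv 1 N * T - N * MvPolynomial.pderiv 1 T

/-- numerators of the second derivatives of `N / T` -/
noncomputable def n11 (N T : Poly) : Poly :=
  MvPolynomial.pderiv 0 (n1 N T) * T - MvPolynomial.C 2 * (n1 N T * MvPolynomial.pderiv 0 T)

noncomputable def n12 (N T : Poly) : Poly :=
  MvPolynomial.pderiv 1 (n1 N T) * T - MvPolynomial.C 2 * (n1 N T * MvPolynomial.pderiv 1 T)

noncomputable def n22 (N T : Poly) : Poly :=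
  MvPolynomial.pderiv 1 (n2 N T) * T - MvPolynomial.C 2 * (n2 N T * MvPolynomial.pderiv 1 T)

lemma n21 (N T : Poly) :
    MvPolynomial.pderiv 0 (n2 N T) * T - MvPolynomial.C 2 * (n2 N T * MvPolynomial.pderiv 0 T) =
      n12 N T := by
  unfold n12 n1 n2
  rw [show (MvPolynomial.C 2 : Poly) = 2 by rfl]
  simp only [map_sub, MvPolynomial.pderiv_mul]
  rw [pd_comm 0 1 N, pd_comm 0 1 T]
  ring

/-- derivative of a quotient by a square -/
lemma quot_sq_fderiv (M T : Poly) (z : ℝ × ℝ) (hz : ev T z ≠ 0) :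
    HasFDerivAt (fun z => ev M z / ev T z ^ 2)
      ((ev (MvPolynomial.pderiv 0 M * T - MvPolynomial.C 2 * (M * MvPolynomial.pderiv 0 T)) z /
          ev T z ^ 3) • ContinuousLinearMap.fst ℝ ℝ ℝ +
        (ev (MvPolynomial.pderiv 1 M * T - MvPolynomial.C 2 * (M * MvPolynomial.pderiv 1 T)) z /
          ev T z ^ 3) • ContinuousLinearMap.snd ℝ ℝ ℝ) z := by
  have h1 := ev_fderiv M z
  have h0 : HasDerivAt (fun x : ℝ => (x ^ 2)⁻¹) (-(2 * ev T z) / (ev T z ^ 2) ^ 2) (ev T z) := by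
    have h := (hasDerivAt_pow 2 (ev T z)).inv (pow_ne_zero 2 hz)
    have e : -((2 : ℕ) * ev T z ^ (2 - 1)) / (ev T z ^ 2) ^ 2 =
        -(2 * ev T z) / (ev T z ^ 2) ^ 2 := by norm_num
    rw [← e]
    exact h
  have h2 := h0.comp_hasFDerivAt z (ev_fderiv T z)
  have h3 := h1.mul h2
  have e : (fun z => ev M z / ev T z ^ 2) = fun z => ev M z * ((fun x : ℝ => (x ^ 2)⁻¹) ∘ ev T) z := by
    ext z
    rw [div_eq_mul_inv]
    rfl
  rw [e]
  refine h3.congr_fderiv ?_
  apply ContinuousLinearMap.ext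
  intro w
  simp only [add_apply, smul_apply, smul_eq_mul, dv_apply, ContinuousLinearMap.coe_fst',
    ContinuousLinearMap.coe_snd', ev_sub, ev_mul, ev_C, Function.comp_apply]
  field_simp
  ring

/-- membership in three variables -/
lemma ev_mem3 (p : Poly) {k : ℕ} (hp : p.totalDegree ≤ k) :
    (fun v : EuclideanSpace ℝ (Fin 3) => ev p (v 0, v 1)) ∈ Pol 3 k := by
  have h : (fun v : EuclideanSpace ℝ (Fin 3) => ev p (v 0, v 1)) = ∑ m ∈ p.support,
      MvPolynomial.coeff m p • fun v : EuclideanSpace ℝ (Fin 3) =>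
        ∏ i : Fin 3, v i ^ ((![m 0, m 1, 0] : Fin 3 → ℕ) i) := by
    ext v
    unfold ev
    rw [MvPolynomial.eval_eq']
    simp [Finset.sum_apply, Fin.prod_univ_two, Fin.prod_univ_three]
  rw [h]
  apply Submodule.sum_mem
  intro m hm
  apply Submodule.smul_mem
  apply Pool.Agent.H803R2.Kak.mono_mem
  have hle : ∀ i : Fin 2, m i ≤ k := by
    intro i
    refine le_trans ?_ hp
    refine le_trans ?_ (MvPolynomial.le_totalDegree hm)
    rw [Finsupp.sum_fintype _ _ (fun _ => rfl)]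
    exact Finset.single_le_sum (f := fun i => m i) (fun _ _ => Nat.zero_le _) (Finset.mem_univ i)
  intro i
  fin_cases i
  · exact hle 0
  · exact hle 1
  · exact Nat.zero_le _

/-- the bound of the fibres -/
def N3 (k : ℕ) : ℕ := ((1 + 3 * k) ^ 3) ^ 3

/-- **generic fibres** -/
lemma fibre3 (h M T : Poly) {k : ℕ} (hh : h.totalDegree ≤ k) (hM : M.totalDegree ≤ k)
    (hT : T.totalDegree ≤ k) :
    ∀ᵐ y : ℝ × ℝ, {z : ℝ × ℝ | ev T z ≠ 0 ∧ (ev h z, ev M z / ev T z ^ 2) = y}.encard ≤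
      (N3 (k + 2) : ℕ) := by
  set P : EuclideanSpace ℝ (Fin 3) → EuclideanSpace ℝ (Fin 3) := fun v =>
    WithLp.toLp 2 ![ev h (v 0, v 1), ev M (v 0, v 1) * (v 2 * v 2), ev T (v 0, v 1) * v 2] with hP
  have hc := Pool.Agent.H803R2.Kak.coord_mem_Pol (d := 3) 2 (L := 1) le_rfl
  have m0 : (fun v : EuclideanSpace ℝ (Fin 3) => ev h (v 0, v 1)) ∈ Pol 3 (k + 2) :=
    Pool.Agent.H803R2.Kak.Pol_mono (by omega) (ev_mem3 h hh)
  have m1 : ((fun v : EuclideanSpace ℝ (Fin 3) => ev M (v 0, v 1)) *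
      ((fun v : EuclideanSpace ℝ (Fin 3) => v 2) * fun v : EuclideanSpace ℝ (Fin 3) => v 2)) ∈
      Pol 3 (k + 2) :=
    Pool.Agent.H803R2.Kak.Pol_mono (by omega) (Pool.Agent.H803R2.Kak.mul_mem_Pol (ev_mem3 M hM)
      (Pool.Agent.H803R2.Kak.mul_mem_Pol hc hc))
  have m2 : ((fun v : EuclideanSpace ℝ (Fin 3) => ev T (v 0, v 1)) *
      (fun v : EuclideanSpace ℝ (Fin 3) => v 2)) ∈ Pol 3 (k + 2) :=
    Pool.Agent.H803R2.Kak.Pol_mono (by omega) (Pool.Agent.H803R2.Kak.mul_mem_Pol (ev_mem3 T hT) hc)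
  have hPm : ∀ j, (fun v => P v j) ∈ Pol 3 (k + 2) := by
    intro j
    fin_cases j
    · exact m0
    · exact m1
    · exact m2
  have h1 := Pool.Agent.H803R2.Kak.ae_fibre_le (d := 3) (by norm_num) (k + 2) (by omega) P hPm
  -- coordinates
  have hmp := (EuclideanSpace.volume_preserving_symm_measurableEquiv_toLp (Fin 3)).symm
  have hmp2 := hmp.comp (MP.spl_mp 1).symm
  have hmp3 := hmp2.comp (Measure.measurePreserving_swap (μ := (volume : Measure (Fin 1 → ℝ)))
    (ν := (volume : Measure (ℝ × ℝ))))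
  have h2 := hmp3.quasiMeasurePreserving.ae h1
  have h3 := Measure.ae_ae_of_ae_prod h2
  have h4 : ∀ᵐ c : Fin 1 → ℝ, c 0 ≠ 0 := by
    have e : {c : Fin 1 → ℝ | ¬ c 0 ≠ 0} = {0} := by
      ext c
      simp only [ne_eq, not_not, mem_ofPred_eq, mem_singleton_iff]
      constructor
      · intro h
        ext i
        fin_cases i
        exact h
      · intro h
        rw [h]
        rfl
    rw [ae_iff, e]
    exact measure_singleton 0
  obtain ⟨c, hc, hc0⟩ := (h3.and h4).exists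
  -- rescaling
  have hJd : (J 1 0 0 (c 0 ^ 2)).det ≠ 0 := by
    rw [J_det]
    simpa using hc0
  have h5 := (Measure.ContinuousLinearMap.quasiMeasurePreserving (volume : Measure (ℝ × ℝ))
    (J 1 0 0 (c 0 ^ 2)) hJd).ae hc
  filter_upwards [h5] with y hy
  refine le_trans ?_ hy
  rw [J_apply]
  apply Set.encard_le_encard_of_injOn (f := fun z : ℝ × ℝ => (WithLp.toLp 2 ![z.1, z.2, c 0 / ev T z] :
    EuclideanSpace ℝ (Fin 3)))
  · rintro z ⟨hz0, hz⟩
    have hz1 := congrArg Prod.fst hz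
    have hz2 := congrArg Prod.snd hz
    simp only at hz1 hz2
    simp only [mem_ofPred_eq]
    have e1 : ((⇑(MeasurableEquiv.toLp 2 (Fin 3 → ℝ)).symm.symm ∘ ⇑(MP.spl 1).symm) ∘ Prod.swap)
        ((c, (1 * y.1 + 0 * y.2, 0 * y.1 + c 0 ^ 2 * y.2)) : (Fin 1 → ℝ) × (ℝ × ℝ)) =
        WithLp.toLp 2 ![y.1, c 0 ^ 2 * y.2, c 0] := by
      have e2 : (MP.spl 1).symm ((y.1, c 0 ^ 2 * y.2), c) = ![y.1, c 0 ^ 2 * y.2, c 0] := by
        rw [MeasurableEquiv.symm_apply_eq, MP.spl_apply]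
        ext i
        · rfl
        · rfl
        · fin_cases i
          rfl
      simp only [Function.comp_apply, Prod.swap_prod_mk, one_mul, zero_mul, add_zero, zero_add]
      rw [e2]
      rfl
    rw [e1]
    simp only [hP]
    congr 1
    ext j
    fin_cases j
    · simpa using hz1
    · simp only [Fin.reduceFinMk, Matrix.cons_val]
      rw [← hz2]
      field_simp
    · simp only [Fin.reduceFinMk, Matrix.cons_val]
      field_simp
  · intro z _ w _ h
    have h0 := congrArg (fun v : EuclideanSpace ℝ (Fin 3) => v 0) h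
    have h1 := congrArg (fun v : EuclideanSpace ℝ (Fin 3) => v 1) h
    ext
    · simpa using h0
    · simpa using h1

lemma J_meas {X : Type*} [MeasurableSpace X] {a b c d : X → ℝ} (ha : Measurable a)
    (hb : Measurable b) (hc : Measurable c) (hd : Measurable d) :
    Measurable fun x => J (a x) (b x) (c x) (d x) := by
  unfold J
  exact (((ha.smul_const _).add (hb.smul_const _)).add (hc.smul_const _)).add (hd.smul_const _)

/-- the derivatives of the quotient by a square -/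
noncomputable def q0 (M T : Poly) (z : ℝ × ℝ) : ℝ :=
  ev (MvPolynomial.pderiv 0 M * T - MvPolynomial.C 2 * (M * MvPolynomial.pderiv 0 T)) z / ev T z ^ 3

noncomputable def q1 (M T : Poly) (z : ℝ × ℝ) : ℝ :=
  ev (MvPolynomial.pderiv 1 M * T - MvPolynomial.C 2 * (M * MvPolynomial.pderiv 1 T)) z / ev T z ^ 3

lemma q0_meas (M T : Poly) : Measurable (q0 M T) :=
  (ev_cont _).measurable.div ((ev_cont _).measurable.pow_const 3)

lemma q1_meas (M T : Poly) : Measurable (q1 M T) :=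
  (ev_cont _).measurable.div ((ev_cont _).measurable.pow_const 3)

/-- the area inequality -/
lemma area3 (h M T : Poly) (k : ℕ) (hh : h.totalDegree ≤ k) (hM : M.totalDegree ≤ k)
    (hT : T.totalDegree ≤ k) (ε lam : ℝ) (hε : 0 < ε) :
    ∫⁻ z in {z | ev T z ≠ 0 ∧ |ev h z| < ε ∧ |ev M z / ev T z ^ 2| < lam},
      ENNReal.ofReal |ev (MvPolynomial.pderiv 0 h) z * q1 M T z -
        ev (MvPolynomial.pderiv 1 h) z * q0 M T z| ≤
      (N3 (k + 2) : ℝ≥0∞) * ENNReal.ofReal (4 * ε * lam) := by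
  have hTm : MeasurableSet {z : ℝ × ℝ | ev T z ≠ 0} :=
    (isOpen_ne_fun (ev_cont T) continuous_const).measurableSet
  have h1 := Pool.Agent.H803R2.Kak.lintegral_det_le_mul (volume : Measure (ℝ × ℝ))
    (φ := fun z => (ev h z, ev M z / ev T z ^ 2))
    (φ' := fun z => J (ev (MvPolynomial.pderiv 0 h) z) (ev (MvPolynomial.pderiv 1 h) z)
      (q0 M T z) (q1 M T z))
    (s := {z : ℝ × ℝ | ev T z ≠ 0}) (U := Ioo (-ε) ε ×ˢ Ioo (-lam) lam) (N := N3 (k + 2)) hTm
    (measurableSet_Ioo.prod measurableSet_Ioo) (by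
      intro z hz
      have h2 := (ev_fderiv h z).prodMk (quot_sq_fderiv M T z hz)
      refine h2.congr_fderiv ?_
      apply ContinuousLinearMap.ext
      intro w
      rw [J_apply]
      simp only [ContinuousLinearMap.prod_apply, dv_apply, add_apply, smul_apply, smul_eq_mul,
        ContinuousLinearMap.coe_fst', ContinuousLinearMap.coe_snd']
      rfl)
    (J_meas (ev_cont _).measurable (ev_cont _).measurable (q0_meas M T) (q1_meas M T))
    (fibre3 h M T hh hM hT)
  simp only [J_det] at h1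
  have e1 : {z : ℝ × ℝ | z ∈ {z : ℝ × ℝ | ev T z ≠ 0} ∧
      (ev h z, ev M z / ev T z ^ 2) ∈ Ioo (-ε) ε ×ˢ Ioo (-lam) lam} =
      {z | ev T z ≠ 0 ∧ |ev h z| < ε ∧ |ev M z / ev T z ^ 2| < lam} := by
    ext z
    simp only [mem_prod, mem_Ioo, mem_ofPred_eq, abs_lt]
  rw [e1] at h1
  refine h1.trans (le_of_eq ?_)
  congr 1
  rw [Measure.volume_eq_prod, Measure.prod_prod, Real.volume_Ioo, Real.volume_Ioo,
    ← ENNReal.ofReal_mul (by linarith)]
  congr 1
  ring

section slices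

variable {ι : Type} [Fintype ι] (r : ι → Poly)

/-- **the projection lemma** -/
theorem proj3 (M₁ M₂ T : Poly) (k : ℕ) (hM₁ : M₁.totalDegree ≤ k) (hM₂ : M₂.totalDegree ≤ k)
    (hT : T.totalDegree ≤ k) (hr : (QQ r).totalDegree ≤ k)
    (s lam : ℝ) (hs : 0 < s) (hlam : 0 < lam)
    (hE : ∀ z ∈ EE r, |z.1| < 1 ∧ ev T z ≠ 0 ∧ |ev M₁ z / ev T z ^ 2| < lam ∧
      |ev M₂ z / ev T z ^ 2| < lam ∧ ∀ a b : ℝ, s ^ 2 * (a ^ 2 + b ^ 2) ≤
        (q0 M₁ T z * a + q1 M₁ T z * b) ^ 2 + (q0 M₂ T z * a + q1 M₂ T z * b) ^ 2) :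
    volume {y : ℝ | ∃ x : ℝ, (x, y) ∈ EE r} ≤ ENNReal.ofReal (8 * N3 (k + 2) * lam / s) := by
  have hb : ∀ z ∈ EE r, |z.1| < 1 := fun z hz => (hE z hz).1
  set h := hh r with hh_def
  have hhd : h.totalDegree ≤ k := (deg_pderiv _ _).trans hr
  -- the integral over the thin set
  have step1 : ∀ ε : ℝ, 0 < ε → ∫⁻ z in {z | z ∈ EE r ∧ |ev h z| < ε},
      ENNReal.ofReal |ev (MvPolynomial.pderiv 0 h) z| ≤
      ENNReal.ofReal ε * ENNReal.ofReal (8 * N3 (k + 2) * lam / s) := by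
    intro ε hε
    have a1 := area3 h M₁ T k hhd hM₁ hT ε lam hε
    have a2 := area3 h M₂ T k hhd hM₂ hT ε lam hε
    set D1 : ℝ × ℝ → ℝ := fun z => ev (MvPolynomial.pderiv 0 h) z * q1 M₁ T z -
        ev (MvPolynomial.pderiv 1 h) z * q0 M₁ T z with hD1
    set D2 : ℝ × ℝ → ℝ := fun z => ev (MvPolynomial.pderiv 0 h) z * q1 M₂ T z -
        ev (MvPolynomial.pderiv 1 h) z * q0 M₂ T z with hD2
    have hD1c : Measurable D1 := ((ev_cont _).measurable.mul (q1_meas _ _)).sub
      ((ev_cont _).measurable.mul (q0_meas _ _))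
    have hD2c : Measurable D2 := ((ev_cont _).measurable.mul (q1_meas _ _)).sub
      ((ev_cont _).measurable.mul (q0_meas _ _))
    set W : Set (ℝ × ℝ) := {z | z ∈ EE r ∧ |ev h z| < ε} with hW
    have hWm : MeasurableSet W :=
      (EE_open r).measurableSet.inter (isOpen_lt (ev_cont h).abs continuous_const).measurableSet
    have hpt : ∀ z ∈ W, ENNReal.ofReal |ev (MvPolynomial.pderiv 0 h) z| ≤
        ENNReal.ofReal (1 / s) * (ENNReal.ofReal |D1 z| + ENNReal.ofReal |D2 z|) := by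
      intro z hz
      have h1 := (hE z hz.1).2.2.2.2 (-ev (MvPolynomial.pderiv 1 h) z) (ev (MvPolynomial.pderiv 0 h) z)
      rw [← ENNReal.ofReal_add (abs_nonneg _) (abs_nonneg _), ← ENNReal.ofReal_mul (by positivity)]
      apply ENNReal.ofReal_le_ofReal
      rw [one_div, ← div_eq_inv_mul, le_div_iff₀ hs]
      have h2 : (|ev (MvPolynomial.pderiv 0 h) z| * s) ^ 2 ≤ (|D1 z| + |D2 z|) ^ 2 := by
        have e1 : (|ev (MvPolynomial.pderiv 0 h) z| * s) ^ 2 =
            s ^ 2 * (ev (MvPolynomial.pderiv 0 h) z) ^ 2 := by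
          rw [mul_pow, sq_abs]
          ring
        have e2 : (|D1 z| + |D2 z|) ^ 2 = D1 z ^ 2 + D2 z ^ 2 + 2 * (|D1 z| * |D2 z|) := by
          have := sq_abs (D1 z)
          have := sq_abs (D2 z)
          nlinarith
        have e3 : D1 z ^ 2 + D2 z ^ 2 =
            (q0 M₁ T z * (-ev (MvPolynomial.pderiv 1 h) z) +
              q1 M₁ T z * ev (MvPolynomial.pderiv 0 h) z) ^ 2 +
            (q0 M₂ T z * (-ev (MvPolynomial.pderiv 1 h) z) +
              q1 M₂ T z * ev (MvPolynomial.pderiv 0 h) z) ^ 2 := by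
          simp only [hD1, hD2]
          ring
        rw [e1, e2, e3]
        have e4 : 0 ≤ 2 * (|D1 z| * |D2 z|) := by positivity
        have e5 : 0 ≤ s ^ 2 * (-ev (MvPolynomial.pderiv 1 h) z) ^ 2 := by positivity
        linarith
      exact le_of_sq_le_sq h2 (by positivity)
    calc ∫⁻ z in W, ENNReal.ofReal |ev (MvPolynomial.pderiv 0 h) z| ≤
        ∫⁻ z in W, ENNReal.ofReal (1 / s) * (ENNReal.ofReal |D1 z| + ENNReal.ofReal |D2 z|) :=
          setLIntegral_mono' hWm hpt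
      _ = ENNReal.ofReal (1 / s) * ((∫⁻ z in W, ENNReal.ofReal |D1 z|) +
          (∫⁻ z in W, ENNReal.ofReal |D2 z|)) := by
          have hD1a : Measurable fun z => ENNReal.ofReal |D1 z| := by fun_prop
          rw [lintegral_const_mul' _ _ ENNReal.ofReal_ne_top, lintegral_add_left hD1a]
      _ ≤ ENNReal.ofReal (1 / s) * ((N3 (k + 2) : ℝ≥0∞) * ENNReal.ofReal (4 * ε * lam) +
          (N3 (k + 2) : ℝ≥0∞) * ENNReal.ofReal (4 * ε * lam)) := by
          gcongr
          · refine le_trans (lintegral_mono_set ?_) a1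
            intro z hz
            exact ⟨(hE z hz.1).2.1, hz.2, (hE z hz.1).2.2.1⟩
          · refine le_trans (lintegral_mono_set ?_) a2
            intro z hz
            exact ⟨(hE z hz.1).2.1, hz.2, (hE z hz.1).2.2.2.1⟩
      _ = _ := by
          rw [← two_mul, show (2 : ℝ≥0∞) = ENNReal.ofReal 2 by norm_num,
            show (N3 (k + 2) : ℝ≥0∞) = ENNReal.ofReal (N3 (k + 2)) by rw [ENNReal.ofReal_natCast],
            ← ENNReal.ofReal_mul (by positivity), ← ENNReal.ofReal_mul (by positivity),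
            ← ENNReal.ofReal_mul (by positivity), ← ENNReal.ofReal_mul (by positivity)]
          congr 1
          field_simp
          ring
  -- Chebyshev
  have step2 : ∀ ε : ℝ, 0 < ε → volume {y : ℝ | ∃ x : ℝ, (x, y) ∈ EE r ∧ ε ≤ ev h (x, y)} ≤
      ENNReal.ofReal (8 * N3 (k + 2) * lam / s) := by
    intro ε hε
    set W : Set (ℝ × ℝ) := {z | z ∈ EE r ∧ |ev h z| < ε} with hW
    have hWm : MeasurableSet W :=
      (EE_open r).measurableSet.inter (isOpen_lt (ev_cont h).abs continuous_const).measurableSet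
    set G : ℝ × ℝ → ℝ≥0∞ := W.indicator fun z => ENNReal.ofReal |ev (MvPolynomial.pderiv 0 h) z|
      with hG
    have hGm : Measurable G := (ev_cont _).abs.measurable.ennreal_ofReal.indicator hWm
    have h1 : ∫⁻ y, ∫⁻ x, G (x, y) ≤ ENNReal.ofReal ε * ENNReal.ofReal (8 * N3 (k + 2) * lam / s) := by
      refine le_trans (le_of_eq ?_) (step1 ε hε)
      rw [← lintegral_prod_symm _ hGm.aemeasurable, ← Measure.volume_eq_prod, hG,
        lintegral_indicator hWm]
    have h2 : {y : ℝ | ∃ x : ℝ, (x, y) ∈ EE r ∧ ε ≤ ev h (x, y)} ⊆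
        {y | ENNReal.ofReal ε ≤ ∫⁻ x, G (x, y)} := by
      rintro y ⟨x, hx, hxe⟩
      have h3 := slice_low r hb ε y x hx hxe
      refine h3.trans (le_of_eq ?_)
      rw [← lintegral_indicator]
      · congr 1
      · apply MeasurableSet.inter
        · exact (OO_open r y).measurableSet
        · exact (isOpen_lt ((ev_cont (hh r)).comp (by fun_prop)).abs
            continuous_const).measurableSet
    have h4 := mul_meas_ge_le_lintegral (μ := volume) (hGm.lintegral_prod_left' (μ := volume))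
      (ENNReal.ofReal ε)
    have h5 : ENNReal.ofReal ε * volume {y : ℝ | ∃ x : ℝ, (x, y) ∈ EE r ∧ ε ≤ ev h (x, y)} ≤
        ENNReal.ofReal ε * ENNReal.ofReal (8 * N3 (k + 2) * lam / s) :=
      (mul_le_mul_right (measure_mono h2) _).trans (h4.trans h1)
    exact (ENNReal.mul_le_mul_iff_right (by simpa using hε) ENNReal.ofReal_ne_top).mp h5
  -- the union
  have h6 : {y : ℝ | ∃ x : ℝ, (x, y) ∈ EE r} ⊆
      ⋃ n : ℕ, {y : ℝ | ∃ x : ℝ, (x, y) ∈ EE r ∧ 1 / ((n : ℝ) + 1) ≤ ev h (x, y)} := by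
    rintro y ⟨x, hx⟩
    obtain ⟨c, hc, hc2⟩ := pos_pt r hb y x hx
    obtain ⟨n, hn⟩ := exists_nat_one_div_lt hc2
    exact mem_iUnion.mpr ⟨n, c, hc, hn.le⟩
  refine (measure_mono h6).trans ?_
  rw [Monotone.measure_iUnion]
  · apply iSup_le
    intro n
    exact step2 _ (by positivity)
  · intro m n hmn y hy
    obtain ⟨x, hx, hx2⟩ := hy
    refine ⟨x, hx, le_trans ?_ hx2⟩
    apply one_div_le_one_div_of_le (by positivity)
    have : (m : ℝ) ≤ n := by exact_mod_cast hmn
    linarith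

end slices

end Pool.Agent.Helper35.CP
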