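import Pool.Agent.Helper35.CP.A
set_option autoImplicit false

/-! The Hessian conditions for quotients of polynomials. -/

namespace Pool.Agent.Helper35.CP

open MeasureTheory Set Filter Topology Complex
open scoped ENNReal NNReal
open Pool.Agent.Y183.PP

/-- the trace condition -/
noncomputable def mtR (s : ℝ) (N T : Poly) : Poly :=
  n11 N T ^ 2 + MvPolynomial.C 2 * n12 N T ^ 2 + n22 N T ^ 2 - MvPolynomial.C (2 * s ^ 2) * T ^ 6

/-- the determinant condition -/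
noncomputable def mdR (s : ℝ) (N T : Poly) : Poly :=
  (n11 N T ^ 2 + n12 N T ^ 2 - MvPolynomial.C (s ^ 2) * T ^ 6) *
    (n12 N T ^ 2 + n22 N T ^ 2 - MvPolynomial.C (s ^ 2) * T ^ 6) -
    n12 N T ^ 2 * (n11 N T + n22 N T) ^ 2

lemma ev_mtR (s : ℝ) (N T : Poly) (z : ℝ × ℝ) : ev (mtR s N T) z =
    ev (n11 N T) z ^ 2 + 2 * ev (n12 N T) z ^ 2 + ev (n22 N T) z ^ 2 - 2 * s ^ 2 * ev T z ^ 6 := by
  simp only [mtR, ev_sub, ev_add, ev_mul, ev_pow, ev_C]

lemma ev_mdR (s : ℝ) (N T : Poly) (z : ℝ × ℝ) : ev (mdR s N T) z =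
    (ev (n11 N T) z ^ 2 + ev (n12 N T) z ^ 2 - s ^ 2 * ev T z ^ 6) *
      (ev (n12 N T) z ^ 2 + ev (n22 N T) z ^ 2 - s ^ 2 * ev T z ^ 6) -
      ev (n12 N T) z ^ 2 * (ev (n11 N T) z + ev (n22 N T) z) ^ 2 := by
  simp only [mdR, ev_sub, ev_add, ev_mul, ev_pow, ev_C]

/-- the regular points -/
def BBR (s : ℝ) (N T : Poly) : Set (ℝ × ℝ) := {z | 0 < ev (mtR s N T) z ∧ 0 < ev (mdR s N T) z}

lemma BBR_open (s : ℝ) (N T : Poly) : IsOpen (BBR s N T) :=
  (isOpen_lt continuous_const (ev_cont _)).inter (isOpen_lt continuous_const (ev_cont _))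

lemma mem_BBR (s : ℝ) (N T : Poly) (z : ℝ × ℝ) (hT : ev T z ≠ 0) : z ∈ BBR s N T ↔
    MP.Rg s (ev (n11 N T) z / ev T z ^ 3) (ev (n12 N T) z / ev T z ^ 3)
      (ev (n22 N T) z / ev T z ^ 3) := by
  have hT6 : 0 < ev T z ^ 6 := by positivity
  have hT12 : 0 < ev T z ^ 12 := by positivity
  have e1 : ev (mtR s N T) z = ev T z ^ 6 * ((ev (n11 N T) z / ev T z ^ 3) ^ 2 +
      2 * (ev (n12 N T) z / ev T z ^ 3) ^ 2 + (ev (n22 N T) z / ev T z ^ 3) ^ 2 - 2 * s ^ 2) := by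
    rw [ev_mtR]
    field_simp
  have e2 : ev (mdR s N T) z = ev T z ^ 12 * (((ev (n11 N T) z / ev T z ^ 3) ^ 2 +
      (ev (n12 N T) z / ev T z ^ 3) ^ 2 - s ^ 2) * ((ev (n12 N T) z / ev T z ^ 3) ^ 2 +
      (ev (n22 N T) z / ev T z ^ 3) ^ 2 - s ^ 2) - (ev (n12 N T) z / ev T z ^ 3) ^ 2 *
      (ev (n11 N T) z / ev T z ^ 3 + ev (n22 N T) z / ev T z ^ 3) ^ 2) := by
    rw [ev_mdR]
    field_simp
  unfold BBR MP.Rg
  simp only [mem_ofPred_eq]
  rw [e1, e2, mul_pos_iff_of_pos_left hT6, mul_pos_iff_of_pos_left hT12]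

lemma deg_pow {p : Poly} {n : ℕ} (hp : p.totalDegree ≤ n) (k : ℕ) : (p ^ k).totalDegree ≤ k * n :=
  (MvPolynomial.totalDegree_pow p k).trans (Nat.mul_le_mul_left k hp)

section degrees

variable {K : ℕ} {N T : Poly} (hN : N.totalDegree ≤ K) (hT : T.totalDegree ≤ K)
include hN hT

lemma deg_n1 : (n1 N T).totalDegree ≤ 2 * K := by
  unfold n1
  apply deg_sub
  · exact (deg_mul ((deg_pderiv _ _).trans hN) hT).trans (by omega)
  · exact (deg_mul hN ((deg_pderiv _ _).trans hT)).trans (by omega)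

lemma deg_n2 : (n2 N T).totalDegree ≤ 2 * K := by
  unfold n2
  apply deg_sub
  · exact (deg_mul ((deg_pderiv _ _).trans hN) hT).trans (by omega)
  · exact (deg_mul hN ((deg_pderiv _ _).trans hT)).trans (by omega)

lemma deg_n11 : (n11 N T).totalDegree ≤ 3 * K := by
  unfold n11
  have h1 := deg_n1 hN hT
  apply deg_sub
  · exact (deg_mul ((deg_pderiv _ _).trans h1) hT).trans (by omega)
  · exact (deg_mul (deg_C 2 0) (deg_mul h1 ((deg_pderiv _ _).trans hT))).trans (by omega)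

lemma deg_n12 : (n12 N T).totalDegree ≤ 3 * K := by
  unfold n12
  have h1 := deg_n1 hN hT
  apply deg_sub
  · exact (deg_mul ((deg_pderiv _ _).trans h1) hT).trans (by omega)
  · exact (deg_mul (deg_C 2 0) (deg_mul h1 ((deg_pderiv _ _).trans hT))).trans (by omega)

lemma deg_n22 : (n22 N T).totalDegree ≤ 3 * K := by
  unfold n22
  have h1 := deg_n2 hN hT
  apply deg_sub
  · exact (deg_mul ((deg_pderiv _ _).trans h1) hT).trans (by omega)
  · exact (deg_mul (deg_C 2 0) (deg_mul h1 ((deg_pderiv _ _).trans hT))).trans (by omega)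

lemma deg_mtR (s : ℝ) : (mtR s N T).totalDegree ≤ 6 * K := by
  unfold mtR
  have h1 := deg_n11 hN hT
  have h2 := deg_n12 hN hT
  have h3 := deg_n22 hN hT
  apply deg_sub
  · apply deg_add
    · apply deg_add
      · exact (deg_sq h1).trans (by omega)
      · exact (deg_mul (deg_C 2 0) (deg_sq h2)).trans (by omega)
    · exact (deg_sq h3).trans (by omega)
  · exact (deg_mul (deg_C _ 0) (deg_pow hT 6)).trans (by omega)

lemma deg_mdR (s : ℝ) : (mdR s N T).totalDegree ≤ 12 * K := by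
  unfold mdR
  have h1 := deg_n11 hN hT
  have h2 := deg_n12 hN hT
  have h3 := deg_n22 hN hT
  have h6 : (MvPolynomial.C (s ^ 2) * T ^ 6 : Poly).totalDegree ≤ 6 * K :=
    (deg_mul (deg_C _ 0) (deg_pow hT 6)).trans (by omega)
  apply deg_sub
  · refine (deg_mul (n := 6 * K) (m := 6 * K) ?_ ?_).trans (by omega)
    · exact deg_sub (deg_add ((deg_sq h1).trans (by omega)) ((deg_sq h2).trans (by omega))) h6
    · exact deg_sub (deg_add ((deg_sq h2).trans (by omega)) ((deg_sq h3).trans (by omega))) h6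
  · exact (deg_mul (deg_sq h2) (deg_sq (deg_add h1 h3))).trans (by omega)

end degrees

/-- the defining polynomials -/
noncomputable def rr (s lam : ℝ) (N T : Poly) : Fin 6 → Poly :=
  ![MvPolynomial.C (lam ^ 2) * T ^ 4 - n1 N T ^ 2, MvPolynomial.C (lam ^ 2) * T ^ 4 - n2 N T ^ 2,
    MvPolynomial.C 1 - MvPolynomial.X 0 * MvPolynomial.X 0, mtR s N T, mdR s N T, T]

lemma deg_QQR {K : ℕ} {N T : Poly} (hN : N.totalDegree ≤ K) (hT : T.totalDegree ≤ K)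
    (s lam : ℝ) : (QQ (rr s lam N T)).totalDegree ≤ 27 * K + 2 := by
  unfold QQ
  have hX : (MvPolynomial.X 0 * MvPolynomial.X 0 : Poly).totalDegree ≤ 2 := by
    refine (deg_mul (n := 1) (m := 1) ?_ ?_).trans (by norm_num) <;>
    rw [MvPolynomial.totalDegree_X]
  rw [Fin.prod_univ_six]
  have hT4 : (MvPolynomial.C (lam ^ 2) * T ^ 4 : Poly).totalDegree ≤ 4 * K :=
    (deg_mul (deg_C _ 0) (deg_pow hT 4)).trans (by omega)
  have h := deg_mul (deg_mul (deg_mul (deg_mul (deg_mul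
    (deg_sub hT4 ((deg_sq (deg_n1 hN hT)).trans (by omega : 2 * (2 * K) ≤ 4 * K)))
    (deg_sub hT4 ((deg_sq (deg_n2 hN hT)).trans (by omega : 2 * (2 * K) ≤ 4 * K))))
    (deg_sub (deg_C 1 2) hX)) (deg_mtR hN hT s)) (deg_mdR hN hT s)) hT
  refine le_trans (le_of_eq rfl) (h.trans ?_)
  omega

/-- the exceptional lines -/
def PexcR (s lam : ℝ) (N T : Poly) : Set ℝ := {y | ∃ x : ℝ, |x| < 1 ∧ 0 < ev T (x, y) ∧
  |ev (n1 N T) (x, y)| < lam * ev T (x, y) ^ 2 ∧ |ev (n2 N T) (x, y)| < lam * ev T (x, y) ^ 2 ∧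
  (x, y) ∈ BBR s N T}

lemma mem_EER (s lam : ℝ) (hl : 0 < lam) (N T : Poly) (z : ℝ × ℝ) : z ∈ EE (rr s lam N T) ↔
    |z.1| < 1 ∧ 0 < ev T z ∧ |ev (n1 N T) z| < lam * ev T z ^ 2 ∧
      |ev (n2 N T) z| < lam * ev T z ^ 2 ∧ z ∈ BBR s N T := by
  have key : ∀ a : ℝ, 0 < lam ^ 2 * ev T z ^ 4 - a ^ 2 ↔ |a| < lam * ev T z ^ 2 := by
    intro a
    rw [sub_pos]
    have h0 : 0 ≤ lam * ev T z ^ 2 := by positivity
    have e : lam ^ 2 * ev T z ^ 4 = (lam * ev T z ^ 2) ^ 2 := by ring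
    rw [e, sq_lt_sq, abs_of_nonneg h0]
  have e0 : ev (MvPolynomial.C (lam ^ 2) * T ^ 4 - n1 N T ^ 2) z =
      lam ^ 2 * ev T z ^ 4 - ev (n1 N T) z ^ 2 := by
    simp only [ev_sub, ev_mul, ev_pow, ev_C]
  have e1 : ev (MvPolynomial.C (lam ^ 2) * T ^ 4 - n2 N T ^ 2) z =
      lam ^ 2 * ev T z ^ 4 - ev (n2 N T) z ^ 2 := by
    simp only [ev_sub, ev_mul, ev_pow, ev_C]
  have e2 : ev (MvPolynomial.C 1 - MvPolynomial.X 0 * MvPolynomial.X 0) z = 1 - z.1 * z.1 := by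
    simp only [ev_sub, ev_mul, ev_X0, ev_C]
  have k2 : 0 < 1 - z.1 * z.1 ↔ |z.1| < 1 := by
    rw [sub_pos, ← sq, sq_lt_one_iff_abs_lt_one]
  unfold EE
  simp only [mem_ofPred_eq, Fin.forall_fin_succ, IsEmpty.forall_iff, and_true]
  show (0 < ev (MvPolynomial.C (lam ^ 2) * T ^ 4 - n1 N T ^ 2) z ∧
    0 < ev (MvPolynomial.C (lam ^ 2) * T ^ 4 - n2 N T ^ 2) z ∧
    0 < ev (MvPolynomial.C 1 - MvPolynomial.X 0 * MvPolynomial.X 0) z ∧ 0 < ev (mtR s N T) z ∧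
    0 < ev (mdR s N T) z ∧ 0 < ev T z) ↔ _
  rw [e0, e1, e2, key, key, k2]
  unfold BBR
  simp only [mem_ofPred_eq]
  tauto

lemma PexcR_eq (s lam : ℝ) (hl : 0 < lam) (N T : Poly) :
    PexcR s lam N T = {y | ∃ x : ℝ, (x, y) ∈ EE (rr s lam N T)} := by
  ext y
  unfold PexcR
  simp only [mem_ofPred_eq, mem_EER s lam hl]

lemma PexcR_open (s lam : ℝ) (hl : 0 < lam) (N T : Poly) : IsOpen (PexcR s lam N T) := by
  rw [PexcR_eq s lam hl]
  have : {y : ℝ | ∃ x : ℝ, (x, y) ∈ EE (rr s lam N T)} = ⋃ x : ℝ, {y | (x, y) ∈ EE (rr s lam N T)} := by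
    ext y; simp
  rw [this]
  exact isOpen_iUnion fun x => (EE_open _).preimage (by fun_prop)

/-- the constant -/
noncomputable def c1R (K : ℕ) : ℝ := 8 * N3 (27 * K + 2 + 2)

lemma c1R_nonneg (K : ℕ) : 0 ≤ c1R K := by unfold c1R; positivity

/-- **measure of the exceptional lines** -/
lemma PexcR_vol {K : ℕ} {N T : Poly} (hN : N.totalDegree ≤ K) (hT : T.totalDegree ≤ K)
    (s lam : ℝ) (hs : 0 < s) (hl : 0 < lam) :
    volume (PexcR s lam N T) ≤ ENNReal.ofReal (c1R K * lam / s) := by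
  rw [PexcR_eq s lam hl]
  apply proj3 (rr s lam N T) (n1 N T) (n2 N T) T (27 * K + 2) ((deg_n1 hN hT).trans (by omega))
    ((deg_n2 hN hT).trans (by omega)) (hT.trans (by omega)) (deg_QQR hN hT s lam) s lam hs hl
  intro z hz
  rw [mem_EER s lam hl] at hz
  obtain ⟨h1, h2, h3, h4, h5⟩ := hz
  have hT2 : 0 < ev T z ^ 2 := by positivity
  refine ⟨h1, h2.ne', ?_, ?_, fun u v => ?_⟩
  · rw [abs_div, abs_of_pos hT2, div_lt_iff₀ hT2]
    exact h3
  · rw [abs_div, abs_of_pos hT2, div_lt_iff₀ hT2]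
    exact h4
  · rw [mem_BBR s N T z h2.ne'] at h5
    have h6 := pd_form _ _ _ _ h5.1 h5.2 u v
    have e : q0 (n2 N T) T z = ev (n12 N T) z / ev T z ^ 3 := by
      unfold q0
      rw [n21]
    have e' : q0 (n1 N T) T z = ev (n11 N T) z / ev T z ^ 3 := rfl
    have e'' : q1 (n1 N T) T z = ev (n12 N T) z / ev T z ^ 3 := rfl
    have e''' : q1 (n2 N T) T z = ev (n22 N T) z / ev T z ^ 3 := rfl
    rw [e, e', e'', e''']
    exact h6

end Pool.Agent.Helper35.CP
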