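import Pool.Agent.Helper35.CP.B
set_option autoImplicit false

/-! The first derivative test on an interval, the regions, constancy between cut points. -/

namespace Pool.Agent.Helper35.CP

open MeasureTheory Set Filter Topology Complex
open scoped ENNReal NNReal
open Pool.Agent.Y183.PP

/-- first derivative test, derivatives only on the interval -/
lemma vdcL (P P1 P2 : ℝ → ℝ) (a b : ℝ) (hab : a ≤ b) (h1 : ∀ x ∈ Icc a b, HasDerivAt P (P1 x) x)
    (h2 : ∀ x ∈ Icc a b, HasDerivAt P1 (P2 x) x)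
    (hc : ContinuousOn P2 (Icc a b)) (μ : ℝ) (hμ : 0 < μ)
    (hm : ∀ x ∈ Icc a b, μ ≤ |P1 x|)
    (hs : (∀ x ∈ Icc a b, 0 ≤ P2 x) ∨ (∀ x ∈ Icc a b, P2 x ≤ 0)) :
    ‖∫ x in a..b, cexp ((P x : ℂ) * I)‖ ≤ 3 / μ := by
  have hc1 : ContinuousOn P1 (Icc a b) := fun x hx => (h2 x hx).continuousAt.continuousWithinAt
  have hc0 : ContinuousOn P (Icc a b) := fun x hx => (h1 x hx).continuousAt.continuousWithinAt
  have hne : ∀ x ∈ Icc a b, P1 x ≠ 0 := by
    intro x hx h
    have := hm x hx
    rw [h, abs_zero] at this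
    linarith
  set u : ℝ → ℂ := fun x => ((P1 x : ℂ) * I)⁻¹ with hu
  set u' : ℝ → ℂ := fun x => -((P2 x : ℂ) * I) / ((P1 x : ℂ) * I) ^ 2 with hu'
  set v : ℝ → ℂ := fun x => cexp ((P x : ℂ) * I) with hv
  set v' : ℝ → ℂ := fun x => cexp ((P x : ℂ) * I) * ((P1 x : ℂ) * I) with hv'
  have hI : ∀ x ∈ Icc a b, (P1 x : ℂ) * I ≠ 0 := fun x hx =>
    mul_ne_zero (by exact_mod_cast hne x hx) I_ne_zero
  have hu1 : ∀ x ∈ uIcc a b, HasDerivAt u (u' x) x := by
    intro x hx
    rw [uIcc_of_le hab] at hx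
    have h3 : HasDerivAt (fun x : ℝ => (P1 x : ℂ) * I) ((P2 x : ℂ) * I) x :=
      ((h2 x hx).ofReal_comp).mul_const I
    exact h3.inv (hI x hx)
  have hv1 : ∀ x ∈ uIcc a b, HasDerivAt v (v' x) x := by
    intro x hx
    rw [uIcc_of_le hab] at hx
    have h3 : HasDerivAt (fun x : ℝ => (P x : ℂ) * I) ((P1 x : ℂ) * I) x :=
      ((h1 x hx).ofReal_comp).mul_const I
    exact h3.cexp
  have hP2c : ContinuousOn (fun x => (P2 x : ℂ) * I) (Icc a b) :=
    (continuous_ofReal.comp_continuousOn hc).mul continuousOn_const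
  have hP1c : ContinuousOn (fun x => (P1 x : ℂ) * I) (Icc a b) :=
    (continuous_ofReal.comp_continuousOn hc1).mul continuousOn_const
  have hP0c : ContinuousOn (fun x => (P x : ℂ) * I) (Icc a b) :=
    (continuous_ofReal.comp_continuousOn hc0).mul continuousOn_const
  have hu'c : ContinuousOn u' (uIcc a b) := by
    rw [uIcc_of_le hab]
    apply ContinuousOn.div
    · exact hP2c.neg
    · exact hP1c.pow 2
    · intro x hx
      exact pow_ne_zero 2 (hI x hx)
  have hv'c : ContinuousOn v' (uIcc a b) := by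
    rw [uIcc_of_le hab]
    exact (Complex.continuous_exp.comp_continuousOn hP0c).mul hP1c
  have hparts := intervalIntegral.integral_mul_deriv_eq_deriv_mul hu1 hv1
    hu'c.intervalIntegrable hv'c.intervalIntegrable
  have e1 : ∫ x in a..b, cexp ((P x : ℂ) * I) = ∫ x in a..b, u x * v' x := by
    apply intervalIntegral.integral_congr
    intro x hx
    rw [uIcc_of_le hab] at hx
    simp only [hu, hv']
    rw [mul_comm (cexp _), ← mul_assoc, inv_mul_cancel₀ (hI x hx), one_mul]
  rw [e1, hparts]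
  have nv : ∀ x, ‖v x‖ = 1 := fun x => by simp only [hv]; exact Complex.norm_exp_ofReal_mul_I _
  have nu : ∀ x ∈ Icc a b, ‖u x‖ ≤ 1 / μ := by
    intro x hx
    simp only [hu]
    rw [norm_inv, norm_mul, Complex.norm_I, mul_one, Complex.norm_real, Real.norm_eq_abs, ← one_div]
    exact one_div_le_one_div_of_le hμ (hm x hx)
  have hw : ∀ x ∈ uIcc a b, HasDerivAt (fun x => -(P1 x)⁻¹) (P2 x / (P1 x) ^ 2) x := by
    intro x hx
    rw [uIcc_of_le hab] at hx
    have h3 : HasDerivAt (fun x => -(P1 x)⁻¹) (-(-P2 x / (P1 x) ^ 2)) x :=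
      ((h2 x hx).inv (hne x hx)).neg
    rwa [neg_div, neg_neg] at h3
  have hwc : ContinuousOn (fun x => P2 x / (P1 x) ^ 2) (uIcc a b) := by
    rw [uIcc_of_le hab]
    exact hc.div (hc1.pow 2) fun x hx => pow_ne_zero 2 (hne x hx)
  have hwi := intervalIntegral.integral_eq_sub_of_hasDerivAt hw hwc.intervalIntegrable
  have hsign : (∀ x ∈ Icc a b, μ ≤ P1 x) ∨ (∀ x ∈ Icc a b, P1 x ≤ -μ) := by
    by_contra hcon
    push Not at hcon
    obtain ⟨⟨x, hx, hx1⟩, ⟨y, hy, hy1⟩⟩ := hcon
    have hx2 : P1 x ≤ -μ := by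
      rcases le_abs.mp (hm x hx) with h | h
      · linarith
      · linarith
    have hy2 : μ ≤ P1 y := by
      rcases le_abs.mp (hm y hy) with h | h
      · linarith
      · linarith
    have h5 : uIcc x y ⊆ Icc a b := by
      rw [← uIcc_of_le hab]
      apply uIcc_subset_uIcc <;> rw [uIcc_of_le hab]
      · exact hx
      · exact hy
    have h3 : (0 : ℝ) ∈ P1 '' uIcc x y := by
      have h4 := intermediate_value_uIcc (a := x) (b := y) (hc1.mono h5)
      apply h4
      rw [mem_uIcc]
      left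
      constructor <;> linarith
    obtain ⟨z, hz, hz0⟩ := h3
    exact hne z (h5 hz) hz0
  have hdiff : |(∫ x in a..b, P2 x / (P1 x) ^ 2)| ≤ 1 / μ := by
    rw [hwi]
    have ha := left_mem_Icc.mpr hab
    have hb := right_mem_Icc.mpr hab
    rcases hsign with h | h
    · have a1 : 0 < (P1 a)⁻¹ := inv_pos.mpr (by linarith [h a ha])
      have b1 : 0 < (P1 b)⁻¹ := inv_pos.mpr (by linarith [h b hb])
      have a2 : (P1 a)⁻¹ ≤ 1 / μ := by rw [one_div]; exact inv_anti₀ hμ (h a ha)
      have b2 : (P1 b)⁻¹ ≤ 1 / μ := by rw [one_div]; exact inv_anti₀ hμ (h b hb)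
      rw [abs_le]
      constructor <;> linarith
    · have a1 : 0 < (-P1 a)⁻¹ := inv_pos.mpr (by linarith [h a ha])
      have b1 : 0 < (-P1 b)⁻¹ := inv_pos.mpr (by linarith [h b hb])
      have a2 : (-P1 a)⁻¹ ≤ 1 / μ := by rw [one_div]; exact inv_anti₀ hμ (by linarith [h a ha])
      have b2 : (-P1 b)⁻¹ ≤ 1 / μ := by rw [one_div]; exact inv_anti₀ hμ (by linarith [h b hb])
      rw [inv_neg] at a1 a2 b1 b2
      rw [abs_le]
      constructor <;> linarith
  have hint : ‖∫ x in a..b, u' x * v x‖ ≤ 1 / μ := by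
    have h3 : ∀ x ∈ Icc a b, ‖u' x * v x‖ = |P2 x / (P1 x) ^ 2| := by
      intro x _
      rw [norm_mul, nv, mul_one]
      simp only [hu']
      rw [norm_div, norm_neg, norm_mul, Complex.norm_I, mul_one, norm_pow, norm_mul, Complex.norm_I,
        mul_one, Complex.norm_real, Complex.norm_real, Real.norm_eq_abs, Real.norm_eq_abs, abs_div,
        abs_pow]
    refine (intervalIntegral.norm_integral_le_integral_norm hab).trans ?_
    rw [intervalIntegral.integral_congr (g := fun x => |P2 x / (P1 x) ^ 2|) (by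
      intro x hx
      rw [uIcc_of_le hab] at hx
      exact h3 x hx)]
    refine le_trans (le_of_eq ?_) hdiff
    rcases hs with h | h
    · have e2 : ∫ x in a..b, |P2 x / (P1 x) ^ 2| = ∫ x in a..b, P2 x / (P1 x) ^ 2 := by
        apply intervalIntegral.integral_congr
        intro x hx
        rw [uIcc_of_le hab] at hx
        exact abs_of_nonneg (div_nonneg (h x hx) (by positivity))
      have e3 : 0 ≤ ∫ x in a..b, P2 x / (P1 x) ^ 2 :=
        intervalIntegral.integral_nonneg hab fun x hx => div_nonneg (h x hx) (by positivity)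
      rw [e2, abs_of_nonneg e3]
    · have e2 : ∫ x in a..b, |P2 x / (P1 x) ^ 2| = ∫ x in a..b, -(P2 x / (P1 x) ^ 2) := by
        apply intervalIntegral.integral_congr
        intro x hx
        rw [uIcc_of_le hab] at hx
        exact abs_of_nonpos (div_nonpos_of_nonpos_of_nonneg (h x hx) (by positivity))
      have e3 : 0 ≤ ∫ x in a..b, -(P2 x / (P1 x) ^ 2) :=
        intervalIntegral.integral_nonneg hab fun x hx =>
          neg_nonneg.mpr (div_nonpos_of_nonpos_of_nonneg (h x hx) (by positivity))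
      rw [e2]
      rw [intervalIntegral.integral_neg] at e3 ⊢
      rw [abs_of_nonpos (by linarith)]
  have ha := left_mem_Icc.mpr hab
  have hb := right_mem_Icc.mpr hab
  calc ‖u b * v b - u a * v a - ∫ x in a..b, u' x * v x‖ ≤
      ‖u b * v b‖ + ‖u a * v a‖ + ‖∫ x in a..b, u' x * v x‖ :=
        (norm_sub_le _ _).trans (add_le_add_left (norm_sub_le _ _) _)
    _ ≤ 1 / μ + 1 / μ + 1 / μ := by
        rw [norm_mul, norm_mul, nv, nv, mul_one, mul_one]
        exact add_le_add (add_le_add (nu b hb) (nu a ha)) hint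
    _ = 3 / μ := by ring

/-- the zone -/
def Zn (e1 e2 : Poly) : Set (ℝ × ℝ) := {z | 0 ≤ ev e1 z ∧ 0 < ev e2 z}

/-- the closed zone -/
def Zc (e1 e2 : Poly) : Set (ℝ × ℝ) := {z | 0 ≤ ev e1 z ∧ 0 ≤ ev e2 z}

lemma Zn_sub (e1 e2 : Poly) : Zn e1 e2 ⊆ Zc e1 e2 := fun _ hz => ⟨hz.1, hz.2.le⟩

lemma Zn_meas (e1 e2 : Poly) : MeasurableSet (Zn e1 e2) :=
  (isClosed_le continuous_const (ev_cont _)).measurableSet.inter
    (isOpen_lt continuous_const (ev_cont _)).measurableSet

/-- the region where the smallest singular value of the Hessian is between `s` and `s'` -/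
def RegR (s s' : ℝ) (N T : Poly) : Set (ℝ × ℝ) := BBR s N T \ BBR s' N T

/-- the derivative in `x` dominates -/
def HFR (b : Bool) (N T : Poly) : Set (ℝ × ℝ) :=
  {z | if b then 0 < ev (n1 N T - n2 N T) z * ev (n1 N T + n2 N T) z else
    0 ≤ ev (n1 N T - n2 N T) z * ev (n1 N T + n2 N T) z}

lemma HFR_abs (b : Bool) (N T : Poly) (z : ℝ × ℝ) (hz : z ∈ HFR b N T) :
    |ev (n2 N T) z| ≤ |ev (n1 N T) z| := by
  have h : 0 ≤ ev (n1 N T - n2 N T) z * ev (n1 N T + n2 N T) z := by
    unfold HFR at hz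
    simp only [mem_ofPred_eq] at hz
    split_ifs at hz
    · exact hz.le
    · exact hz
  rw [ev_sub, ev_add] at h
  apply sq_le_sq.mp
  nlinarith

lemma RegR_meas (s s' : ℝ) (N T : Poly) : MeasurableSet (RegR s s' N T) :=
  (BBR_open _ _ _).measurableSet.diff (BBR_open _ _ _).measurableSet

lemma HFR_meas (b : Bool) (N T : Poly) : MeasurableSet (HFR b N T) := by
  unfold HFR
  cases b
  · simp only [Bool.false_eq_true, if_false]
    exact (isClosed_le continuous_const ((ev_cont _).mul (ev_cont _))).measurableSet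
  · simp only [if_true]
    exact (isOpen_lt continuous_const ((ev_cont _).mul (ev_cont _))).measurableSet

/-- a dichotomy on an interval -/
def CM (S : Set (ℝ × ℝ)) (y u v : ℝ) : Prop :=
  (∀ x ∈ Ioo u v, (x, y) ∈ S) ∨ (∀ x ∈ Ioo u v, (x, y) ∉ S)

lemma CM.inter {S S' : Set (ℝ × ℝ)} {y u v : ℝ} (h : CM S y u v) (h' : CM S' y u v) :
    CM (S ∩ S') y u v := by
  rcases h with h | h
  · rcases h' with h' | h'
    · exact Or.inl fun x hx => ⟨h x hx, h' x hx⟩
    · exact Or.inr fun x hx hm => h' x hx hm.2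
  · exact Or.inr fun x hx hm => h x hx hm.1

lemma CM.compl {S : Set (ℝ × ℝ)} {y u v : ℝ} (h : CM S y u v) : CM Sᶜ y u v := by
  rcases h with h | h
  · exact Or.inr fun x hx hm => hm (h x hx)
  · exact Or.inl fun x hx => h x hx

lemma CM_pos {p : Poly} {y u v : ℝ} (h : CS (fun x => ev p (x, y)) u v) :
    CM {z | 0 < ev p z} y u v := by
  rcases h with h | h | h
  · exact Or.inl h
  · right
    intro x hx hm
    have h1 := h x hx
    simp only [mem_ofPred_eq] at hm h1
    linarith
  · right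
    intro x hx hm
    have h1 := h x hx
    simp only [mem_ofPred_eq] at hm h1
    linarith

lemma CM_nonneg {p : Poly} {y u v : ℝ} (h : CS (fun x => ev p (x, y)) u v) :
    CM {z | 0 ≤ ev p z} y u v := by
  rcases h with h | h | h
  · exact Or.inl fun x hx => (h x hx).le
  · exact Or.inl fun x hx => (h x hx).ge
  · right
    intro x hx hm
    have h1 := h x hx
    simp only [mem_ofPred_eq] at hm h1
    linarith

lemma CM_HF (b : Bool) {N T : Poly} {y u v : ℝ}
    (h5 : CS (fun x => ev (n1 N T - n2 N T) (x, y)) u v)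
    (h6 : CS (fun x => ev (n1 N T + n2 N T) (x, y)) u v) : CM (HFR b N T) y u v := by
  unfold CM HFR
  cases b
  · simp only [Bool.false_eq_true, if_false, mem_ofPred_eq, not_le]
    rcases h5 with h5 | h5 | h5 <;> rcases h6 with h6 | h6 | h6
    · left; intro x hx; exact (mul_pos (h5 x hx) (h6 x hx)).le
    · left; intro x hx; simp only [h6 x hx, mul_zero, le_refl]
    · right; intro x hx; exact mul_neg_of_pos_of_neg (h5 x hx) (h6 x hx)
    · left; intro x hx; simp only [h5 x hx, zero_mul, le_refl]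
    · left; intro x hx; simp only [h5 x hx, zero_mul, le_refl]
    · left; intro x hx; simp only [h5 x hx, zero_mul, le_refl]
    · right; intro x hx; exact mul_neg_of_neg_of_pos (h5 x hx) (h6 x hx)
    · left; intro x hx; simp only [h6 x hx, mul_zero, le_refl]
    · left; intro x hx; exact (mul_pos_of_neg_of_neg (h5 x hx) (h6 x hx)).le
  · simp only [if_true, mem_ofPred_eq, not_lt]
    rcases h5 with h5 | h5 | h5 <;> rcases h6 with h6 | h6 | h6
    · left; intro x hx; exact mul_pos (h5 x hx) (h6 x hx)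
    · right; intro x hx; simp only [h6 x hx, mul_zero, le_refl]
    · right; intro x hx; exact (mul_neg_of_pos_of_neg (h5 x hx) (h6 x hx)).le
    · right; intro x hx; simp only [h5 x hx, zero_mul, le_refl]
    · right; intro x hx; simp only [h5 x hx, zero_mul, le_refl]
    · right; intro x hx; simp only [h5 x hx, zero_mul, le_refl]
    · right; intro x hx; exact (mul_neg_of_neg_of_pos (h5 x hx) (h6 x hx)).le
    · right; intro x hx; simp only [h6 x hx, mul_zero, le_refl]
    · left; intro x hx; exact mul_pos_of_neg_of_neg (h5 x hx) (h6 x hx)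

/-- membership is constant between cut points -/
lemma const_memR (s s' : ℝ) (b : Bool) (N T e1 e2 : Poly) (y u v : ℝ)
    (h : ∀ p ∈ [mtR s N T, mdR s N T, mtR s' N T, mdR s' N T, n1 N T - n2 N T, n1 N T + n2 N T,
      e1, e2], CS (fun x => ev p (x, y)) u v) :
    CM ((RegR s s' N T ∩ HFR b N T) ∩ Zn e1 e2) y u v := by
  apply CM.inter
  · apply CM.inter
    · unfold RegR
      rw [Set.sdiff_eq]
      apply CM.inter
      · exact (CM_pos (h _ (by simp))).inter (CM_pos (h _ (by simp)))
      · exact ((CM_pos (h _ (by simp))).inter (CM_pos (h _ (by simp)))).compl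
    · exact CM_HF b (h _ (by simp)) (h _ (by simp))
  · exact (CM_nonneg (h _ (by simp))).inter (CM_pos (h _ (by simp)))

end Pool.Agent.Helper35.CP
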