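import Pool.Agent.Helper35.CP.C
set_option autoImplicit false

/-! The estimate on lines and the sup bound for quotients of polynomials. -/

namespace Pool.Agent.Helper35.CP

open MeasureTheory Set Filter Topology Complex
open scoped ENNReal NNReal
open Pool.Agent.Y183.PP

/-- the exponential of the quotient, continued to the whole plane -/
noncomputable def exR (N T : Poly) (A : ℝ) (z : ℝ × ℝ) : ℂ :=
  cexp (((ev N z / max (ev T z) (A / 2) : ℝ) : ℂ) * I)

lemma exR_norm (N T : Poly) (A : ℝ) (z : ℝ × ℝ) : ‖exR N T A z‖ = 1 :=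
  Complex.norm_exp_ofReal_mul_I _

lemma exR_cont (N T : Poly) {A : ℝ} (hA : 0 < A) : Continuous (exR N T A) := by
  unfold exR
  apply Complex.continuous_exp.comp
  apply Continuous.mul _ continuous_const
  apply continuous_ofReal.comp
  apply (ev_cont N).div ((ev_cont T).max continuous_const)
  intro z
  have : A / 2 ≤ max (ev T z) (A / 2) := le_max_right _ _
  linarith

lemma exR_eq (N T : Poly) {A : ℝ} (hA : 0 < A) (z : ℝ × ℝ) (hz : A ≤ ev T z) :
    exR N T A z = cexp (((ev N z / ev T z : ℝ) : ℂ) * I) := by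
  unfold exR
  rw [max_eq_left (by linarith)]

lemma der1 (N T : Poly) {A : ℝ} (hA : 0 < A) (x y : ℝ) (hx : A ≤ ev T (x, y)) :
    HasDerivAt (fun x => ev N (x, y) / max (ev T (x, y)) (A / 2))
      (ev (n1 N T) (x, y) / ev T (x, y) ^ 2) x := by
  have hT0 : ev T (x, y) ≠ 0 := by linarith
  have h1 := (ev_deriv1 N x y).div (ev_deriv1 T x y) hT0
  have e : (ev (MvPolynomial.pderiv 0 N) (x, y) * ev T (x, y) -
      ev N (x, y) * ev (MvPolynomial.pderiv 0 T) (x, y)) / ev T (x, y) ^ 2 =
      ev (n1 N T) (x, y) / ev T (x, y) ^ 2 := by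
    unfold n1
    rw [ev_sub, ev_mul, ev_mul]
  rw [e] at h1
  apply h1.congr_of_eventuallyEq
  have hc : Continuous fun x => ev T (x, y) := (ev_cont T).comp (by fun_prop)
  have hop : IsOpen {x | A / 2 < ev T (x, y)} := isOpen_lt continuous_const hc
  filter_upwards [hop.mem_nhds (show A / 2 < ev T (x, y) by linarith)] with w hw
  simp only [Pi.div_apply]
  rw [max_eq_left (le_of_lt hw)]

lemma der2 (N T : Poly) (x y : ℝ) (hx : ev T (x, y) ≠ 0) :
    HasDerivAt (fun x => ev (n1 N T) (x, y) / ev T (x, y) ^ 2)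
      (ev (n11 N T) (x, y) / ev T (x, y) ^ 3) x := by
  have h1 := (ev_deriv1 (n1 N T) x y).div ((ev_deriv1 T x y).pow 2) (pow_ne_zero 2 hx)
  have e : ev (n11 N T) (x, y) / ev T (x, y) ^ 3 =
      (ev (MvPolynomial.pderiv 0 (n1 N T)) (x, y) * ev T (x, y) ^ 2 -
        ev (n1 N T) (x, y) * ((2 : ℕ) * ev T (x, y) ^ (2 - 1) *
          ev (MvPolynomial.pderiv 0 T) (x, y))) / (ev T (x, y) ^ 2) ^ 2 := by
    unfold n11
    rw [ev_sub, ev_mul, ev_mul, ev_mul, ev_C]
    field_simp
    push_cast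
    ring
  rw [e]
  exact h1

/-- the amplitude on horizontal lines -/
def AmpV (e1 e2 : Poly) (M : ℕ) (V : ℝ) (g : ℝ × ℝ → ℂ) : Prop :=
  ∀ y : ℝ, ∃ Z : Finset ℝ, Z.card ≤ M ∧ ∀ u v : ℝ, u < v → (∀ z ∈ Z, z ∉ Ioo u v) →
    (∀ x ∈ Icc u v, (x, y) ∈ Zc e1 e2) → (∀ x ∈ Icc u v, ‖g (x, y)‖ ≤ V) ∧
      eVariationOn (fun x => g (x, y)) (Icc u v) ≤ ENNReal.ofReal V

section

variable {K M : ℕ} {N T e1 e2 : Poly} (hN : N.totalDegree ≤ K) (hT : T.totalDegree ≤ K)
  (he1 : e1.totalDegree ≤ K) (he2 : e2.totalDegree ≤ K) {A : ℝ} (hA : 0 < A)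
  (hTA : ∀ z ∈ Zc e1 e2, A ≤ ev T z)
include hN hT he1 he2 hA hTA

/-- **the estimate on a line** -/
lemma line_estR (s s' lam : ℝ) (hl : 0 < lam)
    (b : Bool) (g : ℝ × ℝ → ℂ) (hg : Measurable g) (V : ℝ) (hV : 0 ≤ V)
    (hgB : ∀ z ∈ Zn e1 e2, ‖g z‖ ≤ V) (hvar : AmpV e1 e2 M V g) (y : ℝ) (hy : y ∉ PexcR s lam N T) :
    ‖∫ x in (-1 : ℝ)..1, ((RegR s s' N T ∩ HFR b N T) ∩ Zn e1 e2).indicator
      (fun z => g z * exR N T A z) (x, y)‖ ≤ (45 * K + M + 1) * ((3 / lam) * (2 * V)) := by
  set R := (RegR s s' N T ∩ HFR b N T) ∩ Zn e1 e2 with hR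
  have hRm : MeasurableSet R := ((RegR_meas s s' N T).inter (HFR_meas b N T)).inter (Zn_meas e1 e2)
  obtain ⟨Z0, hZ0c, hZ0⟩ := cuts ![mtR s N T, mdR s N T, mtR s' N T, mdR s' N T, n1 N T - n2 N T,
    n1 N T + n2 N T, e1, e2, n11 N T]
    (45 * K) (by
      have h1 := deg_mtR hN hT s
      have h2 := deg_mdR hN hT s
      have h3 := deg_mtR hN hT s'
      have h4 := deg_mdR hN hT s'
      have h5 := deg_sub (deg_n1 hN hT) (deg_n2 hN hT)
      have h6 := deg_add (deg_n1 hN hT) (deg_n2 hN hT)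
      have h7 := deg_n11 hN hT
      simp only [Fin.sum_univ_succ, Matrix.cons_val_zero, Matrix.cons_val_succ,
        Finset.univ_eq_empty, Finset.sum_empty, add_zero]
      omega) y
  obtain ⟨Z1, hZ1c, hZ1⟩ := hvar y
  classical
  have hmeas : Measurable fun x : ℝ => R.indicator (fun z => g z * exR N T A z) (x, y) := by
    have h1 : Measurable (R.indicator (fun z : ℝ × ℝ => g z * exR N T A z)) :=
      (hg.mul (exR_cont N T hA).measurable).indicator hRm
    exact h1.comp (by fun_prop)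
  have hbd : ∀ z : ℝ × ℝ, ‖R.indicator (fun z => g z * exR N T A z) z‖ ≤ V := by
    intro z
    by_cases h : z ∈ R
    · rw [indicator_of_mem h, norm_mul, exR_norm, mul_one]
      exact hgB _ h.2
    · rw [indicator_of_notMem h, norm_zero]
      exact hV
  have hint : ∀ c d : ℝ, IntervalIntegrable
      (fun x : ℝ => R.indicator (fun z => g z * exR N T A z) (x, y)) volume c d := by
    intro c d
    rw [intervalIntegrable_iff]
    exact Measure.integrableOn_of_bounded (M := V) (by simp) hmeas.aestronglyMeasurable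
      (ae_of_all _ fun x => hbd _)
  have key := gaps (fun x : ℝ => R.indicator (fun z => g z * exR N T A z) (x, y))
    ((3 / lam) * (2 * V)) (by positivity) (45 * K + M) (Z0 ∪ Z1)
    ((Finset.card_union_le _ _).trans (add_le_add hZ0c hZ1c)) (-1) 1 (by norm_num) (hint _ _) ?_
  · simpa using key
  intro u v hu huv hv hZu
  rcases eq_or_lt_of_le huv with heq | hlt
  · rw [heq, intervalIntegral.integral_same, norm_zero]
    positivity
  have hcs := hZ0 u v fun z hz => hZu z (Finset.mem_union_left _ hz)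
  have hconst := const_memR s s' b N T e1 e2 y u v (by
    intro p hp
    simp only [List.mem_cons, List.not_mem_nil, or_false] at hp
    rcases hp with rfl | rfl | rfl | rfl | rfl | rfl | rfl | rfl
    · exact hcs 0
    · exact hcs 1
    · exact hcs 2
    · exact hcs 3
    · exact hcs 4
    · exact hcs 5
    · exact hcs 6
    · exact hcs 7)
  have hn11 : CS (fun x => ev (n11 N T) (x, y)) u v := hcs 8
  rw [← hR] at hconst
  rcases hconst with hin | hout
  swap
  · have e : ∫ x in u..v, R.indicator (fun z => g z * exR N T A z) (x, y) = 0 := by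
      rw [intervalIntegral.integral_of_le huv, integral_Ioc_eq_integral_Ioo]
      rw [setIntegral_congr_fun (g := fun _ => (0 : ℂ)) measurableSet_Ioo]
      · simp
      · intro x hx
        exact indicator_of_notMem (hout x hx) _
    rw [e, norm_zero]
    positivity
  have e : ∫ x in u..v, R.indicator (fun z => g z * exR N T A z) (x, y) =
      ∫ x in u..v, g (x, y) * exR N T A (x, y) := by
    rw [intervalIntegral.integral_of_le huv, integral_Ioc_eq_integral_Ioo,
      intervalIntegral.integral_of_le huv, integral_Ioc_eq_integral_Ioo]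
    apply setIntegral_congr_fun measurableSet_Ioo
    intro x hx
    exact indicator_of_mem (hin x hx) _
  rw [e]
  have hcl : ∀ p : Poly, Continuous fun x : ℝ => ev p (x, y) := fun p =>
    (ev_cont p).comp (by fun_prop)
  -- the closed zone
  have hzc : ∀ x ∈ Icc u v, (x, y) ∈ Zc e1 e2 := by
    intro x hx
    constructor
    · have := closed_ext hlt {x | 0 ≤ ev e1 (x, y)} (isClosed_le continuous_const (hcl _))
        (fun x hx => (hin x hx).2.1)
      exact this hx
    · have := closed_ext hlt {x | 0 ≤ ev e2 (x, y)} (isClosed_le continuous_const (hcl _))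
        (fun x hx => (hin x hx).2.2.le)
      exact this hx
  have hTx : ∀ x ∈ Icc u v, A ≤ ev T (x, y) := fun x hx => hTA _ (hzc x hx)
  -- lower bound of the derivative
  have hlow0 : ∀ x ∈ Icc u v, lam * ev T (x, y) ^ 2 ≤ |ev (n1 N T) (x, y)| := by
    apply closed_ext hlt {x | lam * ev T (x, y) ^ 2 ≤ |ev (n1 N T) (x, y)|}
      (isClosed_le (continuous_const.mul ((hcl _).pow 2)) (hcl _).abs)
    intro x hx
    have hm := hin x hx
    by_contra hc
    simp only [mem_ofPred_eq, not_le] at hc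
    apply hy
    refine ⟨x, ?_, ?_, hc, lt_of_le_of_lt (HFR_abs b N T _ hm.1.2) hc, hm.1.1.1⟩
    · rw [abs_lt]
      constructor
      · linarith [hx.1]
      · linarith [hx.2]
    · linarith [hTx x ⟨hx.1.le, hx.2.le⟩]
  have hlow : ∀ x ∈ Icc u v, lam ≤ |ev (n1 N T) (x, y) / ev T (x, y) ^ 2| := by
    intro x hx
    have h1 := hlow0 x hx
    have h2 : 0 < ev T (x, y) ^ 2 := by
      have := hTx x hx
      have : 0 < ev T (x, y) := by linarith
      positivity
    rw [abs_div, abs_of_pos h2, le_div_iff₀ h2]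
    exact h1
  -- sign of the second derivative
  have hsg : (∀ x ∈ Icc u v, 0 ≤ ev (n11 N T) (x, y) / ev T (x, y) ^ 3) ∨
      (∀ x ∈ Icc u v, ev (n11 N T) (x, y) / ev T (x, y) ^ 3 ≤ 0) := by
    have hT3 : ∀ x ∈ Icc u v, 0 ≤ ev T (x, y) ^ 3 := by
      intro x hx
      have := hTx x hx
      have : 0 < ev T (x, y) := by linarith
      positivity
    have h0 : (∀ x ∈ Icc u v, 0 ≤ ev (n11 N T) (x, y)) ∨
        (∀ x ∈ Icc u v, ev (n11 N T) (x, y) ≤ 0) := by
      rcases hn11 with h | h | h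
      · left
        exact closed_ext hlt {x | 0 ≤ ev (n11 N T) (x, y)} (isClosed_le continuous_const (hcl _))
          fun x hx => (h x hx).le
      · left
        exact closed_ext hlt {x | 0 ≤ ev (n11 N T) (x, y)} (isClosed_le continuous_const (hcl _))
          fun x hx => (h x hx).ge
      · right
        exact closed_ext hlt {x | ev (n11 N T) (x, y) ≤ 0} (isClosed_le (hcl _) continuous_const)
          fun x hx => (h x hx).le
    rcases h0 with h | h
    · exact Or.inl fun x hx => div_nonneg (h x hx) (hT3 x hx)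
    · exact Or.inr fun x hx => div_nonpos_of_nonpos_of_nonneg (h x hx) (hT3 x hx)
  have hamp := hZ1 u v hlt (fun z hz => hZu z (Finset.mem_union_right _ hz)) hzc
  have hbv := bv_amp (fun x => g (x, y)) (fun x => exR N T A (x, y)) (hg.comp (by fun_prop))
    ((exR_cont N T hA).comp (by fun_prop))
    (fun x => (exR_norm N T A _).le) u v huv (3 / lam) V V (by positivity) hV hamp.1 hamp.2 (by
      intro x hx
      apply vdcL (fun x => ev N (x, y) / max (ev T (x, y)) (A / 2))
        (fun x => ev (n1 N T) (x, y) / ev T (x, y) ^ 2)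
        (fun x => ev (n11 N T) (x, y) / ev T (x, y) ^ 3) u x hx.1
      · intro t ht
        exact der1 N T hA t y (hTx t ⟨ht.1, ht.2.trans hx.2⟩)
      · intro t ht
        apply der2 N T t y
        have := hTx t ⟨ht.1, ht.2.trans hx.2⟩
        linarith
      · apply ContinuousOn.div (hcl _).continuousOn ((hcl _).pow 3).continuousOn
        intro t ht
        have := hTx t ⟨ht.1, ht.2.trans hx.2⟩
        exact pow_ne_zero 3 (by linarith)
      · exact hl
      · intro t ht
        exact hlow t ⟨ht.1, ht.2.trans hx.2⟩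
      · rcases hsg with h | h
        · left; intro t ht; exact h t ⟨ht.1, ht.2.trans hx.2⟩
        · right; intro t ht; exact h t ⟨ht.1, ht.2.trans hx.2⟩)
  rw [two_mul]
  exact hbv

end

/-- the constant -/
noncomputable def c2R (K M : ℕ) : ℝ :=
  2 * c1R K + 12 * (45 * K + M + 1) * c1R K + 12 * (45 * K + M + 1)

lemma c2R_nonneg (K M : ℕ) : 0 ≤ c2R K M := by
  have := c1R_nonneg K
  unfold c2R
  positivity

section

variable {K M : ℕ} {N T e1 e2 : Poly} (hN : N.totalDegree ≤ K) (hT : T.totalDegree ≤ K)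
  (he1 : e1.totalDegree ≤ K) (he2 : e2.totalDegree ≤ K) {A : ℝ} (hA : 0 < A)
  (hTA : ∀ z ∈ Zc e1 e2, A ≤ ev T z)
include hN hT he1 he2 hA hTA

/-- **half of the sup bound** -/
lemma halfR (j : ℕ) (s' : ℝ)
    (b : Bool) (g : ℝ × ℝ → ℂ) (hg : Measurable g) (V : ℝ) (hV : 0 ≤ V)
    (hgB : ∀ z ∈ Zn e1 e2, ‖g z‖ ≤ V) (hvar : AmpV e1 e2 M V g) :
    ‖∫ z in SQ, ((RegR (2 ^ j) s' N T ∩ HFR b N T) ∩ Zn e1 e2).indicator
      (fun z => g z * exR N T A z) z‖ₑ ≤ ENNReal.ofReal (c2R K M * V * (1 + j) / 2 ^ j) := by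
  set s : ℝ := 2 ^ j with hs
  have hs0 : 0 < s := by rw [hs]; positivity
  set R := (RegR s s' N T ∩ HFR b N T) ∩ Zn e1 e2 with hR
  have hRm : MeasurableSet R := ((RegR_meas s s' N T).inter (HFR_meas b N T)).inter (Zn_meas e1 e2)
  set F : ℝ × ℝ → ℂ := R.indicator (fun z => g z * exR N T A z) with hF
  have hFm : Measurable F := (hg.mul (exR_cont N T hA).measurable).indicator hRm
  have hFb : ∀ z, ‖F z‖ ≤ V := by
    intro z
    by_cases h : z ∈ R
    · simp only [hF]
      rw [indicator_of_mem h, norm_mul, exR_norm, mul_one]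
      exact hgB _ h.2
    · simp only [hF]
      rw [indicator_of_notMem h, norm_zero]
      exact hV
  have hvolIcc : (volume : Measure ℝ).restrict (Icc (-1) 1) univ = 2 := by
    rw [Measure.restrict_apply_univ, Real.volume_Icc]
    norm_num
  have hres : (volume : Measure (ℝ × ℝ)).restrict SQ =
      (volume.restrict (Icc (-1 : ℝ) 1)).prod (volume.restrict (Icc (-1 : ℝ) 1)) := by
    rw [Measure.prod_restrict, ← Measure.volume_eq_prod]
    rfl
  have hFi : Integrable F ((volume.restrict (Icc (-1 : ℝ) 1)).prod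
      (volume.restrict (Icc (-1 : ℝ) 1))) :=
    Integrable.of_bound hFm.aestronglyMeasurable V (ae_of_all _ hFb)
  rw [hres, integral_prod_symm _ hFi]
  refine (enorm_integral_le_lintegral_enorm _).trans ?_
  set L : ℝ := (45 * K + M + 1) * (3 * (2 * V)) with hL
  have hL0 : 0 ≤ L := by rw [hL]; positivity
  classical
  have hpt : ∀ y : ℝ, ‖∫ x in Icc (-1 : ℝ) 1, F (x, y)‖ₑ ≤
      (if y ∈ PexcR s (2 ^ 0) N T then ENNReal.ofReal (2 * V) else 0) +
      ∑ k ∈ Finset.range j, (if y ∈ PexcR s (2 ^ (k + 1)) N T then ENNReal.ofReal (L / 2 ^ k) else 0) +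
      ENNReal.ofReal (L / 2 ^ j) := by
    intro y
    refine tele _ _ (fun k => ENNReal.ofReal (L / 2 ^ k)) (fun k => y ∈ PexcR s (2 ^ k) N T) ?_ ?_ j
    · have h1 : ‖∫ x in Icc (-1 : ℝ) 1, F (x, y)‖ ≤ V * (volume.restrict (Icc (-1 : ℝ) 1)).real univ :=
        norm_integral_le_of_norm_le_const (ae_of_all _ fun x => hFb (x, y))
      rw [← ofReal_norm]
      apply ENNReal.ofReal_le_ofReal
      refine h1.trans (le_of_eq ?_)
      rw [Measure.real, hvolIcc]
      simp
      ring
    · intro k hk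
      have h1 := line_estR hN hT he1 he2 hA hTA s s' (2 ^ k) (by positivity) b g
        hg V hV hgB hvar y hk
      rw [← ofReal_norm]
      apply ENNReal.ofReal_le_ofReal
      have e1 : ∫ x in Icc (-1 : ℝ) 1, F (x, y) = ∫ x in (-1 : ℝ)..1, F (x, y) := by
        rw [intervalIntegral.integral_of_le (by norm_num), integral_Icc_eq_integral_Ioc]
      rw [e1]
      refine h1.trans (le_of_eq ?_)
      rw [hL]
      ring
  refine (lintegral_mono hpt).trans ?_
  have hme : ∀ k : ℕ, ∀ c : ℝ≥0∞, Measurable fun y => if y ∈ PexcR s (2 ^ k) N T then c else 0 :=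
    fun k c => Measurable.ite (PexcR_open s _ (by positivity) N T).measurableSet measurable_const
      measurable_const
  have hin : ∀ k : ℕ, ∀ c : ℝ, 0 ≤ c → ∫⁻ y in Icc (-1 : ℝ) 1,
      (if y ∈ PexcR s (2 ^ k) N T then ENNReal.ofReal c else 0) ≤
      ENNReal.ofReal (c * (c1R K * 2 ^ k / s)) := by
    intro k c hc
    have e1 : (fun y => if y ∈ PexcR s (2 ^ k) N T then ENNReal.ofReal c else 0) =
        (PexcR s (2 ^ k) N T).indicator fun _ => ENNReal.ofReal c := by
      ext y
      rw [indicator_apply]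
    rw [e1]
    calc ∫⁻ y in Icc (-1 : ℝ) 1, (PexcR s (2 ^ k) N T).indicator (fun _ => ENNReal.ofReal c) y ≤
        ∫⁻ y, (PexcR s (2 ^ k) N T).indicator (fun _ => ENNReal.ofReal c) y :=
          lintegral_mono' Measure.restrict_le_self le_rfl
      _ = ENNReal.ofReal c * volume (PexcR s (2 ^ k) N T) :=
          lintegral_indicator_const (PexcR_open s _ (by positivity) N T).measurableSet _
      _ ≤ ENNReal.ofReal c * ENNReal.ofReal (c1R K * 2 ^ k / s) := by
          gcongr
          exact PexcR_vol hN hT s (2 ^ k) hs0 (by positivity)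
      _ = _ := by rw [← ENNReal.ofReal_mul hc]
  rw [lintegral_add_right _ measurable_const, lintegral_add_left (hme 0 _),
    lintegral_finsetSum _ (fun k _ => hme (k + 1) _)]
  have i0 := hin 0 (2 * V) (by positivity)
  have ik : ∑ k ∈ Finset.range j, ∫⁻ y in Icc (-1 : ℝ) 1,
      (if y ∈ PexcR s (2 ^ (k + 1)) N T then ENNReal.ofReal (L / 2 ^ k) else 0) ≤
      ENNReal.ofReal (j * (2 * L * c1R K / s)) := by
    refine (Finset.sum_le_sum fun k _ => hin (k + 1) (L / 2 ^ k) (by positivity)).trans ?_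
    have e1 : ∀ k ∈ Finset.range j, ENNReal.ofReal (L / 2 ^ k * (c1R K * 2 ^ (k + 1) / s)) =
        ENNReal.ofReal (2 * L * c1R K / s) := by
      intro k _
      congr 1
      rw [pow_succ]
      field_simp
    rw [Finset.sum_congr rfl e1, Finset.sum_const, Finset.card_range, nsmul_eq_mul,
      ← ENNReal.ofReal_natCast, ← ENNReal.ofReal_mul (by positivity)]
  have il : ∫⁻ _y in Icc (-1 : ℝ) 1, ENNReal.ofReal (L / 2 ^ j) = ENNReal.ofReal (2 * L / s) := by
    rw [lintegral_const, hvolIcc, show (2 : ℝ≥0∞) = ENNReal.ofReal 2 by norm_num,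
      ← ENNReal.ofReal_mul (by positivity)]
    congr 1
    rw [hs]
    ring
  rw [il]
  refine (add_le_add (add_le_add i0 ik) le_rfl).trans ?_
  have hc1 := c1R_nonneg K
  rw [← ENNReal.ofReal_add (by positivity) (by positivity), ← ENNReal.ofReal_add (by positivity)
    (by positivity)]
  apply ENNReal.ofReal_le_ofReal
  have e2 : 2 * V * (c1R K * 2 ^ 0 / s) + j * (2 * L * c1R K / s) + 2 * L / s =
      (2 * V * c1R K + j * (2 * L * c1R K) + 2 * L) / s := by
    rw [pow_zero]
    ring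
  rw [e2]
  gcongr
  rw [hL]
  unfold c2R
  have hj : (0 : ℝ) ≤ j := Nat.cast_nonneg j
  have hD : (0 : ℝ) ≤ K := Nat.cast_nonneg K
  have hM : (0 : ℝ) ≤ M := Nat.cast_nonneg M
  have t1 : 0 ≤ 2 * c1R K * V * j := by positivity
  have t2 : 0 ≤ 12 * (45 * K + M + 1) * c1R K * V := by positivity
  have t3 : 0 ≤ 12 * (45 * K + M + 1) * V * j := by positivity
  nlinarith

end

/-- exchange of the variables -/
lemma n1_sw (N T : Poly) : n1 (sw N) (sw T) = sw (n2 N T) := by
  unfold n1 n2
  rw [pd0_sw, pd0_sw]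
  simp only [sw, map_sub, map_mul]

lemma n2_sw (N T : Poly) : n2 (sw N) (sw T) = sw (n1 N T) := by
  unfold n1 n2
  rw [pd1_sw, pd1_sw]
  simp only [sw, map_sub, map_mul]

lemma C_sw (c : ℝ) : sw (MvPolynomial.C c) = MvPolynomial.C c := by
  simp only [sw, MvPolynomial.rename_C]

lemma n11_sw (N T : Poly) : n11 (sw N) (sw T) = sw (n22 N T) := by
  unfold n11 n22
  rw [n1_sw, pd0_sw, pd0_sw]
  simp only [sw, map_sub, map_mul, MvPolynomial.rename_C]

lemma n22_sw (N T : Poly) : n22 (sw N) (sw T) = sw (n11 N T) := by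
  unfold n11 n22
  rw [n2_sw, pd1_sw, pd1_sw]
  simp only [sw, map_sub, map_mul, MvPolynomial.rename_C]

lemma n12_sw (N T : Poly) : n12 (sw N) (sw T) = sw (n12 N T) := by
  rw [← n21 (sw N) (sw T), n2_sw, pd0_sw, pd0_sw]
  unfold n12
  simp only [sw, map_sub, map_mul, MvPolynomial.rename_C]

lemma mem_BBR_sw (s : ℝ) (N T : Poly) (z : ℝ × ℝ) : z ∈ BBR s (sw N) (sw T) ↔ z.swap ∈ BBR s N T := by
  unfold BBR
  simp only [mem_ofPred_eq, ev_mtR, ev_mdR, n11_sw, n22_sw, n12_sw, ev_sw]
  have e1 : ev (n22 N T) z.swap ^ 2 + 2 * ev (n12 N T) z.swap ^ 2 + ev (n11 N T) z.swap ^ 2 =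
    ev (n11 N T) z.swap ^ 2 + 2 * ev (n12 N T) z.swap ^ 2 + ev (n22 N T) z.swap ^ 2 := by ring
  have e2 : (ev (n22 N T) z.swap ^ 2 + ev (n12 N T) z.swap ^ 2 - s ^ 2 * ev T z.swap ^ 6) *
      (ev (n12 N T) z.swap ^ 2 + ev (n11 N T) z.swap ^ 2 - s ^ 2 * ev T z.swap ^ 6) -
      ev (n12 N T) z.swap ^ 2 * (ev (n22 N T) z.swap + ev (n11 N T) z.swap) ^ 2 =
      (ev (n11 N T) z.swap ^ 2 + ev (n12 N T) z.swap ^ 2 - s ^ 2 * ev T z.swap ^ 6) *
      (ev (n12 N T) z.swap ^ 2 + ev (n22 N T) z.swap ^ 2 - s ^ 2 * ev T z.swap ^ 6) -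
      ev (n12 N T) z.swap ^ 2 * (ev (n11 N T) z.swap + ev (n22 N T) z.swap) ^ 2 := by ring
  rw [e1, e2]

section

variable {K M : ℕ} {N T e1 e2 : Poly} (hN : N.totalDegree ≤ K) (hT : T.totalDegree ≤ K)
  (he1 : e1.totalDegree ≤ K) (he2 : e2.totalDegree ≤ K) {A : ℝ} (hA : 0 < A)
  (hTA : ∀ z ∈ Zc e1 e2, A ≤ ev T z)
include hN hT he1 he2 hA hTA

/-- **the sup bound** -/
theorem supR (j : ℕ) (s' : ℝ)
    (g : ℝ × ℝ → ℂ) (hg : Measurable g) (V : ℝ) (hV : 0 ≤ V) (hgB : ∀ z ∈ Zn e1 e2, ‖g z‖ ≤ V)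
    (hvar : AmpV e1 e2 M V g) (hvar' : AmpV (sw e1) (sw e2) M V fun z => g z.swap) :
    ‖∫ z in SQ, (RegR (2 ^ j) s' N T ∩ Zn e1 e2).indicator (fun z => g z * exR N T A z) z‖ₑ ≤
      ENNReal.ofReal (2 * (c2R K M * V * (1 + j) / 2 ^ j)) := by
  set R := RegR (2 ^ j) s' N T ∩ Zn e1 e2 with hR
  have hRm : MeasurableSet R := (RegR_meas _ _ N T).inter (Zn_meas e1 e2)
  have h1 := halfR hN hT he1 he2 hA hTA j s' false g hg V hV hgB hvar
  have hTA' : ∀ z ∈ Zc (sw e1) (sw e2), A ≤ ev (sw T) z := by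
    intro z hz
    rw [ev_sw]
    apply hTA
    unfold Zc at hz ⊢
    simp only [mem_ofPred_eq, ev_sw] at hz ⊢
    exact hz
  have h2 := halfR (deg_sw hN) (deg_sw hT) (deg_sw he1) (deg_sw he2) hA hTA' j s' true
    (fun z => g z.swap) (hg.comp measurable_swap) V hV
    (fun z hz => hgB _ (by
      unfold Zn at hz ⊢
      simp only [mem_ofPred_eq, ev_sw] at hz ⊢
      exact hz)) hvar'
  have eR : (RegR (2 ^ j) s' N T ∩ HFR false N T) ∩ Zn e1 e2 = R ∩ HFR false N T := by
    rw [hR]
    ext z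
    simp only [mem_inter_iff]
    tauto
  rw [eR] at h1
  set S2 : Set (ℝ × ℝ) := R \ HFR false N T with hS2
  have hS2m : MeasurableSet S2 := hRm.diff (HFR_meas false N T)
  have hgm : Measurable (fun z => g z * exR N T A z) := hg.mul (exR_cont N T hA).measurable
  have hbd : ∀ (S : Set (ℝ × ℝ)), S ⊆ Zn e1 e2 → ∀ z,
      ‖S.indicator (fun z => g z * exR N T A z) z‖ ≤ V := by
    intro S hS z
    by_cases h : z ∈ S
    · rw [indicator_of_mem h, norm_mul, exR_norm, mul_one]
      exact hgB _ (hS h)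
    · rw [indicator_of_notMem h, norm_zero]
      exact hV
  have hfin : volume SQ ≠ ∞ := by
    unfold SQ
    rw [Measure.volume_eq_prod, Measure.prod_prod, Real.volume_Icc]
    exact ENNReal.mul_ne_top ENNReal.ofReal_ne_top ENNReal.ofReal_ne_top
  have hint : ∀ S : Set (ℝ × ℝ), MeasurableSet S → S ⊆ Zn e1 e2 →
      IntegrableOn (S.indicator (fun z => g z * exR N T A z)) SQ := by
    intro S hS hSZ
    exact Measure.integrableOn_of_bounded (M := V) hfin (hgm.indicator hS).aestronglyMeasurable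
      (ae_of_all _ fun z => hbd S hSZ z)
  have hRZ : R ⊆ Zn e1 e2 := fun z hz => hz.2
  have e1' : ∫ z in SQ, R.indicator (fun z => g z * exR N T A z) z =
      (∫ z in SQ, (R ∩ HFR false N T).indicator (fun z => g z * exR N T A z) z) +
      ∫ z in SQ, S2.indicator (fun z => g z * exR N T A z) z := by
    rw [← integral_add (hint _ (hRm.inter (HFR_meas false N T)) (fun z hz => hRZ hz.1))
      (hint _ hS2m (fun z hz => hRZ hz.1))]
    congr 1
    ext z
    simp only [hS2]
    by_cases hz : z ∈ R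
    · by_cases hz2 : z ∈ HFR false N T
      · rw [indicator_of_mem hz, indicator_of_mem (show z ∈ R ∩ HFR false N T from ⟨hz, hz2⟩),
          indicator_of_notMem (fun h => h.2 hz2), add_zero]
      · rw [indicator_of_mem hz, indicator_of_notMem (fun h => hz2 h.2),
          indicator_of_mem (show z ∈ R \ HFR false N T from ⟨hz, hz2⟩), zero_add]
    · rw [indicator_of_notMem hz, indicator_of_notMem (fun h => hz h.1),
        indicator_of_notMem (fun h => hz h.1), add_zero]
  -- the second part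
  have e2' : ∫ z in SQ, S2.indicator (fun z => g z * exR N T A z) z =
      ∫ z in SQ, ((RegR (2 ^ j) s' (sw N) (sw T) ∩ HFR true (sw N) (sw T)) ∩
        Zn (sw e1) (sw e2)).indicator (fun z => g z.swap * exR (sw N) (sw T) A z) z := by
    have hmp : MeasurePreserving (Prod.swap : ℝ × ℝ → ℝ × ℝ) volume volume :=
      Measure.measurePreserving_swap
    have h3 := hmp.setIntegral_preimage_emb (MeasurableEquiv.prodComm (α := ℝ)
      (β := ℝ)).measurableEmbedding (fun z => S2.indicator (fun z => g z * exR N T A z) z) SQ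
    have hpre : Prod.swap ⁻¹' SQ = SQ := by
      ext z
      unfold SQ
      simp only [mem_preimage, mem_prod, Prod.fst_swap, Prod.snd_swap]
      exact and_comm
    rw [hpre] at h3
    rw [← h3]
    apply setIntegral_congr_fun SQ_meas
    intro z _
    simp only
    have hmem : z.swap ∈ S2 ↔ z ∈ ((RegR (2 ^ j) s' (sw N) (sw T) ∩ HFR true (sw N) (sw T)) ∩
        Zn (sw e1) (sw e2)) := by
      have hHF : z.swap ∉ HFR false N T ↔ z ∈ HFR true (sw N) (sw T) := by
        simp only [HFR, mem_ofPred_eq, n1_sw, n2_sw, ev_sub, ev_add, ev_sw, Bool.false_eq_true,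
          if_false, if_true, not_le]
        constructor
        · intro h5; linarith
        · intro h5; linarith
      simp only [hS2, hR, RegR, Zn, Set.mem_sdiff, mem_inter_iff, mem_BBR_sw, hHF, mem_ofPred_eq,
        ev_sw]
      tauto
    have hexs : exR (sw N) (sw T) A z = exR N T A z.swap := by
      unfold exR
      rw [ev_sw, ev_sw]
    by_cases hz : z.swap ∈ S2
    · rw [indicator_of_mem hz, indicator_of_mem (hmem.mp hz), hexs]
    · rw [indicator_of_notMem hz, indicator_of_notMem (fun h => hz (hmem.mpr h))]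
  rw [e1', e2']
  have hc := c2R_nonneg K M
  calc _ ≤ ENNReal.ofReal (c2R K M * V * (1 + j) / 2 ^ j) +
        ENNReal.ofReal (c2R K M * V * (1 + j) / 2 ^ j) := (enorm_add_le _ _).trans (add_le_add h1 h2)
    _ = _ := by
        rw [← ENNReal.ofReal_add (by positivity) (by positivity)]
        congr 1
        ring

end

end Pool.Agent.Helper35.CP
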