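import Pool.Agent.Helper35.CP.D
set_option autoImplicit false

/-! The amplitude and its variation on lines. -/

namespace Pool.Agent.Helper35.CP

open MeasureTheory Set Filter Topology Complex
open scoped ENNReal NNReal
open Pool.Agent.Y183.PP
open Pool.Agent.Helper35.MP (la la_one la_pos kf kf_norm norm_one_sub)

lemma kf_deriv (s : ℝ) : HasDerivAt kf (kf s * (I / (2 * (1 - I * s)))) s := by
  have hne : (1 : ℂ) - I * s ≠ 0 := by
    intro h
    have := congrArg Complex.re h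
    simp at this
  have hpi : (Real.pi : ℂ) ≠ 0 := by exact_mod_cast Real.pi_ne_zero
  have h1 : HasDerivAt (fun s : ℝ => (1 : ℂ) - I * s) (-I) s := by
    have h2 : HasDerivAt (fun s : ℝ => (s : ℂ)) 1 s := Complex.ofRealCLM.hasDerivAt
    have h3 := (h2.const_mul I).const_sub 1
    simpa using h3
  have h2 : HasDerivAt (fun s : ℝ => (Real.pi : ℂ) / (1 - I * s))
      (Real.pi * I / (1 - I * s) ^ 2) s := by
    have h3 := (hasDerivAt_const s (Real.pi : ℂ)).div h1 hne
    have e : (0 * (1 - I * (s : ℂ)) - Real.pi * -I) / (1 - I * (s : ℂ)) ^ 2 =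
        Real.pi * I / (1 - I * s) ^ 2 := by
      congr 1
      ring
    rw [← e]
    exact h3
  have hsl : (Real.pi : ℂ) / (1 - I * s) ∈ slitPlane := by
    left
    have e : (Real.pi : ℂ) / (1 - I * s) = ((Real.pi / la s : ℝ) : ℂ) * (1 + I * s) := by
      rw [div_eq_iff hne]
      have h3 : ((la s : ℝ) : ℂ) ≠ 0 := by exact_mod_cast (la_pos s).ne'
      push_cast
      field_simp
      unfold la
      push_cast
      ring_nf
      rw [I_sq]
      ring
    rw [e, Complex.re_ofReal_mul]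
    have h4 : ((1 : ℂ) + I * s).re = 1 := by simp
    rw [h4, mul_one]
    exact div_pos Real.pi_pos (la_pos s)
  have h3 := (Complex.hasStrictDerivAt_cpow_const (c := (1 / 2 : ℂ)) hsl).hasDerivAt.comp s h2
  have hb : (Real.pi : ℂ) / (1 - I * s) ≠ 0 := div_ne_zero hpi hne
  have e : (1 / 2 : ℂ) * ((Real.pi : ℂ) / (1 - I * s)) ^ ((1 / 2 : ℂ) - 1) *
      (Real.pi * I / (1 - I * s) ^ 2) = kf s * (I / (2 * (1 - I * s))) := by
    rw [Complex.cpow_sub _ _ hb, Complex.cpow_one]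
    unfold kf
    field_simp
  rw [← e]
  exact h3

lemma kf_cont : Continuous kf := continuous_iff_continuousAt.mpr fun s => (kf_deriv s).continuousAt

/-- the size of the factor -/
lemma kf_le (s L : ℝ) (hL : 0 < L) (h : L ^ 2 ≤ la s) : ‖kf s‖ ≤ 2 * L ^ (-(1 / 2) : ℝ) := by
  rw [kf_norm]
  have h1 : L ≤ Real.sqrt (la s) := Real.le_sqrt_of_sq_le h
  have h2 : Real.pi / Real.sqrt (la s) ≤ 4 * L⁻¹ := by
    rw [← div_eq_mul_inv]
    apply div_le_div₀ (by norm_num) Real.pi_le_four hL h1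
  calc (Real.pi / Real.sqrt (la s)) ^ (1 / 2 : ℝ) ≤ (4 * L⁻¹) ^ (1 / 2 : ℝ) :=
        Real.rpow_le_rpow (by positivity) h2 (by norm_num)
    _ = _ := by
        rw [Real.mul_rpow (by norm_num) (by positivity), Real.rpow_neg hL.le, Real.inv_rpow hL.le]
        congr 1
        have : (4 : ℝ) = 2 ^ (2 : ℝ) := by norm_num
        rw [this, ← Real.rpow_mul (by norm_num)]
        norm_num

/-- the factor is Lipschitz -/
lemma kf_lip (a b L : ℝ) (hL : 0 < L) (h : ∀ s ∈ Icc a b, L ^ 2 ≤ la s) (s s' : ℝ)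
    (hs : s ∈ Icc a b) (hs' : s' ∈ Icc a b) :
    ‖kf s - kf s'‖ ≤ (L ^ (-(1 / 2) : ℝ) * L⁻¹) * |s - s'| := by
  have hb : ∀ x ∈ Icc a b, ‖kf x * (I / (2 * (1 - I * x)))‖ ≤ L ^ (-(1 / 2) : ℝ) * L⁻¹ := by
    intro x hx
    rw [norm_mul, norm_div, norm_mul, norm_one_sub, Complex.norm_I]
    have h1 : L ≤ Real.sqrt (la x) := Real.le_sqrt_of_sq_le (h x hx)
    have h2 := kf_le x L hL (h x hx)
    have h3 : (1 : ℝ) / (‖(2 : ℂ)‖ * Real.sqrt (la x)) ≤ L⁻¹ / 2 := by
      rw [Complex.norm_ofNat, div_le_div_iff₀ (by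
        have := Real.sqrt_pos.mpr (la_pos x)
        positivity) (by norm_num)]
      have h4 : L⁻¹ * Real.sqrt (la x) ≥ 1 := by
        rw [ge_iff_le, ← div_eq_inv_mul, le_div_iff₀ hL, one_mul]
        exact h1
      nlinarith
    calc ‖kf x‖ * (1 / (‖(2 : ℂ)‖ * Real.sqrt (la x))) ≤ (2 * L ^ (-(1 / 2) : ℝ)) * (L⁻¹ / 2) :=
          mul_le_mul h2 h3 (by positivity) (by positivity)
      _ = _ := by ring
  have h3 := (convex_Icc a b).norm_image_sub_le_of_norm_hasDerivWithin_le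
    (f := kf) (f' := fun x => kf x * (I / (2 * (1 - I * x)))) (C := L ^ (-(1 / 2) : ℝ) * L⁻¹)
    (fun x _ => (kf_deriv x).hasDerivWithinAt) hb hs' hs
  rw [Real.norm_eq_abs] at h3
  exact h3

/-- the exponential factor -/
noncomputable def hf (u i : ℝ) : ℂ := cexp ((-u : ℝ) + ((u * i : ℝ) : ℂ) * I)

lemma hf_norm (u i : ℝ) : ‖hf u i‖ = Real.exp (-u) := by
  unfold hf
  rw [Complex.norm_exp, Complex.add_re, Complex.ofReal_re, Complex.re_ofReal_mul, Complex.I_re,
    mul_zero, add_zero]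

lemma hf_diff1 (δ i : ℝ) (hδ : 0 ≤ δ) (hi : |i| ≤ 1) : ‖1 - hf δ i‖ ≤ 2 * (1 - Real.exp (-δ)) := by
  have e : (1 : ℂ) - hf δ i = ((1 - Real.exp (-δ) : ℝ) : ℂ) -
      (Real.exp (-δ) : ℂ) * (cexp (I * ((δ * i : ℝ) : ℂ)) - 1) := by
    unfold hf
    rw [Complex.exp_add, mul_comm I]
    push_cast
    ring
  have h1 : Real.exp (-δ) ≤ 1 := Real.exp_le_one_iff.mpr (by linarith)
  have h2 : Real.exp (-δ) * (1 + δ) ≤ 1 := by
    have h3 := Real.add_one_le_exp δ
    have h4 : Real.exp (-δ) * Real.exp δ = 1 := by rw [← Real.exp_add]; simp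
    have h5 := Real.exp_pos (-δ)
    nlinarith
  have h3 := Real.norm_exp_I_mul_ofReal_sub_one_le (x := δ * i)
  have h4 : ‖δ * i‖ ≤ δ := by
    rw [Real.norm_eq_abs, abs_mul, abs_of_nonneg hδ]
    nlinarith
  rw [e]
  refine (norm_sub_le _ _).trans ?_
  rw [norm_mul, Complex.norm_real, Complex.norm_real, Real.norm_eq_abs, Real.norm_eq_abs,
    abs_of_nonneg (by linarith), abs_of_pos (Real.exp_pos _)]
  have h5 : Real.exp (-δ) * ‖cexp (I * ((δ * i : ℝ) : ℂ)) - 1‖ ≤ Real.exp (-δ) * δ :=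
    mul_le_mul_of_nonneg_left (h3.trans h4) (Real.exp_pos _).le
  nlinarith

lemma hf_add (u v i : ℝ) : hf (u + v) i = hf u i * hf v i := by
  unfold hf
  rw [← Complex.exp_add]
  congr 1
  push_cast
  ring

lemma hf_diff (u v i : ℝ) (hi : |i| ≤ 1) : ‖hf u i - hf v i‖ ≤ 2 * |Real.exp (-u) - Real.exp (-v)| := by
  wlog huv : u ≤ v generalizing u v with H
  · rw [norm_sub_rev, abs_sub_comm]
    exact H v u (by linarith)
  have e : hf u i - hf v i = hf u i * (1 - hf (v - u) i) := by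
    have : v = u + (v - u) := by ring
    nth_rewrite 1 [this]
    rw [hf_add]
    ring
  have h1 := hf_diff1 (v - u) i (by linarith) hi
  have h2 : Real.exp (-v) ≤ Real.exp (-u) := Real.exp_le_exp.mpr (by linarith)
  rw [e, norm_mul, hf_norm, abs_of_nonneg (by linarith)]
  have e2 : Real.exp (-u) * Real.exp (-(v - u)) = Real.exp (-v) := by
    rw [← Real.exp_add]
    congr 1
    ring
  calc Real.exp (-u) * ‖1 - hf (v - u) i‖ ≤ Real.exp (-u) * (2 * (1 - Real.exp (-(v - u)))) :=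
        mul_le_mul_of_nonneg_left h1 (Real.exp_pos _).le
    _ = _ := by rw [← e2]; ring

lemma hf_diff2 (u i j : ℝ) (hu : 0 ≤ u) : ‖hf u i - hf u j‖ ≤ |i - j| := by
  have e : hf u i - hf u j = hf u j * (cexp (I * ((u * (i - j) : ℝ) : ℂ)) - 1) := by
    unfold hf
    rw [mul_sub, ← Complex.exp_add, mul_one]
    congr 2
    push_cast
    ring
  have h3 := Real.norm_exp_I_mul_ofReal_sub_one_le (x := u * (i - j))
  have h2 : Real.exp (-u) * u ≤ 1 := by
    have h3 := Real.add_one_le_exp u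
    have h4 : Real.exp (-u) * Real.exp u = 1 := by rw [← Real.exp_add]; simp
    have h5 := Real.exp_pos (-u)
    nlinarith
  rw [e, norm_mul, hf_norm]
  calc Real.exp (-u) * ‖cexp (I * ((u * (i - j) : ℝ) : ℂ)) - 1‖ ≤ Real.exp (-u) * ‖u * (i - j)‖ :=
        mul_le_mul_of_nonneg_left h3 (Real.exp_pos _).le
    _ = (Real.exp (-u) * u) * |i - j| := by
        rw [Real.norm_eq_abs, abs_mul, abs_of_nonneg hu]
        ring
    _ ≤ 1 * |i - j| := by gcongr
    _ = _ := one_mul _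

/-- the signs -/
inductive Sg
  | zero
  | pos
  | neg
  deriving DecidableEq

instance : Fintype Sg := ⟨{.zero, .pos, .neg}, by intro x; cases x <;> simp⟩

/-- the coefficient of the rest of the phase -/
noncomputable def iot : Sg → ℝ → ℝ
  | .zero, s => -s
  | .pos, s => s⁻¹
  | .neg, s => s⁻¹

/-- the amplitude as a function of two real variables -/
noncomputable def am2 (σ : Sg) (w s : ℝ) : ℂ := kf s * hf (w ^ 2 / (4 * la s)) (iot σ s)

/-- the amplitude -/
noncomputable def amp (σ : Sg) (ω τ : Poly) (z : ℝ × ℝ) : ℂ := am2 σ (ev ω z) (ev τ z)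

lemma am2_norm (σ : Sg) (w s : ℝ) : ‖am2 σ w s‖ = ‖kf s‖ * Real.exp (-(w ^ 2 / (4 * la s))) := by
  unfold am2
  rw [norm_mul, hf_norm]

lemma am2_le (σ : Sg) (w s : ℝ) : ‖am2 σ w s‖ ≤ ‖kf s‖ := by
  rw [am2_norm]
  have h1 : Real.exp (-(w ^ 2 / (4 * la s))) ≤ 1 := by
    apply Real.exp_le_one_iff.mpr
    have := la_pos s
    have : 0 ≤ w ^ 2 / (4 * la s) := by positivity
    linarith
  nlinarith [norm_nonneg (kf s)]

lemma iot_meas (σ : Sg) : Measurable (iot σ) := by
  cases σ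
  · exact measurable_neg
  · exact measurable_inv
  · exact measurable_inv

lemma am2_meas (σ : Sg) : Measurable fun w : ℝ × ℝ => am2 σ w.1 w.2 := by
  unfold am2 hf
  have h1 : Measurable fun w : ℝ × ℝ => kf w.2 := kf_cont.measurable.comp measurable_snd
  have h2 : Measurable fun w : ℝ × ℝ => iot σ w.2 := (iot_meas σ).comp measurable_snd
  have h3 : Measurable fun w : ℝ × ℝ => w.1 ^ 2 / (4 * la w.2) := by
    unfold la
    fun_prop
  exact h1.mul (by fun_prop)

lemma am2_comp {X : Type*} [MeasurableSpace X] (σ : Sg) {w s : X → ℝ} (hw : Measurable w)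
    (hs : Measurable s) : Measurable fun x => am2 σ (w x) (s x) := by
  unfold am2 hf
  have h1 : Measurable fun x => kf (s x) := kf_cont.measurable.comp hs
  have h2 : Measurable fun x => iot σ (s x) := (iot_meas σ).comp hs
  have h3 : Measurable fun x => w x ^ 2 / (4 * la (s x)) := by
    unfold la
    fun_prop
  exact h1.mul (by fun_prop)

lemma amp_meas (σ : Sg) (ω τ : Poly) : Measurable (amp σ ω τ) := by
  unfold amp
  exact am2_comp σ (ev_cont ω).measurable (ev_cont τ).measurable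

/-- the polynomials of the zones -/
noncomputable def Tp (σ : Sg) (τ : Poly) : Poly :=
  match σ with
  | .zero => MvPolynomial.C 1
  | .pos => τ
  | .neg => -τ

noncomputable def e1p (σ : Sg) (μ : ℕ) (τ : Poly) : Poly :=
  match σ with
  | .zero => MvPolynomial.C (1 / 2 - μ)
  | .pos => τ - MvPolynomial.C (2 ^ μ)
  | .neg => -τ - MvPolynomial.C (2 ^ μ)

noncomputable def e2p (σ : Sg) (μ : ℕ) (τ : Poly) : Poly :=
  match σ with
  | .zero => MvPolynomial.C 1 - τ * τ
  | .pos => MvPolynomial.C (2 ^ (μ + 1)) - τ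
  | .neg => MvPolynomial.C (2 ^ (μ + 1)) + τ

/-- the end points -/
noncomputable def lo : Sg → ℕ → ℝ
  | .zero, _ => -1
  | .pos, μ => 2 ^ μ
  | .neg, μ => -2 ^ (μ + 1)

noncomputable def hi : Sg → ℕ → ℝ
  | .zero, _ => 1
  | .pos, μ => 2 ^ (μ + 1)
  | .neg, μ => -2 ^ μ

/-- nonempty zones -/
def ok (σ : Sg) (μ : ℕ) : Prop := σ = .zero → μ = 0

lemma zone_cl {σ : Sg} {μ : ℕ} {τ : Poly} {z : ℝ × ℝ} (hz : z ∈ Zc (e1p σ μ τ) (e2p σ μ τ)) :
    ok σ μ ∧ ev τ z ∈ Icc (lo σ μ) (hi σ μ) := by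
  obtain ⟨h1, h2⟩ := hz
  cases σ
  · simp only [e1p, e2p, ev_sub, ev_mul, ev_C] at h1 h2
    refine ⟨fun _ => ?_, ?_⟩
    · by_contra hμ
      have h3 : 1 ≤ μ := Nat.one_le_iff_ne_zero.mpr hμ
      have h4 : (1 : ℝ) ≤ μ := by exact_mod_cast h3
      linarith
    · simp only [lo, hi]
      constructor <;> nlinarith
  · simp only [e1p, e2p, ev_sub, ev_C] at h1 h2
    refine ⟨fun h => (by cases h), ?_⟩
    simp only [lo, hi]
    exact ⟨by linarith, by linarith⟩
  · simp only [e1p, e2p, ev_sub, ev_add, ev_neg, ev_C] at h1 h2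
    refine ⟨fun h => (by cases h), ?_⟩
    simp only [lo, hi]
    exact ⟨by linarith, by linarith⟩

lemma T_low {σ : Sg} {μ : ℕ} {τ : Poly} {z : ℝ × ℝ} (hz : z ∈ Zc (e1p σ μ τ) (e2p σ μ τ)) :
    (2 : ℝ) ^ μ ≤ ev (Tp σ τ) z := by
  obtain ⟨h0, h1⟩ := zone_cl hz
  cases σ
  · rw [h0 rfl]
    simp only [Tp, ev_C, pow_zero, le_refl]
  · simp only [Tp]
    exact h1.1
  · simp only [Tp, ev_neg]
    have := h1.2
    simp only [hi] at this
    linarith

/-- the properties of the intervals -/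
lemma lo_hi {σ : Sg} {μ : ℕ} (h : ok σ μ) : hi σ μ - lo σ μ ≤ 2 * 2 ^ μ ∧
    (∀ s ∈ Icc (lo σ μ) (hi σ μ), ((2 : ℝ) ^ μ) ^ 2 ≤ la s) ∧
    (∀ s ∈ Icc (lo σ μ) (hi σ μ), |iot σ s| ≤ 1) ∧
    (∀ s ∈ Icc (lo σ μ) (hi σ μ), ∀ s' ∈ Icc (lo σ μ) (hi σ μ),
      |iot σ s - iot σ s'| ≤ ((2 : ℝ) ^ μ)⁻¹ * |s - s'|) := by
  have hp : (0 : ℝ) < 2 ^ μ := by positivity
  have hp1 : (1 : ℝ) ≤ 2 ^ μ := one_le_pow₀ (by norm_num)
  have key : ∀ s s' : ℝ, (2 : ℝ) ^ μ ≤ |s| → (2 : ℝ) ^ μ ≤ |s'| → |s⁻¹| ≤ 1 ∧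
      |s⁻¹ - s'⁻¹| ≤ ((2 : ℝ) ^ μ)⁻¹ * |s - s'| := by
    intro s s' hs hs'
    have h1 : 0 < |s| := by linarith
    have h2 : 0 < |s'| := by linarith
    have h3 : s ≠ 0 := abs_pos.mp h1
    have h4 : s' ≠ 0 := abs_pos.mp h2
    constructor
    · rw [abs_inv]
      exact inv_le_one_of_one_le₀ (by linarith)
    · have e : s⁻¹ - s'⁻¹ = (s' - s) / (s * s') := by
        field_simp
      rw [e, abs_div, abs_mul, abs_sub_comm, div_eq_mul_inv, mul_comm]
      apply mul_le_mul_of_nonneg_right _ (abs_nonneg _)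
      apply inv_anti₀ hp
      nlinarith
  cases σ
  · have hμ : μ = 0 := h rfl
    subst hμ
    simp only [lo, hi, iot, pow_zero]
    refine ⟨by norm_num, ?_, ?_, ?_⟩
    · intro s _
      simp only [one_pow]
      exact la_one s
    · intro s hs
      rw [abs_neg]
      exact abs_le.mpr hs
    · intro s _ s' _
      rw [neg_sub_neg, abs_sub_comm]
      simp
  · simp only [lo, hi, iot]
    refine ⟨by rw [pow_succ]; linarith, ?_, ?_, ?_⟩
    · intro s hs
      unfold la
      have := hs.1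
      nlinarith
    · intro s hs
      exact (key s s (hs.1.trans (le_abs_self s)) (hs.1.trans (le_abs_self s))).1
    · intro s hs s' hs'
      exact (key s s' (hs.1.trans (le_abs_self s)) (hs'.1.trans (le_abs_self s'))).2
  · simp only [lo, hi, iot]
    have hneg : ∀ s ∈ Icc (-(2 : ℝ) ^ (μ + 1)) (-(2 : ℝ) ^ μ), (2 : ℝ) ^ μ ≤ |s| := by
      intro s hs
      have := hs.2
      have := neg_le_abs s
      linarith
    refine ⟨by rw [pow_succ]; linarith, ?_, ?_, ?_⟩
    · intro s hs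
      unfold la
      have h1 := hneg s hs
      have h2 : ((2 : ℝ) ^ μ) ^ 2 ≤ |s| ^ 2 := pow_le_pow_left₀ hp.le h1 2
      rw [sq_abs] at h2
      linarith
    · intro s hs
      exact (key s s (hneg s hs) (hneg s hs)).1
    · intro s hs s' hs'
      exact (key s s' (hneg s hs) (hneg s' hs')).2

/-- domination of the variation -/
lemma var_dom (F : ℝ → ℂ) (E τ : ℝ → ℝ) (α β : ℝ≥0∞) (S : Set ℝ)
    (h : ∀ x ∈ S, ∀ y ∈ S, edist (F x) (F y) ≤ α * edist (E x) (E y) + β * edist (τ x) (τ y)) :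
    eVariationOn F S ≤ α * eVariationOn E S + β * eVariationOn τ S := by
  unfold eVariationOn
  apply iSup_le
  rintro ⟨n, ⟨w, hw, hwS⟩⟩
  have h1 : ∑ i ∈ Finset.range n, edist (F (w (i + 1))) (F (w i)) ≤
      ∑ i ∈ Finset.range n, (α * edist (E (w (i + 1))) (E (w i)) +
        β * edist (τ (w (i + 1))) (τ (w i))) :=
    Finset.sum_le_sum fun i _ => h _ (hwS _) _ (hwS _)
  refine h1.trans ?_
  rw [Finset.sum_add_distrib, ← Finset.mul_sum, ← Finset.mul_sum]
  gcongr
  · exact eVariationOn.sum_le (f := E) (s := S) (n := n) hw hwS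
  · exact eVariationOn.sum_le (f := τ) (s := S) (n := n) hw hwS

/-- variation of monotone functions -/
lemma var_real (f : ℝ → ℝ) (u v : ℝ) (huv : u ≤ v) (ℓ : ℝ)
    (hm : MonotoneOn f (Icc u v) ∨ AntitoneOn f (Icc u v))
    (h : ∀ x ∈ Icc u v, ∀ y ∈ Icc u v, f x - f y ≤ ℓ) :
    eVariationOn f (Icc u v) ≤ ENNReal.ofReal ℓ := by
  have hu : u ∈ Icc u v := left_mem_Icc.mpr huv
  have hv : v ∈ Icc u v := right_mem_Icc.mpr huv
  have key : ∀ g : ℝ → ℝ, MonotoneOn g (Icc u v) → g v - g u ≤ ℓ →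
      eVariationOn g (Icc u v) ≤ ENNReal.ofReal ℓ := by
    intro g hg hgv
    have h := hg.eVariationOn_eq hu hv
    rw [inter_self] at h
    rw [h]
    exact ENNReal.ofReal_le_ofReal hgv
  rcases hm with hm | hm
  · exact key f hm (h v hv u hu)
  · have e : eVariationOn f (Icc u v) = eVariationOn (fun x => -f x) (Icc u v) := by
      unfold eVariationOn
      simp only [edist_neg_neg]
    rw [e]
    exact key _ hm.neg (by linarith [h u hu v hv])

lemma mono_of (f f' : ℝ → ℝ) (hf : ∀ x, HasDerivAt f (f' x) x) (u v : ℝ)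
    (h : (∀ x ∈ Ioo u v, 0 ≤ f' x) ∨ (∀ x ∈ Ioo u v, f' x ≤ 0)) :
    MonotoneOn f (Icc u v) ∨ AntitoneOn f (Icc u v) := by
  have hfc : Continuous f := continuous_iff_continuousAt.mpr fun x => (hf x).continuousAt
  rcases h with h | h
  · left
    apply monotoneOn_of_deriv_nonneg (convex_Icc u v) hfc.continuousOn
      (fun x _ => (hf x).differentiableAt.differentiableWithinAt)
    intro x hx
    rw [interior_Icc] at hx
    rw [(hf x).deriv]
    exact h x hx
  · right
    apply antitoneOn_of_deriv_nonpos (convex_Icc u v) hfc.continuousOn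
      (fun x _ => (hf x).differentiableAt.differentiableWithinAt)
    intro x hx
    rw [interior_Icc] at hx
    rw [(hf x).deriv]
    exact h x hx

/-- the size of the amplitude -/
noncomputable def Vm (μ : ℕ) : ℝ := 10 * ((2 : ℝ) ^ μ) ^ (-(1 / 2) : ℝ)

lemma Vm_pos (μ : ℕ) : 0 < Vm μ := by unfold Vm; positivity

lemma amp_le {σ : Sg} {μ : ℕ} {ω τ : Poly} {z : ℝ × ℝ} (hz : z ∈ Zc (e1p σ μ τ) (e2p σ μ τ)) :
    ‖amp σ ω τ z‖ ≤ 2 * ((2 : ℝ) ^ μ) ^ (-(1 / 2) : ℝ) := by
  obtain ⟨h0, h1⟩ := zone_cl hz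
  obtain ⟨-, h2, -, -⟩ := lo_hi h0
  exact (am2_le σ _ _).trans (kf_le _ _ (by positivity) (h2 _ h1))

/-- **the variation of the amplitude on lines** -/
lemma amp_var {D : ℕ} {ω τ : Poly} (hω : ω.totalDegree ≤ D) (hτ : τ.totalDegree ≤ D) (σ : Sg)
    (μ : ℕ) : AmpV (e1p σ μ τ) (e2p σ μ τ) (5 * D) (Vm μ) (amp σ ω τ) := by
  intro y
  set P : Poly := ω * MvPolynomial.pderiv 0 ω * (MvPolynomial.C 1 + τ * τ) -
    ω * ω * (τ * MvPolynomial.pderiv 0 τ) with hP
  obtain ⟨Z, hZc, hZ⟩ := cuts ![P, MvPolynomial.pderiv 0 τ] (5 * D) (by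
    rw [Fin.sum_univ_two]
    simp only [Matrix.cons_val_zero, Matrix.cons_val_one]
    have hω' := (deg_pderiv ω 0).trans hω
    have hτ' := (deg_pderiv τ 0).trans hτ
    have h1 : P.totalDegree ≤ 4 * D := by
      rw [hP]
      apply deg_sub
      · exact (deg_mul (deg_mul hω hω') (deg_add (deg_C 1 _) (deg_mul hτ hτ))).trans (by omega)
      · exact (deg_mul (deg_mul hω hω) (deg_mul hτ hτ')).trans (by omega)
    omega) y
  refine ⟨Z, hZc, ?_⟩
  intro u v huv hZu hzc
  have hcs := hZ u v hZu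
  have hok : ok σ μ := (zone_cl (hzc u (left_mem_Icc.mpr huv.le))).1
  obtain ⟨g1, g2, g3, g4⟩ := lo_hi hok
  have hin : ∀ x ∈ Icc u v, ev τ (x, y) ∈ Icc (lo σ μ) (hi σ μ) := fun x hx => (zone_cl (hzc x hx)).2
  set L : ℝ := (2 : ℝ) ^ μ with hL
  have hL0 : 0 < L := by rw [hL]; positivity
  set B : ℝ := L ^ (-(1 / 2) : ℝ) with hB
  have hB0 : 0 < B := by rw [hB]; positivity
  have hVm : Vm μ = 10 * B := rfl
  refine ⟨fun x hx => (amp_le (hzc x hx)).trans (by rw [hVm]; linarith), ?_⟩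
  set E : ℝ → ℝ := fun x => Real.exp (-(ev ω (x, y) ^ 2 / (4 * la (ev τ (x, y))))) with hE
  -- derivatives
  have hEd : ∀ x, HasDerivAt E (E x * (-(ev P (x, y) / (2 * la (ev τ (x, y)) ^ 2)))) x := by
    intro x
    have h1 := ev_deriv1 ω x y
    have h2 := ev_deriv1 τ x y
    have h3 : HasDerivAt (fun x => 4 * la (ev τ (x, y)))
        (4 * (2 * ev τ (x, y) * ev (MvPolynomial.pderiv 0 τ) (x, y))) x := by
      unfold la
      have h4 := ((h2.pow 2).const_add 1).const_mul 4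
      refine h4.congr_deriv ?_
      push_cast
      ring
    have h0 : 4 * la (ev τ (x, y)) ≠ 0 := by
      have := la_pos (ev τ (x, y))
      positivity
    have h5 := ((h1.pow 2).div h3 h0).neg.exp
    refine h5.congr_deriv ?_
    have h6 := (la_pos (ev τ (x, y))).ne'
    have e0 : ev P (x, y) = ev ω (x, y) * ev (MvPolynomial.pderiv 0 ω) (x, y) *
        la (ev τ (x, y)) - ev ω (x, y) * ev ω (x, y) *
          (ev τ (x, y) * ev (MvPolynomial.pderiv 0 τ) (x, y)) := by
      rw [hP]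
      unfold la
      simp only [ev_sub, ev_mul, ev_add, ev_C]
      ring
    rw [e0]
    simp only [hE, Pi.div_apply, Pi.pow_apply, Pi.neg_apply]
    congr 1
    push_cast
    field_simp
    ring
  have hEm : MonotoneOn E (Icc u v) ∨ AntitoneOn E (Icc u v) := by
    apply mono_of E _ hEd u v
    have hpos : ∀ x, 0 < E x / (2 * la (ev τ (x, y)) ^ 2) := by
      intro x
      have := la_pos (ev τ (x, y))
      simp only [hE]
      positivity
    have e : ∀ x, E x * (-(ev P (x, y) / (2 * la (ev τ (x, y)) ^ 2))) =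
        -(ev P (x, y) * (E x / (2 * la (ev τ (x, y)) ^ 2))) := by
      intro x
      ring
    simp only [e]
    rcases hcs 0 with h | h | h
    · right
      intro x hx
      have h1 : 0 < ev P (x, y) := h x hx
      have := mul_pos h1 (hpos x)
      linarith
    · right
      intro x hx
      have h1 : ev P (x, y) = 0 := h x hx
      rw [h1, zero_mul, neg_zero]
    · left
      intro x hx
      have h1 : ev P (x, y) < 0 := h x hx
      have := mul_neg_of_neg_of_pos h1 (hpos x)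
      linarith
  have hτm : MonotoneOn (fun x => ev τ (x, y)) (Icc u v) ∨
      AntitoneOn (fun x => ev τ (x, y)) (Icc u v) := by
    apply mono_of _ (fun x => ev (MvPolynomial.pderiv 0 τ) (x, y)) (fun x => ev_deriv1 τ x y) u v
    rcases hcs 1 with h | h | h
    · exact Or.inl fun x hx => (h x hx).le
    · exact Or.inl fun x hx => (h x hx).ge
    · exact Or.inr fun x hx => (h x hx).le
  have hE1 := var_real E u v huv.le 1 hEm (by
    intro x _ x' _
    have h1 : 0 < E x' := Real.exp_pos _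
    have h2 : E x ≤ 1 := by
      apply Real.exp_le_one_iff.mpr
      have := la_pos (ev τ (x, y))
      have : 0 ≤ ev ω (x, y) ^ 2 / (4 * la (ev τ (x, y))) := by positivity
      linarith
    linarith)
  have hτ1 := var_real (fun x => ev τ (x, y)) u v huv.le (2 * L) hτm (by
    intro x hx x' hx'
    have h1 := (hin x hx).2
    have h2 := (hin x' hx').1
    linarith)
  -- the domination
  have hdom := var_dom (fun x => amp σ ω τ (x, y)) E (fun x => ev τ (x, y)) (ENNReal.ofReal (4 * B))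
    (ENNReal.ofReal (3 * B * L⁻¹)) (Icc u v) (by
      intro x hx x' hx'
      rw [edist_dist, edist_dist, edist_dist, ← ENNReal.ofReal_mul (by positivity),
        ← ENNReal.ofReal_mul (by positivity), ← ENNReal.ofReal_add (by positivity) (by positivity)]
      apply ENNReal.ofReal_le_ofReal
      rw [dist_eq_norm, Real.dist_eq, Real.dist_eq]
      set s := ev τ (x, y) with hs
      set s' := ev τ (x', y) with hs'
      set U := ev ω (x, y) ^ 2 / (4 * la s) with hU
      set U' := ev ω (x', y) ^ 2 / (4 * la s') with hU'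
      have hU0 : 0 ≤ U := by
        have := la_pos s
        rw [hU]
        positivity
      have hU0' : 0 ≤ U' := by
        have := la_pos s'
        rw [hU']
        positivity
      have e1 : amp σ ω τ (x, y) - amp σ ω τ (x', y) = (kf s - kf s') * hf U (iot σ s) +
          kf s' * ((hf U (iot σ s) - hf U' (iot σ s)) + (hf U' (iot σ s) - hf U' (iot σ s'))) := by
        unfold amp am2
        rw [← hs, ← hs', ← hU, ← hU']
        ring
      have k1 := kf_lip (lo σ μ) (hi σ μ) L hL0 g2 s s' (hin x hx) (hin x' hx')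
      have k2 := kf_le s' L hL0 (g2 s' (hin x' hx'))
      have k3 := hf_diff U U' (iot σ s) (g3 s (hin x hx))
      have k4 := hf_diff2 U' (iot σ s) (iot σ s') hU0'
      have k5 := g4 s (hin x hx) s' (hin x' hx')
      have k6 : ‖hf U (iot σ s)‖ ≤ 1 := by
        rw [hf_norm]
        exact Real.exp_le_one_iff.mpr (by linarith)
      rw [e1]
      calc ‖(kf s - kf s') * hf U (iot σ s) +
          kf s' * ((hf U (iot σ s) - hf U' (iot σ s)) + (hf U' (iot σ s) - hf U' (iot σ s')))‖ ≤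
          ‖kf s - kf s'‖ * ‖hf U (iot σ s)‖ +
            ‖kf s'‖ * (‖hf U (iot σ s) - hf U' (iot σ s)‖ + ‖hf U' (iot σ s) - hf U' (iot σ s')‖) := by
            refine (norm_add_le _ _).trans ?_
            rw [norm_mul, norm_mul]
            gcongr
            exact norm_add_le _ _
        _ ≤ (B * L⁻¹ * |s - s'|) * 1 + (2 * B) * (2 * |Real.exp (-U) - Real.exp (-U')| +
            L⁻¹ * |s - s'|) := by
            apply add_le_add
            · exact mul_le_mul k1 k6 (norm_nonneg _) (by positivity)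
            · exact mul_le_mul k2 (add_le_add k3 (k4.trans k5)) (by positivity) (by positivity)
        _ = 4 * B * |E x - E x'| + 3 * B * L⁻¹ * |s - s'| := by
            simp only [hE]
            rw [← hs, ← hs', ← hU, ← hU']
            ring)
  refine hdom.trans ?_
  calc ENNReal.ofReal (4 * B) * eVariationOn E (Icc u v) +
      ENNReal.ofReal (3 * B * L⁻¹) * eVariationOn (fun x => ev τ (x, y)) (Icc u v) ≤
      ENNReal.ofReal (4 * B) * ENNReal.ofReal 1 +
        ENNReal.ofReal (3 * B * L⁻¹) * ENNReal.ofReal (2 * L) := by gcongr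
    _ = ENNReal.ofReal (Vm μ) := by
        rw [← ENNReal.ofReal_mul (by positivity), ← ENNReal.ofReal_mul (by positivity),
          ← ENNReal.ofReal_add (by positivity) (by positivity), hVm]
        congr 1
        field_simp
        ring

lemma Tp_sw (σ : Sg) (τ : Poly) : sw (Tp σ τ) = Tp σ (sw τ) := by
  cases σ
  · exact C_sw 1
  · rfl
  · simp only [Tp, sw, map_neg]

lemma e1p_sw (σ : Sg) (μ : ℕ) (τ : Poly) : sw (e1p σ μ τ) = e1p σ μ (sw τ) := by
  cases σ
  · exact C_sw _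
  · simp only [e1p, sw, map_sub, MvPolynomial.rename_C]
  · simp only [e1p, sw, map_sub, map_neg, MvPolynomial.rename_C]

lemma e2p_sw (σ : Sg) (μ : ℕ) (τ : Poly) : sw (e2p σ μ τ) = e2p σ μ (sw τ) := by
  cases σ
  · simp only [e2p, sw, map_sub, map_mul, MvPolynomial.rename_C]
  · simp only [e2p, sw, map_sub, MvPolynomial.rename_C]
  · simp only [e2p, sw, map_add, MvPolynomial.rename_C]

lemma amp_sw (σ : Sg) (ω τ : Poly) : (fun z : ℝ × ℝ => amp σ ω τ z.swap) = amp σ (sw ω) (sw τ) := by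
  ext z
  unfold amp
  rw [ev_sw, ev_sw]

lemma amp_var' {D : ℕ} {ω τ : Poly} (hω : ω.totalDegree ≤ D) (hτ : τ.totalDegree ≤ D) (σ : Sg)
    (μ : ℕ) : AmpV (sw (e1p σ μ τ)) (sw (e2p σ μ τ)) (5 * D) (Vm μ) fun z => amp σ ω τ z.swap := by
  rw [amp_sw, e1p_sw, e2p_sw]
  exact amp_var (deg_sw hω) (deg_sw hτ) σ μ

end Pool.Agent.Helper35.CP
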