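import Pool.Agent.Helper35.CP.E
set_option autoImplicit false

/-! The planar phases and their second derivatives; the pieces. -/

namespace Pool.Agent.Helper35.CP

open MeasureTheory Set Filter Topology Complex
open scoped ENNReal NNReal
open Pool.Agent.Y183.PP
open Pool.Agent.Helper35.MP (la la_one la_pos kf kf_norm norm_one_sub)

/-- the coefficient of the square -/
noncomputable def ka : Sg → ℝ
  | .zero => 0
  | .pos => 1 / 4
  | .neg => -(1 / 4)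

/-- the numerator of the planar phase -/
noncomputable def Np (σ : Sg) (P ω τ : Poly) : Poly :=
  Tp σ τ * P - MvPolynomial.C (ka σ) * (ω * ω)

lemma n1_form (T P W : Poly) (κ : ℝ) : n1 (T * P - MvPolynomial.C κ * (W * W)) T =
    T * T * MvPolynomial.pderiv 0 P - 2 * MvPolynomial.C κ * (W * MvPolynomial.pderiv 0 W * T) +
      MvPolynomial.C κ * (W * W * MvPolynomial.pderiv 0 T) := by
  unfold n1
  simp only [map_sub, MvPolynomial.pderiv_mul, MvPolynomial.pderiv_C]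
  ring

lemma n2_form (T P W : Poly) (κ : ℝ) : n2 (T * P - MvPolynomial.C κ * (W * W)) T =
    T * T * MvPolynomial.pderiv 1 P - 2 * MvPolynomial.C κ * (W * MvPolynomial.pderiv 1 W * T) +
      MvPolynomial.C κ * (W * W * MvPolynomial.pderiv 1 T) := by
  unfold n2
  simp only [map_sub, MvPolynomial.pderiv_mul, MvPolynomial.pderiv_C]
  ring

lemma ev_two (z : ℝ × ℝ) : ev (2 : Poly) z = 2 := by simp [ev]

lemma pd_two (i : Fin 2) : MvPolynomial.pderiv i (2 : Poly) = 0 := by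
  rw [show (2 : Poly) = MvPolynomial.C 2 by rfl, MvPolynomial.pderiv_C]

lemma ev_n11 (T P W : Poly) (κ : ℝ) (z : ℝ × ℝ) :
    ev (n11 (T * P - MvPolynomial.C κ * (W * W)) T) z =
      ev T z ^ 3 * ev (pxx P) z -
      2 * κ * ev T z ^ 2 * (ev (px W) z ^ 2 + ev W z * ev (pxx W) z) +
      κ * ev W z ^ 2 * ev (pxx T) z * ev T z +
      4 * κ * ev W z * ev (px W) z * ev T z * ev (px T) z -
      2 * κ * ev W z ^ 2 * ev (px T) z ^ 2 := by
  unfold n11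
  rw [n1_form]
  simp only [map_sub, map_add, MvPolynomial.pderiv_mul, MvPolynomial.pderiv_C, pd_two, ev_sub,
    ev_add, ev_mul, ev_C, ev_two, px, pxx]
  simp only [ev, map_zero]
  ring

lemma ev_n12 (T P W : Poly) (κ : ℝ) (z : ℝ × ℝ) :
    ev (n12 (T * P - MvPolynomial.C κ * (W * W)) T) z =
      ev T z ^ 3 * ev (pxy P) z -
      2 * κ * ev T z ^ 2 * (ev (px W) z * ev (py W) z + ev W z * ev (pxy W) z) +
      κ * ev W z ^ 2 * ev (pxy T) z * ev T z +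
      2 * κ * ev W z * ev T z * (ev (px W) z * ev (py T) z + ev (py W) z * ev (px T) z) -
      2 * κ * ev W z ^ 2 * (ev (px T) z * ev (py T) z) := by
  unfold n12
  rw [n1_form]
  simp only [map_sub, map_add, MvPolynomial.pderiv_mul, MvPolynomial.pderiv_C, pd_two, ev_sub,
    ev_add, ev_mul, ev_C, ev_two, px, py, pxy]
  simp only [ev, map_zero]
  ring

lemma ev_n22 (T P W : Poly) (κ : ℝ) (z : ℝ × ℝ) :
    ev (n22 (T * P - MvPolynomial.C κ * (W * W)) T) z =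
      ev T z ^ 3 * ev (pyy P) z -
      2 * κ * ev T z ^ 2 * (ev (py W) z ^ 2 + ev W z * ev (pyy W) z) +
      κ * ev W z ^ 2 * ev (pyy T) z * ev T z +
      4 * κ * ev W z * ev (py W) z * ev T z * ev (py T) z -
      2 * κ * ev W z ^ 2 * ev (py T) z ^ 2 := by
  unfold n22
  rw [n2_form]
  simp only [map_sub, map_add, MvPolynomial.pderiv_mul, MvPolynomial.pderiv_C, pd_two, ev_sub,
    ev_add, ev_mul, ev_C, ev_two, py, pyy]
  simp only [ev, map_zero]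
  ring

/-- the regular points do not depend on `y` -/
lemma BBR_y (σ : Sg) (p ω τ : Poly) (y : ℝ × ℝ) (t s : ℝ) :
    BBR s (Np σ (Ph p y t) ω τ) (Tp σ τ) = BBR s (Np σ (Ph p 0 t) ω τ) (Tp σ τ) := by
  ext z
  unfold BBR Np
  simp only [mem_ofPred_eq, ev_mtR, ev_mdR, ev_n11, ev_n12, ev_n22, pxx_Ph, pxy_Ph, pyy_Ph]

/-- regular points -/
def BQ (σ : Sg) (p ω τ : Poly) (t s : ℝ) : Set (ℝ × ℝ) := BBR s (Np σ (Ph p 0 t) ω τ) (Tp σ τ)

lemma BQ_meas (σ : Sg) (p ω τ : Poly) (t s : ℝ) : MeasurableSet (BQ σ p ω τ t s) :=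
  (BBR_open _ _ _).measurableSet

/-- the parts by curvature -/
def AQ (σ : Sg) (p ω τ : Poly) (t : ℝ) : ℕ → Set (ℝ × ℝ)
  | 0 => (BQ σ p ω τ t 1)ᶜ
  | (j + 1) => BQ σ p ω τ t (2 ^ j) \ BQ σ p ω τ t (2 ^ (j + 1))

lemma AQ_meas (σ : Sg) (p ω τ : Poly) (t : ℝ) (k : ℕ) : MeasurableSet (AQ σ p ω τ t k) := by
  cases k with
  | zero => exact (BQ_meas _ _ _ _ _ _).compl
  | succ j => exact (BQ_meas _ _ _ _ _ _).diff (BQ_meas _ _ _ _ _ _)

lemma BQ_anti (σ : Sg) (p ω τ : Poly) (t s s' : ℝ) (hs : 0 ≤ s) (hss : s ≤ s') :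
    BQ σ p ω τ t s' ⊆ BQ σ p ω τ t s := by
  rintro z ⟨h1, h2⟩
  rw [ev_mtR] at h1
  rw [ev_mdR] at h2
  set a := ev (n11 (Np σ (Ph p 0 t) ω τ) (Tp σ τ)) z with ha
  set b := ev (n12 (Np σ (Ph p 0 t) ω τ) (Tp σ τ)) z with hb
  set c := ev (n22 (Np σ (Ph p 0 t) ω τ) (Tp σ τ)) z with hc
  set T := ev (Tp σ τ) z with hT
  have hT6 : 0 ≤ T ^ 6 := by positivity
  have hd : 0 ≤ s' ^ 2 * T ^ 6 - s ^ 2 * T ^ 6 := by
    have : 0 ≤ s' ^ 2 - s ^ 2 := by nlinarith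
    have := mul_nonneg this hT6
    linarith
  constructor
  · rw [ev_mtR, ← ha, ← hb, ← hc, ← hT]
    nlinarith
  · rw [ev_mdR, ← ha, ← hb, ← hc, ← hT]
    set S := s ^ 2 * T ^ 6 with hS
    set S' := s' ^ 2 * T ^ 6 with hS'
    have h1' : 0 < a ^ 2 + 2 * b ^ 2 + c ^ 2 - 2 * S' := by
      rw [hS']
      linarith
    have e : (a ^ 2 + b ^ 2 - S) * (b ^ 2 + c ^ 2 - S) - b ^ 2 * (a + c) ^ 2 =
        ((a ^ 2 + b ^ 2 - S') * (b ^ 2 + c ^ 2 - S') - b ^ 2 * (a + c) ^ 2) +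
        (S' - S) * (a ^ 2 + 2 * b ^ 2 + c ^ 2 - 2 * S') + (S' - S) ^ 2 := by ring
    rw [e]
    have := mul_nonneg hd h1'.le
    have := sq_nonneg (S' - S)
    linarith

lemma AQ_sub (σ : Sg) (p ω τ : Poly) (t : ℝ) (k : ℕ) : AQ σ p ω τ t k ⊆ (BQ σ p ω τ t (2 ^ k))ᶜ := by
  cases k with
  | zero => simp [AQ]
  | succ j => exact fun z hz => hz.2

lemma AQ_sum (σ : Sg) (p ω τ : Poly) (t : ℝ) (h : ℝ × ℝ → ℂ) (J : ℕ) (z : ℝ × ℝ) :
    (BQ σ p ω τ t (2 ^ J))ᶜ.indicator h z =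
      ∑ k ∈ Finset.range (J + 1), (AQ σ p ω τ t k).indicator h z := by
  induction J with
  | zero => simp [AQ]
  | succ J ih =>
    rw [Finset.sum_range_succ, ← ih]
    have hsub := BQ_anti σ p ω τ t (2 ^ J) (2 ^ (J + 1)) (by positivity)
      (pow_le_pow_right₀ (by norm_num) (by omega))
    by_cases h1 : z ∈ BQ σ p ω τ t (2 ^ J)
    · have e1 : z ∉ (BQ σ p ω τ t (2 ^ J))ᶜ := fun h => h h1
      rw [indicator_of_notMem e1, zero_add]
      by_cases h2 : z ∈ BQ σ p ω τ t (2 ^ (J + 1))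
      · rw [indicator_of_notMem (show z ∉ (BQ σ p ω τ t (2 ^ (J + 1)))ᶜ from fun h => h h2),
          indicator_of_notMem (show z ∉ AQ σ p ω τ t (J + 1) from fun h => h.2 h2)]
      · rw [indicator_of_mem (show z ∈ (BQ σ p ω τ t (2 ^ (J + 1)))ᶜ from h2),
          indicator_of_mem (show z ∈ AQ σ p ω τ t (J + 1) from ⟨h1, h2⟩)]
    · have h2 : z ∉ BQ σ p ω τ t (2 ^ (J + 1)) := fun h => h1 (hsub h)
      rw [indicator_of_mem (show z ∈ (BQ σ p ω τ t (2 ^ (J + 1)))ᶜ from h2),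
        indicator_of_mem (show z ∈ (BQ σ p ω τ t (2 ^ J))ᶜ from h1),
        indicator_of_notMem (show z ∉ AQ σ p ω τ t (J + 1) from fun h => h1 h.1), add_zero]

/-- the zone -/
def ZZ (τ : Poly) (i : Sg × ℕ) : Set (ℝ × ℝ) := Zn (e1p i.1 i.2 τ) (e2p i.1 i.2 τ)

lemma ZZ_meas (τ : Poly) (i : Sg × ℕ) : MeasurableSet (ZZ τ i) := Zn_meas _ _

/-- the zones in terms of the values -/
def zr : Sg × ℕ → ℝ → Prop
  | (.zero, μ), s => μ = 0 ∧ |s| < 1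
  | (.pos, μ), s => 2 ^ μ ≤ s ∧ s < 2 ^ (μ + 1)
  | (.neg, μ), s => 2 ^ μ ≤ -s ∧ -s < 2 ^ (μ + 1)

lemma mem_ZZ (τ : Poly) (i : Sg × ℕ) (z : ℝ × ℝ) : z ∈ ZZ τ i ↔ zr i (ev τ z) := by
  obtain ⟨σ, μ⟩ := i
  unfold ZZ Zn
  simp only [mem_ofPred_eq]
  cases σ
  · simp only [e1p, e2p, ev_sub, ev_mul, ev_C, zr]
    constructor
    · rintro ⟨h1, h2⟩
      constructor
      · by_contra hμ
        have h3 : 1 ≤ μ := Nat.one_le_iff_ne_zero.mpr hμ
        have h4 : (1 : ℝ) ≤ μ := by exact_mod_cast h3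
        linarith
      · rw [abs_lt]
        constructor <;> nlinarith
    · rintro ⟨h1, h2⟩
      rw [h1]
      rw [abs_lt] at h2
      constructor
      · norm_num
      · nlinarith
  · simp only [e1p, e2p, ev_sub, ev_C, zr]
    constructor
    · rintro ⟨h1, h2⟩
      exact ⟨by linarith, by linarith⟩
    · rintro ⟨h1, h2⟩
      exact ⟨by linarith, by linarith⟩
  · simp only [e1p, e2p, ev_sub, ev_add, ev_neg, ev_C, zr]
    constructor
    · rintro ⟨h1, h2⟩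
      exact ⟨by linarith, by linarith⟩
    · rintro ⟨h1, h2⟩
      exact ⟨by linarith, by linarith⟩

lemma pow_uniq (s : ℝ) (μ ν : ℕ) (h1 : 2 ^ μ ≤ s) (h2 : s < 2 ^ (μ + 1)) (h3 : 2 ^ ν ≤ s)
    (h4 : s < 2 ^ (ν + 1)) : μ = ν := by
  have a : μ < ν + 1 := (pow_lt_pow_iff_right₀ (show (1 : ℝ) < 2 by norm_num)).mp (lt_of_le_of_lt h1 h4)
  have b : ν < μ + 1 := (pow_lt_pow_iff_right₀ (show (1 : ℝ) < 2 by norm_num)).mp (lt_of_le_of_lt h3 h2)
  omega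

lemma zr_uniq (i j : Sg × ℕ) (s : ℝ) (hi : zr i s) (hj : zr j s) : i = j := by
  obtain ⟨σ, μ⟩ := i
  obtain ⟨σ', ν⟩ := j
  have hp : ∀ n : ℕ, (1 : ℝ) ≤ 2 ^ n := fun n => one_le_pow₀ (by norm_num)
  have h1 := hp μ
  have h2 := hp ν
  cases σ <;> cases σ' <;> simp only [zr, abs_lt] at hi hj
  · rw [hi.1, hj.1]
  · linarith [hi.2.2, hj.1]
  · linarith [hi.2.1, hj.1]
  · linarith [hj.2.2, hi.1]
  · rw [pow_uniq s μ ν hi.1 hi.2 hj.1 hj.2]
  · linarith [hi.1, hj.1]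
  · linarith [hj.2.1, hi.1]
  · linarith [hi.1, hj.1]
  · rw [pow_uniq (-s) μ ν hi.1 hi.2 hj.1 hj.2]

lemma zr_ex (s : ℝ) (J : ℕ) (hJ : |s| < 2 ^ J) (hJ1 : 1 ≤ J) : ∃ i : Sg × ℕ, i.2 < J ∧ zr i s := by
  rcases lt_or_ge |s| 1 with h | h
  · exact ⟨(.zero, 0), by simp only; omega, rfl, h⟩
  · obtain ⟨n, hn1, hn2⟩ := exists_nat_pow_near h (show (1 : ℝ) < 2 by norm_num)
    have hnJ : n < J := (pow_lt_pow_iff_right₀ (show (1 : ℝ) < 2 by norm_num)).mp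
      (lt_of_le_of_lt hn1 hJ)
    rcases le_total 0 s with h0 | h0
    · rw [abs_of_nonneg h0] at hn1 hn2
      exact ⟨(.pos, n), hnJ, hn1, hn2⟩
    · rw [abs_of_nonpos h0] at hn1 hn2
      exact ⟨(.neg, n), hnJ, hn1, hn2⟩

/-- the pieces -/
def PC (p ω τ : Poly) (t : ℝ) (i : (Sg × ℕ) × ℕ) : Set (ℝ × ℝ) := AQ i.1.1 p ω τ t i.2 ∩ ZZ τ i.1

lemma PC_meas (p ω τ : Poly) (t : ℝ) (i : (Sg × ℕ) × ℕ) : MeasurableSet (PC p ω τ t i) :=
  (AQ_meas _ _ _ _ _ _).inter (ZZ_meas _ _)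

lemma Tp_one {τ : Poly} {i : Sg × ℕ} {z : ℝ × ℝ} (hz : z ∈ ZZ τ i) : 1 ≤ ev (Tp i.1 τ) z :=
  le_trans (one_le_pow₀ (by norm_num)) (T_low (Zn_sub _ _ hz))

lemma BQ_empty (p ω τ : Poly) (t : ℝ) : ∃ J : ℕ, ∀ i : Sg × ℕ, ∀ z ∈ SQ, z ∈ ZZ τ i →
    z ∉ BQ i.1 p ω τ t (2 ^ J) := by
  have hc : IsCompact SQ := isCompact_Icc.prod isCompact_Icc
  have h0 : ∀ σ : Sg, ∃ J : ℕ, ∀ z ∈ SQ, 1 ≤ ev (Tp σ τ) z → z ∉ BQ σ p ω τ t (2 ^ J) := by
    intro σ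
    obtain ⟨M, hM⟩ := (hc.image ((ev_cont (mtR 0 (Np σ (Ph p 0 t) ω τ) (Tp σ τ))))).bddAbove
    obtain ⟨J, hJ⟩ := pow_unbounded_of_one_lt M (show (1 : ℝ) < 2 by norm_num)
    refine ⟨J, fun z hz hT hzB => ?_⟩
    have h1 := hM (mem_image_of_mem _ hz)
    have h2 := hzB.1
    rw [ev_mtR] at h1 h2
    have h3 : (1 : ℝ) ≤ 2 ^ J := one_le_pow₀ (by norm_num)
    have h4 : (1 : ℝ) ≤ ev (Tp σ τ) z ^ 6 := one_le_pow₀ hT
    have h5 : (2 : ℝ) ^ J ≤ (2 ^ J) ^ 2 * ev (Tp σ τ) z ^ 6 := by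
      calc (2 : ℝ) ^ J = 2 ^ J * 1 * 1 := by ring
        _ ≤ 2 ^ J * 2 ^ J * ev (Tp σ τ) z ^ 6 := by gcongr
        _ = _ := by ring
    nlinarith
  choose J hJ using h0
  refine ⟨J .zero + J .pos + J .neg, ?_⟩
  rintro ⟨σ, μ⟩ z hz hzZ hzB
  apply hJ σ z hz (Tp_one hzZ)
  refine BQ_anti σ p ω τ t _ _ (by positivity) (pow_le_pow_right₀ (by norm_num) ?_) hzB
  cases σ <;> omega

/-- **the decomposition of the square** -/
lemma PC_sum (p ω τ : Poly) (t : ℝ) : ∃ F : Finset ((Sg × ℕ) × ℕ), ∀ (h : ℝ × ℝ → ℂ), ∀ z ∈ SQ,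
    h z = ∑ i ∈ F, (PC p ω τ t i).indicator h z := by
  have hc : IsCompact SQ := isCompact_Icc.prod isCompact_Icc
  obtain ⟨J, hJ⟩ := BQ_empty p ω τ t
  obtain ⟨M, hM⟩ := (hc.image ((ev_cont τ).abs)).bddAbove
  obtain ⟨J', hJ'⟩ := pow_unbounded_of_one_lt M (show (1 : ℝ) < 2 by norm_num)
  refine ⟨(Finset.univ ×ˢ Finset.range (J' + 1)) ×ˢ Finset.range (J + 1), ?_⟩
  intro h z hz
  have h1 : |ev τ z| < 2 ^ (J' + 1) := by
    have h2 := hM (mem_image_of_mem _ hz)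
    rw [pow_succ]
    have : (0 : ℝ) < 2 ^ J' := by positivity
    linarith
  obtain ⟨i, hi1, hi2⟩ := zr_ex (ev τ z) (J' + 1) h1 (by omega)
  rw [Finset.sum_product]
  rw [Finset.sum_eq_single_of_mem i (by
    rw [Finset.mem_product]
    exact ⟨Finset.mem_univ _, Finset.mem_range.mpr hi1⟩)]
  · have hzi : z ∈ ZZ τ i := (mem_ZZ τ i z).mpr hi2
    have h3 := AQ_sum i.1 p ω τ t h J z
    rw [indicator_of_mem (show z ∈ (BQ i.1 p ω τ t (2 ^ J))ᶜ from hJ i z hz hzi)] at h3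
    rw [h3]
    apply Finset.sum_congr rfl
    intro k _
    by_cases h4 : z ∈ AQ i.1 p ω τ t k
    · rw [indicator_of_mem h4, indicator_of_mem (show z ∈ PC p ω τ t (i, k) from ⟨h4, hzi⟩)]
    · rw [indicator_of_notMem h4, indicator_of_notMem (show z ∉ PC p ω τ t (i, k) from
        fun h => h4 h.1)]
  · intro j _ hji
    apply Finset.sum_eq_zero
    intro k _
    apply indicator_of_notMem
    intro h4
    exact hji (zr_uniq j i _ ((mem_ZZ τ j z).mp h4.2) hi2)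

lemma deg_Tp {D : ℕ} {τ : Poly} (hτ : τ.totalDegree ≤ D) (σ : Sg) : (Tp σ τ).totalDegree ≤ D := by
  cases σ
  · exact deg_C 1 D
  · exact hτ
  · simp only [Tp, MvPolynomial.totalDegree_neg]
    exact hτ

lemma deg_Np {D : ℕ} {P ω τ : Poly} (hP : P.totalDegree ≤ D + 2) (hω : ω.totalDegree ≤ D)
    (hτ : τ.totalDegree ≤ D) (σ : Sg) : (Np σ P ω τ).totalDegree ≤ 2 * D + 2 := by
  unfold Np
  apply deg_sub
  · exact (deg_mul (deg_Tp hτ σ) hP).trans (by omega)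
  · exact (deg_mul (deg_C _ 0) (deg_mul hω hω)).trans (by omega)

lemma deg_e1p {D : ℕ} {τ : Poly} (hτ : τ.totalDegree ≤ D) (σ : Sg) (μ : ℕ) :
    (e1p σ μ τ).totalDegree ≤ 2 * D + 2 := by
  cases σ
  · exact deg_C _ _
  · exact deg_sub (hτ.trans (by omega)) (deg_C _ _)
  · apply deg_sub _ (deg_C _ _)
    rw [MvPolynomial.totalDegree_neg]
    omega

lemma deg_e2p {D : ℕ} {τ : Poly} (hτ : τ.totalDegree ≤ D) (σ : Sg) (μ : ℕ) :
    (e2p σ μ τ).totalDegree ≤ 2 * D + 2 := by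
  cases σ
  · exact deg_sub (deg_C _ _) ((deg_mul hτ hτ).trans (by omega))
  · exact deg_sub (deg_C _ _) (hτ.trans (by omega))
  · exact deg_add (deg_C _ _) (hτ.trans (by omega))

/-- the integrand in the zone -/
lemma amp_zone (σ : Sg) (μ : ℕ) (P ω τ : Poly) (z : ℝ × ℝ) (hz : z ∈ ZZ τ (σ, μ)) :
    amp σ ω τ z * exR (Np σ P ω τ) (Tp σ τ) (2 ^ μ) z = amp .zero ω τ z * ex P z := by
  have hT := T_low (Zn_sub _ _ hz)
  have hp : (0 : ℝ) < 2 ^ μ := by positivity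
  rw [exR_eq _ _ hp z hT]
  have hT0 : ev (Tp σ τ) z ≠ 0 := by linarith
  have e1 : ev (Np σ P ω τ) z / ev (Tp σ τ) z = ev P z - ka σ * ev ω z ^ 2 / ev (Tp σ τ) z := by
    unfold Np
    rw [ev_sub, ev_mul, ev_mul, ev_mul, ev_C]
    field_simp
  rw [e1]
  unfold amp am2 ex
  rw [mul_assoc, mul_assoc]
  congr 1
  unfold hf
  rw [← Complex.exp_add, ← Complex.exp_add]
  congr 1
  have hl := la_pos (ev τ z)
  have key : ev ω z ^ 2 / (4 * la (ev τ z)) * iot σ (ev τ z) +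
      (ev P z - ka σ * ev ω z ^ 2 / ev (Tp σ τ) z) =
      ev ω z ^ 2 / (4 * la (ev τ z)) * iot .zero (ev τ z) + ev P z := by
    cases σ
    · simp only [ka, zero_mul, zero_div, sub_zero]
    · simp only [Tp] at hT0 ⊢
      simp only [ka, iot]
      unfold la at hl ⊢
      field_simp
      ring
    · simp only [Tp, ev_neg] at hT0 ⊢
      have hs : ev τ z ≠ 0 := fun h => hT0 (by rw [h, neg_zero])
      simp only [ka, iot]
      unfold la at hl ⊢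
      field_simp
      ring
  have key2 := congrArg (fun x : ℝ => (x : ℂ)) key
  push_cast at key2 ⊢
  linear_combination I * key2

end Pool.Agent.Helper35.CP
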