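import Pool.Agent.Helper35.CP.F
set_option autoImplicit false

/-! The estimate for fixed time and fixed third variable. -/

namespace Pool.Agent.Helper35.CP

open MeasureTheory Set Filter Topology Complex
open scoped ENNReal NNReal
open Pool.Agent.Y183.PP
open Pool.Agent.Helper35.MP (la la_one la_pos kf kf_norm norm_one_sub)

/-- the index set -/
abbrev Ix := (Sg × ℕ) × ℕ

/-- the sup bounds of the pieces -/
noncomputable def SR (D : ℕ) : Ix → ℝ
  | ((_, μ), 0) => 4 * Vm μ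
  | ((_, μ), (j + 1)) => 2 * (c2R (2 * D + 2) (5 * D) * Vm μ * (1 + j) / 2 ^ j)

lemma amp0_two (ω τ : Poly) (z : ℝ × ℝ) : ‖amp .zero ω τ z‖ ≤ 2 := by
  refine (am2_le .zero _ _).trans ?_
  have h := kf_le (ev τ z) 1 one_pos (by rw [one_pow]; exact la_one _)
  simpa using h

lemma amp_norm_eq (σ : Sg) (ω τ : Poly) (z : ℝ × ℝ) : ‖amp σ ω τ z‖ = ‖amp .zero ω τ z‖ := by
  unfold amp
  rw [am2_norm, am2_norm]

lemma PC_succ (p ω τ : Poly) (t : ℝ) (σ : Sg) (μ j : ℕ) : PC p ω τ t ((σ, μ), j + 1) =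
    (BQ σ p ω τ t (2 ^ j) \ BQ σ p ω τ t (2 ^ (j + 1))) ∩ Zn (e1p σ μ τ) (e2p σ μ τ) := rfl

lemma sup_piece {D : ℕ} {p ω τ : Poly} (hp : p.totalDegree ≤ D) (hω : ω.totalDegree ≤ D)
    (hτ : τ.totalDegree ≤ D) (i : Ix) (y : ℝ × ℝ) (t : ℝ) :
    ‖Fp p (amp .zero ω τ) (PC p ω τ t i) y t‖ₑ ≤ ENNReal.ofReal (SR D i) := by
  obtain ⟨⟨σ, μ⟩, k⟩ := i
  have hpo : (0 : ℝ) < 2 ^ μ := by positivity
  have hB : (0 : ℝ) < ((2 : ℝ) ^ μ) ^ (-(1 / 2) : ℝ) := by positivity
  have hle : ∀ z ∈ Zn (e1p σ μ τ) (e2p σ μ τ), ‖amp σ ω τ z‖ ≤ Vm μ := by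
    intro z hz
    refine (amp_le (Zn_sub _ _ hz)).trans ?_
    unfold Vm
    linarith
  cases k with
  | zero =>
    have hb : ∀ z, ‖(PC p ω τ t ((σ, μ), 0)).indicator
        (fun z => amp .zero ω τ z * ex (Ph p y t) z) z‖ ≤ Vm μ := by
      intro z
      by_cases h : z ∈ PC p ω τ t ((σ, μ), 0)
      · rw [indicator_of_mem h, norm_mul, ex_norm, mul_one, ← amp_norm_eq σ]
        exact hle z h.2
      · rw [indicator_of_notMem h, norm_zero]
        exact (Vm_pos μ).le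
    have hfin : IsFiniteMeasure ((volume : Measure (ℝ × ℝ)).restrict SQ) := ⟨by
      rw [Measure.restrict_apply_univ, SQ_vol]
      norm_num⟩
    have h1 : ‖Fp p (amp .zero ω τ) (PC p ω τ t ((σ, μ), 0)) y t‖ ≤
        Vm μ * (volume.restrict SQ).real univ :=
      norm_integral_le_of_norm_le_const (ae_of_all _ hb)
    rw [← ofReal_norm]
    apply ENNReal.ofReal_le_ofReal
    refine h1.trans (le_of_eq ?_)
    rw [Measure.real, Measure.restrict_apply_univ, SQ_vol]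
    simp [SR]
    ring
  | succ j =>
    have hP : (Ph p y t).totalDegree ≤ D + 2 := deg_Ph hp y t
    have h1 := supR (M := 5 * D) (deg_Np hP hω hτ σ) ((deg_Tp hτ σ).trans (by omega))
      (deg_e1p hτ σ μ) (deg_e2p hτ σ μ) hpo (fun z hz => T_low hz) j (2 ^ (j + 1)) (amp σ ω τ)
      (amp_meas σ ω τ) (Vm μ) (Vm_pos μ).le hle (amp_var hω hτ σ μ) (amp_var' hω hτ σ μ)
    have e : Fp p (amp .zero ω τ) (PC p ω τ t ((σ, μ), j + 1)) y t =
        ∫ z in SQ, (RegR (2 ^ j) (2 ^ (j + 1)) (Np σ (Ph p y t) ω τ) (Tp σ τ) ∩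
          Zn (e1p σ μ τ) (e2p σ μ τ)).indicator
            (fun z => amp σ ω τ z * exR (Np σ (Ph p y t) ω τ) (Tp σ τ) (2 ^ μ) z) z := by
      unfold Fp
      apply setIntegral_congr_fun SQ_meas
      intro z _
      have hS : RegR (2 ^ j) (2 ^ (j + 1)) (Np σ (Ph p y t) ω τ) (Tp σ τ) ∩
          Zn (e1p σ μ τ) (e2p σ μ τ) = PC p ω τ t ((σ, μ), j + 1) := by
        rw [PC_succ]
        unfold RegR BQ
        rw [BBR_y σ p ω τ y t (2 ^ j), BBR_y σ p ω τ y t (2 ^ (j + 1))]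
      rw [hS]
      by_cases h : z ∈ PC p ω τ t ((σ, μ), j + 1)
      · rw [indicator_of_mem h, indicator_of_mem h]
        exact (amp_zone σ μ (Ph p y t) ω τ z h.2).symm
      · rw [indicator_of_notMem h, indicator_of_notMem h]
    rw [e]
    exact h1

/-- **the estimate for fixed time and third variable** -/
lemma fixedR {D : ℕ} {p ω τ : Poly} (hp : p.totalDegree ≤ D) (hω : ω.totalDegree ≤ D)
    (hτ : τ.totalDegree ≤ D) (q : ℝ) (hq : 2 ≤ q) (a : Ix → ℝ≥0∞) (ha0 : ∀ i, a i ≠ 0)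
    (ha : ∀ i, a i ≠ ∞) (t : ℝ) :
    ∫⁻ y, ‖∫ z in SQ, amp .zero ω τ z * ex (Ph p y t) z‖ₑ ^ q ≤
      (∑' i, a i) ^ (q - 1) * ∑' i, a i ^ (1 - q) * (ENNReal.ofReal (SR D i) ^ (q - 2) *
          ∫⁻ z in SQ ∩ PC p ω τ t i, ‖amp .zero ω τ z‖ₑ ^ 2) := by
  obtain ⟨F, hF⟩ := PC_sum p ω τ t
  set g : ℝ × ℝ → ℂ := amp .zero ω τ with hg
  have hgm : Measurable g := amp_meas _ _ _
  have hV : (0 : ℝ) ≤ 2 := by norm_num
  have hgB : ∀ z, ‖g z‖ ≤ 2 := amp0_two ω τ
  have hdec : ∀ y, ∫ z in SQ, g z * ex (Ph p y t) z = ∑ i ∈ F, Fp p g (PC p ω τ t i) y t := by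
    intro y
    unfold Fp
    rw [← integral_finsetSum _ (fun i _ => part_int p g hgm 2 hV hgB _ (PC_meas p ω τ t i) y t)]
    apply setIntegral_congr_fun SQ_meas
    intro z hz
    exact hF (fun z => g z * ex (Ph p y t) z) z hz
  have hpart : ∀ i, ∫⁻ y, ‖Fp p g (PC p ω τ t i) y t‖ₑ ^ q ≤
      ENNReal.ofReal (SR D i) ^ (q - 2) * ∫⁻ z in SQ ∩ PC p ω τ t i, ‖g z‖ₑ ^ 2 :=
    fun i => MP.part_qA p g hgm 2 hV hgB _ (PC_meas p ω τ t i) t q hq _ ENNReal.ofReal_ne_top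
      (fun y => sup_piece hp hω hτ i y t)
  have hsumF : ∑ i ∈ F, a i ≤ ∑' i, a i := ENNReal.sum_le_tsum F
  have hmeas : ∀ i, Measurable fun y => ‖Fp p g (PC p ω τ t i) y t‖ₑ ^ q := by
    intro i
    apply Measurable.pow_const
    apply Measurable.enorm
    unfold Fp
    apply StronglyMeasurable.measurable
    apply StronglyMeasurable.integral_prod_right'
      (f := fun w : (ℝ × ℝ) × (ℝ × ℝ) =>
        (PC p ω τ t i).indicator (fun z => g z * ex (Ph p w.1 t) z) w.2)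
    apply Measurable.stronglyMeasurable
    have e : (fun w : (ℝ × ℝ) × (ℝ × ℝ) =>
        (PC p ω τ t i).indicator (fun z => g z * ex (Ph p w.1 t) z) w.2) =
        fun w => ((PC p ω τ t i).indicator (fun z => g z * ex (Ph p 0 t) z) w.2) * ch w.1 w.2 := by
      ext w
      by_cases h : w.2 ∈ PC p ω τ t i
      · rw [indicator_of_mem h, indicator_of_mem h, ex_Ph]
        ring
      · rw [indicator_of_notMem h, indicator_of_notMem h, zero_mul]
    rw [e]
    apply Measurable.mul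
    · exact ((hgm.mul (ex_cont _).measurable).indicator (PC_meas p ω τ t i)).comp measurable_snd
    · unfold ch
      fun_prop
  calc ∫⁻ y, ‖∫ z in SQ, g z * ex (Ph p y t) z‖ₑ ^ q ≤
        ∫⁻ y, (∑ i ∈ F, a i) ^ (q - 1) * ∑ i ∈ F, a i ^ (1 - q) *
          ‖Fp p g (PC p ω τ t i) y t‖ₑ ^ q := by
          apply lintegral_mono
          intro y
          simp only
          rw [hdec]
          refine le_trans ?_ (wsum F a (fun i => ‖Fp p g (PC p ω τ t i) y t‖ₑ) q (by linarith) ha0 ha)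
          gcongr
          exact enorm_sum_le _ _
      _ = (∑ i ∈ F, a i) ^ (q - 1) * ∑ i ∈ F, a i ^ (1 - q) *
          ∫⁻ y, ‖Fp p g (PC p ω τ t i) y t‖ₑ ^ q := by
          rw [lintegral_const_mul', lintegral_finsetSum]
          · congr 1
            apply Finset.sum_congr rfl
            intro i _
            rw [lintegral_const_mul _ (hmeas i)]
          · intro i _
            exact (hmeas i).const_mul _
          · apply ENNReal.rpow_ne_top_of_nonneg (by linarith)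
            exact (ENNReal.sum_lt_top.mpr fun i _ => (ha i).lt_top).ne
      _ ≤ (∑' i, a i) ^ (q - 1) * ∑ i ∈ F, a i ^ (1 - q) * (ENNReal.ofReal (SR D i) ^ (q - 2) *
          ∫⁻ z in SQ ∩ PC p ω τ t i, ‖g z‖ₑ ^ 2) := by
          exact mul_le_mul' (ENNReal.rpow_le_rpow hsumF (by linarith))
            (Finset.sum_le_sum fun i _ => mul_le_mul_right (hpart i) _)
      _ ≤ _ := by
          gcongr
          exact ENNReal.sum_le_tsum F

end Pool.Agent.Helper35.CP
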