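import Pool.Agent.Helper35.CP.G
set_option autoImplicit false

/-! Families of polynomials; measurability in all variables; the measure of the degenerate times. -/

namespace Pool.Agent.Helper35.CP

open MeasureTheory Set Filter Topology Complex
open scoped ENNReal NNReal
open Pool.Agent.Y183.PP
open Pool.Agent.Helper35.MP (la la_one la_pos kf kf_norm norm_one_sub)

/-- families of polynomials with continuous coefficients -/
inductive Fam {X : Type} [TopologicalSpace X] : (X → Poly) → Prop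
  | base (f : X → ℝ) (hf : Continuous f) (Q : Poly) : Fam fun w => MvPolynomial.C (f w) * Q
  | add (A B : X → Poly) (hA : Fam A) (hB : Fam B) : Fam fun w => A w + B w

namespace Fam

variable {X : Type} [TopologicalSpace X]

lemma const (Q : Poly) : Fam fun _ : X => Q := by
  have h := Fam.base (fun _ : X => (1 : ℝ)) continuous_const Q
  simpa using h

lemma coef {f : X → ℝ} (hf : Continuous f) : Fam fun w : X => (MvPolynomial.C (f w) : Poly) := by
  have h := Fam.base f hf 1
  simpa using h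

lemma smul {A : X → Poly} (hA : Fam A) {f : X → ℝ} (hf : Continuous f) (Q : Poly) :
    Fam fun w => MvPolynomial.C (f w) * Q * A w := by
  induction hA with
  | base g hg R =>
    have h := Fam.base (fun w => f w * g w) (hf.mul hg) (Q * R)
    have e : (fun w => MvPolynomial.C (f w) * Q * (MvPolynomial.C (g w) * R)) =
        fun w => MvPolynomial.C (f w * g w) * (Q * R) := by
      ext1 w
      rw [map_mul]
      ring
    rw [e]
    exact h
  | add A B hA hB iA iB =>
    have h := Fam.add _ _ iA iB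
    have e : (fun w => MvPolynomial.C (f w) * Q * (A w + B w)) =
        fun w => MvPolynomial.C (f w) * Q * A w + MvPolynomial.C (f w) * Q * B w := by
      ext1 w
      ring
    rw [e]
    exact h

lemma mul {A B : X → Poly} (hA : Fam A) (hB : Fam B) : Fam fun w => A w * B w := by
  induction hA with
  | base f hf Q => exact hB.smul hf Q
  | add A A' hA hA' iA iA' =>
    have h := Fam.add _ _ iA iA'
    have e : (fun w => (A w + A' w) * B w) = fun w => A w * B w + A' w * B w := by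
      ext1 w
      ring
    rw [e]
    exact h

lemma neg {A : X → Poly} (hA : Fam A) : Fam fun w => -A w := by
  have h := (const (X := X) (-1)).mul hA
  have e : (fun w => -A w) = fun w => -1 * A w := by
    ext1 w
    ring
  rw [e]
  exact h

lemma sub {A B : X → Poly} (hA : Fam A) (hB : Fam B) : Fam fun w => A w - B w := by
  have h := Fam.add _ _ hA hB.neg
  have e : (fun w => A w - B w) = fun w => A w + -B w := by
    ext1 w
    ring
  rw [e]
  exact h

lemma pow {A : X → Poly} (hA : Fam A) (n : ℕ) : Fam fun w => A w ^ n := by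
  induction n with
  | zero => simpa using const (X := X) 1
  | succ n ih =>
    simp only [pow_succ]
    exact ih.mul hA

lemma pd {A : X → Poly} (hA : Fam A) (i : Fin 2) : Fam fun w => MvPolynomial.pderiv i (A w) := by
  induction hA with
  | base f hf Q =>
    simp only [MvPolynomial.pderiv_C_mul]
    exact Fam.base f hf _
  | add A B hA hB iA iB =>
    simp only [map_add]
    exact Fam.add _ _ iA iB

lemma ev_cont {A : X → Poly} (hA : Fam A) {z : X → ℝ × ℝ} (hz : Continuous z) :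
    Continuous fun w => ev (A w) (z w) := by
  induction hA with
  | base f hf Q =>
    simp only [ev_mul, ev_C]
    exact hf.mul ((Pool.Agent.Y183.PP.ev_cont Q).comp hz)
  | add A B hA hB iA iB =>
    simp only [ev_add]
    exact iA.add iB

lemma fn1 {N T : X → Poly} (hN : Fam N) (hT : Fam T) : Fam fun w => n1 (N w) (T w) :=
  ((hN.pd 0).mul hT).sub (hN.mul (hT.pd 0))

lemma fn2 {N T : X → Poly} (hN : Fam N) (hT : Fam T) : Fam fun w => n2 (N w) (T w) :=
  ((hN.pd 1).mul hT).sub (hN.mul (hT.pd 1))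

lemma fn11 {N T : X → Poly} (hN : Fam N) (hT : Fam T) : Fam fun w => n11 (N w) (T w) :=
  (((fn1 hN hT).pd 0).mul hT).sub ((const _).mul ((fn1 hN hT).mul (hT.pd 0)))

lemma fn12 {N T : X → Poly} (hN : Fam N) (hT : Fam T) : Fam fun w => n12 (N w) (T w) :=
  (((fn1 hN hT).pd 1).mul hT).sub ((const _).mul ((fn1 hN hT).mul (hT.pd 1)))

lemma fn22 {N T : X → Poly} (hN : Fam N) (hT : Fam T) : Fam fun w => n22 (N w) (T w) :=
  (((fn2 hN hT).pd 1).mul hT).sub ((const _).mul ((fn2 hN hT).mul (hT.pd 1)))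

lemma fmt {N T : X → Poly} (hN : Fam N) (hT : Fam T) (s : ℝ) : Fam fun w => mtR s (N w) (T w) :=
  ((Fam.add _ _ (Fam.add _ _ ((fn11 hN hT).pow 2) ((const _).mul ((fn12 hN hT).pow 2)))
    ((fn22 hN hT).pow 2))).sub ((const _).mul (hT.pow 6))

lemma fmd {N T : X → Poly} (hN : Fam N) (hT : Fam T) (s : ℝ) : Fam fun w => mdR s (N w) (T w) := by
  have h6 : Fam fun w => (MvPolynomial.C (s ^ 2) * T w ^ 6 : Poly) := (const _).mul (hT.pow 6)
  have a := (fn11 hN hT).pow 2
  have b := (fn12 hN hT).pow 2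
  have c := (fn22 hN hT).pow 2
  exact (((Fam.add _ _ a b).sub h6).mul ((Fam.add _ _ b c).sub h6)).sub
    (b.mul ((Fam.add _ _ (fn11 hN hT) (fn22 hN hT)).pow 2))

end Fam

/-- the space of all variables -/
abbrev Sp := ℝ × (Fin 1 → ℝ) × (ℝ × ℝ)

/-- the shifted polynomials -/
noncomputable def sh (r : Poly) (x : ℝ) : Poly := r + MvPolynomial.C (2 * Real.pi * x)

lemma ev_sh (r : Poly) (x : ℝ) (z : ℝ × ℝ) : ev (sh r x) z = ev r z + 2 * Real.pi * x := by
  unfold sh
  rw [ev_add, ev_C]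

lemma pd_sh (i : Fin 2) (r : Poly) (x : ℝ) : MvPolynomial.pderiv i (sh r x) = MvPolynomial.pderiv i r := by
  unfold sh
  rw [map_add, MvPolynomial.pderiv_C, add_zero]

lemma deg_sh {D : ℕ} {r : Poly} (hr : r.totalDegree ≤ D) (x : ℝ) : (sh r x).totalDegree ≤ D :=
  deg_add hr (deg_C _ _)

lemma sh_fam {X : Type} [TopologicalSpace X] (r : Poly) {x : X → ℝ} (hx : Continuous x) :
    Fam fun w => sh r (x w) :=
  Fam.add _ _ (Fam.const r) (Fam.coef (continuous_const.mul hx))

lemma Tp_fam {X : Type} [TopologicalSpace X] (σ : Sg) {τ : X → Poly} (hτ : Fam τ) :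
    Fam fun w => Tp σ (τ w) := by
  cases σ
  · exact Fam.const _
  · exact hτ
  · exact hτ.neg

lemma Np_fam {X : Type} [TopologicalSpace X] (σ : Sg) {P ω τ : X → Poly} (hP : Fam P) (hω : Fam ω)
    (hτ : Fam τ) : Fam fun w => Np σ (P w) (ω w) (τ w) :=
  ((Tp_fam σ hτ).mul hP).sub ((Fam.const _).mul (hω.mul hω))

lemma Ph_fam {X : Type} [TopologicalSpace X] (p : Poly) {t : X → ℝ} (ht : Continuous t) :
    Fam fun w => Ph p 0 (t w) := by
  unfold Ph
  refine Fam.add _ _ (Fam.add _ _ (Fam.add _ _ (Fam.const _) ?_) (Fam.const _)) (Fam.const _)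
  exact (Fam.coef (continuous_const.mul ht)).mul (Fam.const _)

section

variable (p r c : Poly) (α : ℝ)

lemma BQ_joint (σ : Sg) (s : ℝ) : MeasurableSet {w : Sp |
    w.2.2 ∈ BQ σ p (sh r (w.2.1 0)) (sh c w.1) (α * w.1) s} := by
  have hx : Continuous fun w : Sp => w.2.1 0 := by fun_prop
  have ht : Continuous fun w : Sp => w.1 := by fun_prop
  have hz : Continuous fun w : Sp => w.2.2 := by fun_prop
  have hN := Np_fam σ (Ph_fam p (continuous_const.mul ht : Continuous fun w : Sp => α * w.1))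
    (sh_fam r hx) (sh_fam c ht)
  have hT := Tp_fam σ (sh_fam c ht)
  exact ((isOpen_lt continuous_const ((Fam.fmt hN hT s).ev_cont hz)).inter
    (isOpen_lt continuous_const ((Fam.fmd hN hT s).ev_cont hz))).measurableSet

lemma AQ_joint (σ : Sg) (k : ℕ) : MeasurableSet {w : Sp |
    w.2.2 ∈ AQ σ p (sh r (w.2.1 0)) (sh c w.1) (α * w.1) k} := by
  cases k with
  | zero => exact (BQ_joint p r c α σ 1).compl
  | succ j => exact (BQ_joint p r c α σ _).diff (BQ_joint p r c α σ _)

lemma ZZ_joint (i : Sg × ℕ) : MeasurableSet {w : Sp | w.2.2 ∈ ZZ (sh c w.1) i} := by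
  have ht : Continuous fun w : Sp => w.1 := by fun_prop
  have hz : Continuous fun w : Sp => w.2.2 := by fun_prop
  have hs := sh_fam c ht
  have h1 : Fam fun w : Sp => e1p i.1 i.2 (sh c w.1) := by
    obtain ⟨σ, μ⟩ := i
    cases σ
    · exact Fam.const _
    · exact hs.sub (Fam.const _)
    · exact hs.neg.sub (Fam.const _)
  have h2 : Fam fun w : Sp => e2p i.1 i.2 (sh c w.1) := by
    obtain ⟨σ, μ⟩ := i
    cases σ
    · exact (Fam.const _).sub (hs.mul hs)
    · exact (Fam.const _).sub hs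
    · exact Fam.add _ _ (Fam.const _) hs
  exact (isClosed_le continuous_const (h1.ev_cont hz)).measurableSet.inter
    (isOpen_lt continuous_const (h2.ev_cont hz)).measurableSet

/-- the pieces in all variables -/
def SP (i : Ix) : Set Sp := {w | w.2.2 ∈ PC p (sh r (w.2.1 0)) (sh c w.1) (α * w.1) i}

lemma SP_meas (i : Ix) : MeasurableSet (SP p r c α i) :=
  (AQ_joint p r c α i.1.1 i.2).inter (ZZ_joint c i.1)

/-- the weight -/
noncomputable def wt (w s : ℝ) : ℝ := Real.pi / Real.sqrt (la s) * Real.exp (-(w ^ 2 / (2 * la s)))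

lemma wt_nonneg (w s : ℝ) : 0 ≤ wt w s := by
  unfold wt
  have := Real.pi_pos
  positivity

lemma amp_wt (ω τ : Poly) (z : ℝ × ℝ) : ‖amp .zero ω τ z‖ₑ ^ 2 =
    ENNReal.ofReal (wt (ev ω z) (ev τ z)) := by
  rw [← ofReal_norm, ← ENNReal.ofReal_pow (norm_nonneg _)]
  congr 1
  unfold amp
  rw [am2_norm, mul_pow, kf_norm, ← Real.rpow_natCast, ← Real.rpow_mul (by
    have := Real.pi_pos
    positivity), ← Real.exp_nat_mul]
  unfold wt
  have h := (la_pos (ev τ z)).ne'
  congr 1
  · norm_num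
  · congr 1
    push_cast
    field_simp
    ring

/-- the weighted indicator -/
noncomputable def UQ (i : Ix) (w : Sp) : ℝ≥0∞ := (SP p r c α i).indicator
  (fun w => ENNReal.ofReal (wt (ev r w.2.2 + 2 * Real.pi * w.2.1 0) (ev c w.2.2 + 2 * Real.pi * w.1))) w

lemma UQ_meas (i : Ix) : Measurable (UQ p r c α i) := by
  unfold UQ
  apply Measurable.indicator _ (SP_meas p r c α i)
  have h1 : Measurable fun w : Sp => ev r w.2.2 := (ev_cont r).measurable.comp (by fun_prop)
  have h2 : Measurable fun w : Sp => ev c w.2.2 := (ev_cont c).measurable.comp (by fun_prop)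
  unfold wt la
  fun_prop

lemma UQ_le (i : Ix) (t : ℝ) (x : Fin 1 → ℝ) (z : ℝ × ℝ) : UQ p r c α i (t, x, z) ≤
    ENNReal.ofReal (wt (ev r z + 2 * Real.pi * x 0) (ev c z + 2 * Real.pi * t)) :=
  indicator_le_self (SP p r c α i) _ (t, x, z)

lemma UQ_zero (i : Ix) (t : ℝ) (x : Fin 1 → ℝ) (z : ℝ × ℝ)
    (h : ¬ zr i.1 (ev c z + 2 * Real.pi * t)) : UQ p r c α i (t, x, z) = 0 := by
  apply indicator_of_notMem
  intro h2
  apply h
  have h3 := (mem_ZZ _ _ _).mp h2.2
  rw [ev_sh] at h3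
  exact h3

/-- the Gaussian mass -/
noncomputable def WG : ℝ≥0∞ := ∫⁻ v : Fin 1 → ℝ, ENNReal.ofReal (Real.exp (-∑ j, v j ^ 2))

lemma WG_top : WG ≠ ∞ := (MP.gauss_int 1).lintegral_lt_top.ne

/-- the measure of the times of a zone -/
lemma zone_vol (i : Sg × ℕ) (c0 : ℝ) :
    volume {t : ℝ | zr i (c0 + 2 * Real.pi * t)} ≤ ENNReal.ofReal (2 ^ i.2) := by
  obtain ⟨σ, μ⟩ := i
  have hp := Real.pi_gt_three
  have hp2 : (0 : ℝ) < 2 * Real.pi := by linarith
  have h2 : (1 : ℝ) ≤ 2 ^ μ := one_le_pow₀ (by norm_num)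
  have key : ∀ a b : ℝ, b - a ≤ 2 * 2 ^ μ → (∀ t, zr (σ, μ) (c0 + 2 * Real.pi * t) →
      a ≤ c0 + 2 * Real.pi * t ∧ c0 + 2 * Real.pi * t ≤ b) →
      volume {t : ℝ | zr (σ, μ) (c0 + 2 * Real.pi * t)} ≤ ENNReal.ofReal (2 ^ μ) := by
    intro a b hab h
    have hsub : {t : ℝ | zr (σ, μ) (c0 + 2 * Real.pi * t)} ⊆
        Icc ((a - c0) / (2 * Real.pi)) ((b - c0) / (2 * Real.pi)) := by
      intro t ht
      obtain ⟨h3, h4⟩ := h t ht
      constructor
      · rw [div_le_iff₀ hp2]
        linarith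
      · rw [le_div_iff₀ hp2]
        linarith
    refine (measure_mono hsub).trans ?_
    rw [Real.volume_Icc]
    apply ENNReal.ofReal_le_ofReal
    rw [← sub_div, div_le_iff₀ hp2]
    nlinarith
  cases σ
  · apply key (-1) 1 (by linarith)
    rintro t ⟨-, ht⟩
    rw [abs_lt] at ht
    exact ⟨ht.1.le, ht.2.le⟩
  · apply key (2 ^ μ) (2 ^ (μ + 1)) (by rw [pow_succ]; linarith)
    rintro t ⟨h3, h4⟩
    exact ⟨h3, h4.le⟩
  · apply key (-2 ^ (μ + 1)) (-2 ^ μ) (by rw [pow_succ]; linarith)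
    rintro t ⟨h3, h4⟩
    constructor <;> linarith

end

/-- **the measure of the degenerate times** -/
lemma vol_R (A B C a b κ s c0 e : ℝ) (hκ : 0 < κ) (hs : 0 < s) :
    volume {t : ℝ | 0 < e * (c0 + 2 * Real.pi * t) ∧
      ¬ MP.Rg s (A + κ * t - a * a / (2 * (c0 + 2 * Real.pi * t)))
        (B - a * b / (2 * (c0 + 2 * Real.pi * t))) (C + κ * t - b * b / (2 * (c0 + 2 * Real.pi * t)))} ≤
      ENNReal.ofReal (4 * s / κ) := by
  set S : Set ℝ := {t | 0 < e * (c0 + 2 * Real.pi * t)} with hS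
  set f : ℝ → ℝ → ℝ := fun e' t => MP.mu e' (A + κ * t - a * a / (2 * (c0 + 2 * Real.pi * t)))
        (B - a * b / (2 * (c0 + 2 * Real.pi * t)))
        (C + κ * t - b * b / (2 * (c0 + 2 * Real.pi * t))) with hf
  have hinc : ∀ e' : ℝ, (e' = 1 ∨ e' = -1) → ∀ t₁ ∈ S, ∀ t₂ ∈ S, t₁ ≤ t₂ →
      f e' t₁ + κ * (t₂ - t₁) ≤ f e' t₂ := by
    intro e' he' t₁ h1 t₂ h2 h12
    set s₁ := c0 + 2 * Real.pi * t₁ with hs1
    set s₂ := c0 + 2 * Real.pi * t₂ with hs2
    have hle : s₁ ≤ s₂ := by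
      have := Real.pi_pos
      rw [hs1, hs2]
      nlinarith
    have h1' : 0 < e * s₁ := h1
    have h2' : 0 < e * s₂ := h2
    have hprod : 0 < s₁ * s₂ := by
      have h3 := mul_pos h1' h2'
      have h4 : e * s₁ * (e * s₂) = e ^ 2 * (s₁ * s₂) := by ring
      rw [h4] at h3
      exact (pos_iff_pos_of_mul_pos h3).mp (by
        have : e ≠ 0 := by
          intro h
          rw [h, zero_mul] at h1'
          exact lt_irrefl _ h1'
        positivity)
    have hs10 : s₁ ≠ 0 := by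
      intro h
      rw [h, zero_mul] at hprod
      exact lt_irrefl _ hprod
    have hs20 : s₂ ≠ 0 := by
      intro h
      rw [h, mul_zero] at hprod
      exact lt_irrefl _ hprod
    set d : ℝ := 1 / (2 * s₁) - 1 / (2 * s₂) with hd
    have hd0 : 0 ≤ d := by
      have : d = (s₂ - s₁) / (2 * (s₁ * s₂)) := by
        rw [hd]
        field_simp
      rw [this]
      apply div_nonneg (by linarith) (by linarith)
    have key : ∀ x : ℝ, x / (2 * s₁) - x / (2 * s₂) = d * x := by
      intro x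
      rw [hd]
      ring
    have k1 := key (a * a)
    have k2 := key (a * b)
    have k3 := key (b * b)
    apply MP.mu_mono _ _ _ _ _ _ _ _ he'
    · have e1 : A + κ * t₂ - a * a / (2 * s₂) - (A + κ * t₁ - a * a / (2 * s₁)) - κ * (t₂ - t₁) =
          d * (a * a) := by rw [← k1]; ring
      rw [e1]
      exact mul_nonneg hd0 (mul_self_nonneg _)
    · have e1 : C + κ * t₂ - b * b / (2 * s₂) - (C + κ * t₁ - b * b / (2 * s₁)) - κ * (t₂ - t₁) =
          d * (b * b) := by rw [← k3]; ring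
      rw [e1]
      exact mul_nonneg hd0 (mul_self_nonneg _)
    · have e1 : A + κ * t₂ - a * a / (2 * s₂) - (A + κ * t₁ - a * a / (2 * s₁)) - κ * (t₂ - t₁) =
          d * (a * a) := by rw [← k1]; ring
      have e2 : C + κ * t₂ - b * b / (2 * s₂) - (C + κ * t₁ - b * b / (2 * s₁)) - κ * (t₂ - t₁) =
          d * (b * b) := by rw [← k3]; ring
      have e3 : B - a * b / (2 * s₂) - (B - a * b / (2 * s₁)) = d * (a * b) := by rw [← k2]; ring
      rw [e1, e2, e3]
      apply le_of_eq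
      ring
  have hsub : {t : ℝ | 0 < e * (c0 + 2 * Real.pi * t) ∧
      ¬ MP.Rg s (A + κ * t - a * a / (2 * (c0 + 2 * Real.pi * t)))
        (B - a * b / (2 * (c0 + 2 * Real.pi * t))) (C + κ * t - b * b / (2 * (c0 + 2 * Real.pi * t)))} ⊆
      (S ∩ {t | |f 1 t| ≤ s}) ∪ (S ∩ {t | |f (-1) t| ≤ s}) := by
    rintro t ⟨h1, h2⟩
    by_cases h3 : |f 1 t| ≤ s
    · exact Or.inl ⟨h1, h3⟩
    · by_cases h4 : |f (-1) t| ≤ s
      · exact Or.inr ⟨h1, h4⟩
      · exact absurd (MP.Rg_of s _ _ _ hs (not_le.mp h3) (not_le.mp h4)) h2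
  refine (measure_mono hsub).trans ((measure_union_le _ _).trans ?_)
  refine (add_le_add (MP.vol_inc _ _ κ s hκ (hinc 1 (Or.inl rfl)))
    (MP.vol_inc _ _ κ s hκ (hinc (-1) (Or.inr rfl)))).trans ?_
  rw [← ENNReal.ofReal_add (by positivity) (by positivity)]
  apply ENNReal.ofReal_le_ofReal
  apply le_of_eq
  ring

end Pool.Agent.Helper35.CP
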