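import Pool.Agent.Helper35.CP.H
set_option autoImplicit false

/-! The total weight of the pieces. -/

namespace Pool.Agent.Helper35.CP

open MeasureTheory Set Filter Topology Complex
open scoped ENNReal NNReal
open Pool.Agent.Y183.PP
open Pool.Agent.Helper35.MP (la la_one la_pos kf kf_norm norm_one_sub)

lemma px_neg (τ : Poly) : px (-τ) = -px τ := by unfold px; rw [map_neg]
lemma py_neg (τ : Poly) : py (-τ) = -py τ := by unfold py; rw [map_neg]
lemma pxx_neg (τ : Poly) : pxx (-τ) = -pxx τ := by unfold pxx; rw [map_neg, map_neg]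
lemma pxy_neg (τ : Poly) : pxy (-τ) = -pxy τ := by unfold pxy; rw [map_neg, map_neg]
lemma pyy_neg (τ : Poly) : pyy (-τ) = -pyy τ := by unfold pyy; rw [map_neg, map_neg]

/-- the Hessian in the new variable -/
lemma hess11 {σ : Sg} (hσ : σ ≠ .zero) (P ω τ : Poly) (z : ℝ × ℝ) (v : ℝ) (hs : ev τ z ≠ 0)
    (hω : ev ω z = -2 * ev τ z * v) :
    ev (n11 (Np σ P ω τ) (Tp σ τ)) z / ev (Tp σ τ) z ^ 3 =
      ev (pxx P) z + v * ev (pxx ω) z + v ^ 2 * ev (pxx τ) z -
        (ev (px ω) z + 2 * v * ev (px τ) z) * (ev (px ω) z + 2 * v * ev (px τ) z) /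
          (2 * ev τ z) := by
  unfold Np
  rw [ev_n11, hω]
  cases σ
  · exact absurd rfl hσ
  · simp only [Tp, ka]
    field_simp
    ring
  · simp only [Tp, ka, px_neg, pxx_neg, ev_neg]
    field_simp
    ring

lemma hess12 {σ : Sg} (hσ : σ ≠ .zero) (P ω τ : Poly) (z : ℝ × ℝ) (v : ℝ) (hs : ev τ z ≠ 0)
    (hω : ev ω z = -2 * ev τ z * v) :
    ev (n12 (Np σ P ω τ) (Tp σ τ)) z / ev (Tp σ τ) z ^ 3 =
      ev (pxy P) z + v * ev (pxy ω) z + v ^ 2 * ev (pxy τ) z -
        (ev (px ω) z + 2 * v * ev (px τ) z) * (ev (py ω) z + 2 * v * ev (py τ) z) /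
          (2 * ev τ z) := by
  unfold Np
  rw [ev_n12, hω]
  cases σ
  · exact absurd rfl hσ
  · simp only [Tp, ka]
    field_simp
    ring
  · simp only [Tp, ka, px_neg, py_neg, pxy_neg, ev_neg]
    field_simp
    ring

lemma hess22 {σ : Sg} (hσ : σ ≠ .zero) (P ω τ : Poly) (z : ℝ × ℝ) (v : ℝ) (hs : ev τ z ≠ 0)
    (hω : ev ω z = -2 * ev τ z * v) :
    ev (n22 (Np σ P ω τ) (Tp σ τ)) z / ev (Tp σ τ) z ^ 3 =
      ev (pyy P) z + v * ev (pyy ω) z + v ^ 2 * ev (pyy τ) z -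
        (ev (py ω) z + 2 * v * ev (py τ) z) * (ev (py ω) z + 2 * v * ev (py τ) z) /
          (2 * ev τ z) := by
  unfold Np
  rw [ev_n22, hω]
  cases σ
  · exact absurd rfl hσ
  · simp only [Tp, ka]
    field_simp
    ring
  · simp only [Tp, ka, py_neg, pyy_neg, ev_neg]
    field_simp
    ring

lemma Rg_measS {X : Type*} [MeasurableSpace X] (s : ℝ) {a b c : X → ℝ} (ha : Measurable a)
    (hb : Measurable b) (hc : Measurable c) : MeasurableSet {x | MP.Rg s (a x) (b x) (c x)} := by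
  have e : {x | MP.Rg s (a x) (b x) (c x)} =
      {x | 0 < a x ^ 2 + 2 * b x ^ 2 + c x ^ 2 - 2 * s ^ 2} ∩
      {x | 0 < (a x ^ 2 + b x ^ 2 - s ^ 2) * (b x ^ 2 + c x ^ 2 - s ^ 2) -
        b x ^ 2 * (a x + c x) ^ 2} := by
    ext x
    simp [MP.Rg]
  rw [e]
  exact (measurableSet_lt measurable_const (by fun_prop)).inter
    (measurableSet_lt measurable_const (by fun_prop))

section

variable (p r c : Poly) (α : ℝ)

/-- the weight for fixed `z` and `t` -/
noncomputable def Gz (i : Ix) (z : ℝ × ℝ) (t : ℝ) : ℝ≥0∞ := ∫⁻ x : Fin 1 → ℝ, UQ p r c α i (t, x, z)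

lemma Gz_meas2 (i : Ix) : Measurable fun w : (ℝ × ℝ) × ℝ => Gz p r c α i w.1 w.2 := by
  unfold Gz
  have h1 : Measurable fun w : ((ℝ × ℝ) × ℝ) × (Fin 1 → ℝ) => UQ p r c α i (w.1.2, w.2, w.1.1) :=
    (UQ_meas p r c α i).comp (by fun_prop)
  exact h1.lintegral_prod_right'

/-- the total weight -/
lemma tot_swap (i : Ix) : ∫⁻ t : ℝ, ∫⁻ x : Fin 1 → ℝ, ∫⁻ z in SQ, UQ p r c α i (t, x, z) =
    ∫⁻ z in SQ, ∫⁻ t : ℝ, Gz p r c α i z t := by
  have h1 : ∀ t : ℝ, ∫⁻ x : Fin 1 → ℝ, ∫⁻ z in SQ, UQ p r c α i (t, x, z) =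
      ∫⁻ z in SQ, Gz p r c α i z t := by
    intro t
    unfold Gz
    rw [lintegral_lintegral_swap]
    exact ((UQ_meas p r c α i).comp (by fun_prop)).aemeasurable
  simp only [h1]
  rw [lintegral_lintegral_swap]
  have h2 : Measurable fun w : ℝ × (ℝ × ℝ) => Gz p r c α i w.2 w.1 :=
    (Gz_meas2 p r c α i).comp (g := fun w : (ℝ × ℝ) × ℝ => Gz p r c α i w.1 w.2)
      (f := fun w : ℝ × (ℝ × ℝ) => (w.2, w.1)) (by fun_prop)
  exact h2.aemeasurable

lemma Gz_zero (i : Ix) (z : ℝ × ℝ) (t : ℝ) (h : ¬ zr i.1 (ev c z + 2 * Real.pi * t)) :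
    Gz p r c α i z t = 0 := by
  unfold Gz
  simp only [UQ_zero p r c α i t _ z h, lintegral_zero]

lemma Gz_le (i : Ix) (z : ℝ × ℝ) (t : ℝ) : Gz p r c α i z t ≤ 4 * WG := by
  have hp := Real.pi_pos
  set s := ev c z + 2 * Real.pi * t with hs
  have hl := la_pos s
  have hsq : 0 < Real.sqrt (la s) := Real.sqrt_pos.mpr hl
  unfold Gz
  have hmeas : Measurable fun x : Fin 1 → ℝ => UQ p r c α i (t, x, z) :=
    (UQ_meas p r c α i).comp (by fun_prop)
  rw [MP.subst (fun _ => Real.sqrt (la s)) (fun _ => -(ev r z / (2 * Real.pi)))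
    (fun _ => hsq.ne') _ hmeas]
  have e1 : ∏ _j : Fin 1, |Real.sqrt (la s)| = Real.sqrt (la s) := by
    simp [abs_of_pos hsq]
  rw [e1]
  have h2 : ∀ v : Fin 1 → ℝ, UQ p r c α i (t, (fun j => Real.sqrt (la s) * v j +
      -(ev r z / (2 * Real.pi))), z) ≤
      ENNReal.ofReal (Real.pi / Real.sqrt (la s)) * ENNReal.ofReal (Real.exp (-∑ j, v j ^ 2)) := by
    intro v
    refine (UQ_le p r c α i t _ z).trans ?_
    rw [← ENNReal.ofReal_mul (by positivity)]
    apply ENNReal.ofReal_le_ofReal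
    unfold wt
    rw [← hs]
    apply mul_le_mul_of_nonneg_left _ (by positivity)
    rw [Real.exp_le_exp, neg_le_neg_iff]
    have e2 : ev r z + 2 * Real.pi * (Real.sqrt (la s) * v 0 + -(ev r z / (2 * Real.pi))) =
        2 * Real.pi * (Real.sqrt (la s) * v 0) := by
      field_simp
      ring
    rw [e2]
    have e3 : (2 * Real.pi * (Real.sqrt (la s) * v 0)) ^ 2 / (2 * la s) =
        2 * Real.pi ^ 2 * v 0 ^ 2 := by
      rw [mul_pow, mul_pow, mul_pow, Real.sq_sqrt hl.le]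
      field_simp
    rw [e3]
    have e4 : ∑ j : Fin 1, v j ^ 2 = v 0 ^ 2 := by simp
    rw [e4]
    have h3 := Real.pi_gt_three
    have h4 : 1 ≤ 2 * Real.pi ^ 2 := by nlinarith
    nlinarith [sq_nonneg (v 0)]
  calc ENNReal.ofReal (Real.sqrt (la s)) * ∫⁻ v : Fin 1 → ℝ, UQ p r c α i (t, (fun j =>
      Real.sqrt (la s) * v j + -(ev r z / (2 * Real.pi))), z) ≤
      ENNReal.ofReal (Real.sqrt (la s)) * ∫⁻ v : Fin 1 → ℝ,
        ENNReal.ofReal (Real.pi / Real.sqrt (la s)) * ENNReal.ofReal (Real.exp (-∑ j, v j ^ 2)) :=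
        mul_le_mul_right (lintegral_mono h2) _
    _ = ENNReal.ofReal Real.pi * WG := by
        rw [lintegral_const_mul' _ _ ENNReal.ofReal_ne_top, ← mul_assoc,
          ← ENNReal.ofReal_mul hsq.le, mul_div_cancel₀ _ hsq.ne']
        rfl
    _ ≤ 4 * WG := by
        gcongr
        calc ENNReal.ofReal Real.pi ≤ ENNReal.ofReal 4 := ENNReal.ofReal_le_ofReal Real.pi_le_four
          _ = 4 := by norm_num

lemma zr_meas (i : Sg × ℕ) (c0 : ℝ) : MeasurableSet {t : ℝ | zr i (c0 + 2 * Real.pi * t)} := by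
  obtain ⟨σ, μ⟩ := i
  have h : Measurable fun t : ℝ => c0 + 2 * Real.pi * t := by fun_prop
  cases σ
  · simp only [zr]
    by_cases hμ : μ = 0
    · simp only [hμ, true_and]
      exact measurableSet_lt h.abs measurable_const
    · simp only [hμ, false_and]
      exact MeasurableSet.empty
  · exact (measurableSet_le measurable_const h).inter (measurableSet_lt h measurable_const)
  · exact (measurableSet_le measurable_const h.neg).inter (measurableSet_lt h.neg measurable_const)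

/-- the first bound -/
lemma Gz_time1 (i : Ix) (z : ℝ × ℝ) :
    ∫⁻ t : ℝ, Gz p r c α i z t ≤ 4 * WG * ENNReal.ofReal (2 ^ i.1.2) := by
  have h1 : ∀ t, Gz p r c α i z t ≤ {t : ℝ | zr i.1 (ev c z + 2 * Real.pi * t)}.indicator
      (fun _ => 4 * WG) t := by
    intro t
    by_cases h : zr i.1 (ev c z + 2 * Real.pi * t)
    · rw [indicator_of_mem (show t ∈ {t : ℝ | zr i.1 (ev c z + 2 * Real.pi * t)} from h)]
      exact Gz_le p r c α i z t
    · rw [Gz_zero p r c α i z t h]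
      exact zero_le
  refine (lintegral_mono h1).trans ?_
  rw [lintegral_indicator_const (zr_meas i.1 (ev c z))]
  gcongr
  exact zone_vol i.1 _

/-- the sign of the zone -/
noncomputable def sg : Sg → ℝ
  | .zero => 0
  | .pos => 1
  | .neg => -1

/-- the degenerate times for fixed `z` -/
def Bad (σ : Sg) (k : ℕ) (z : ℝ × ℝ) : Set (ℝ × (Fin 1 → ℝ)) := {w |
  0 < sg σ * (ev c z + 2 * Real.pi * w.1) ∧ ¬ MP.Rg (2 ^ k)
    ((ev (pxx p) z + w.2 0 * ev (pxx r) z + w.2 0 ^ 2 * ev (pxx c) z) + 4 * Real.pi * α * w.1 -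
      (ev (px r) z + 2 * w.2 0 * ev (px c) z) * (ev (px r) z + 2 * w.2 0 * ev (px c) z) /
        (2 * (ev c z + 2 * Real.pi * w.1)))
    ((ev (pxy p) z + w.2 0 * ev (pxy r) z + w.2 0 ^ 2 * ev (pxy c) z) -
      (ev (px r) z + 2 * w.2 0 * ev (px c) z) * (ev (py r) z + 2 * w.2 0 * ev (py c) z) /
        (2 * (ev c z + 2 * Real.pi * w.1)))
    ((ev (pyy p) z + w.2 0 * ev (pyy r) z + w.2 0 ^ 2 * ev (pyy c) z) + 4 * Real.pi * α * w.1 -
      (ev (py r) z + 2 * w.2 0 * ev (py c) z) * (ev (py r) z + 2 * w.2 0 * ev (py c) z) /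
        (2 * (ev c z + 2 * Real.pi * w.1)))}

lemma Bad_meas (σ : Sg) (k : ℕ) (z : ℝ × ℝ) : MeasurableSet (Bad p r c α σ k z) := by
  have h1 : MeasurableSet {w : ℝ × (Fin 1 → ℝ) | 0 < sg σ * (ev c z + 2 * Real.pi * w.1)} :=
    measurableSet_lt measurable_const (by fun_prop)
  have h2 := (Rg_measS (X := ℝ × (Fin 1 → ℝ)) (2 ^ k)
    (a := fun w => (ev (pxx p) z + w.2 0 * ev (pxx r) z + w.2 0 ^ 2 * ev (pxx c) z) +
      4 * Real.pi * α * w.1 - (ev (px r) z + 2 * w.2 0 * ev (px c) z) *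
      (ev (px r) z + 2 * w.2 0 * ev (px c) z) / (2 * (ev c z + 2 * Real.pi * w.1)))
    (b := fun w => (ev (pxy p) z + w.2 0 * ev (pxy r) z + w.2 0 ^ 2 * ev (pxy c) z) -
      (ev (px r) z + 2 * w.2 0 * ev (px c) z) * (ev (py r) z + 2 * w.2 0 * ev (py c) z) /
        (2 * (ev c z + 2 * Real.pi * w.1)))
    (c := fun w => (ev (pyy p) z + w.2 0 * ev (pyy r) z + w.2 0 ^ 2 * ev (pyy c) z) +
      4 * Real.pi * α * w.1 - (ev (py r) z + 2 * w.2 0 * ev (py c) z) *
      (ev (py r) z + 2 * w.2 0 * ev (py c) z) / (2 * (ev c z + 2 * Real.pi * w.1)))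
    (by fun_prop) (by fun_prop) (by fun_prop)).compl
  exact h1.inter h2

/-- the time slices -/
lemma Bad_vol (hα : 1 ≤ α) (σ : Sg) (k : ℕ) (z : ℝ × ℝ) (v : Fin 1 → ℝ) :
    volume {t : ℝ | (t, v) ∈ Bad p r c α σ k z} ≤ ENNReal.ofReal (2 ^ k) := by
  have hp := Real.pi_gt_three
  have h := vol_R (ev (pxx p) z + v 0 * ev (pxx r) z + v 0 ^ 2 * ev (pxx c) z)
    (ev (pxy p) z + v 0 * ev (pxy r) z + v 0 ^ 2 * ev (pxy c) z)
    (ev (pyy p) z + v 0 * ev (pyy r) z + v 0 ^ 2 * ev (pyy c) z)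
    (ev (px r) z + 2 * v 0 * ev (px c) z) (ev (py r) z + 2 * v 0 * ev (py c) z)
    (4 * Real.pi * α) (2 ^ k) (ev c z) (sg σ) (by positivity) (by positivity)
  refine h.trans ?_
  apply ENNReal.ofReal_le_ofReal
  rw [div_le_iff₀ (by positivity)]
  have h2 : (0 : ℝ) < 2 ^ k := by positivity
  nlinarith [mul_pos h2 (show 0 < α by linarith)]

/-- the second variable of integration -/
lemma Gz_good {σ : Sg} (hσ : σ ≠ .zero) (μ k : ℕ) (z : ℝ × ℝ) (t : ℝ)
    (ht : zr (σ, μ) (ev c z + 2 * Real.pi * t)) : Gz p r c α ((σ, μ), k) z t ≤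
      ∫⁻ v : Fin 1 → ℝ, (Bad p r c α σ k z).indicator
        (fun w => ENNReal.ofReal (Real.exp (-∑ j, w.2 j ^ 2))) (t, v) := by
  have hp := Real.pi_pos
  set s := ev c z + 2 * Real.pi * t with hs
  have hl := la_pos s
  have hsq : 0 < Real.sqrt (la s) := Real.sqrt_pos.mpr hl
  have h1μ : (1 : ℝ) ≤ 2 ^ μ := one_le_pow₀ (by norm_num)
  have hsg : 1 ≤ sg σ * s := by
    cases σ
    · exact absurd rfl hσ
    · simp only [sg, one_mul]
      exact h1μ.trans ht.1
    · simp only [sg, neg_mul, one_mul]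
      exact h1μ.trans ht.1
  have hs1 : 1 ≤ s ^ 2 := by
    have h3 : sg σ ^ 2 ≤ 1 := by
      cases σ <;> simp [sg]
    have h4 : 1 ≤ (sg σ * s) ^ 2 := one_le_pow₀ hsg
    rw [mul_pow] at h4
    nlinarith [sq_nonneg s]
  have hs0 : s ≠ 0 := by
    intro h
    rw [h] at hs1
    norm_num at hs1
  unfold Gz
  have hmeas : Measurable fun x : Fin 1 → ℝ => UQ p r c α ((σ, μ), k) (t, x, z) :=
    (UQ_meas p r c α _).comp (by fun_prop)
  have hκ : -(s / Real.pi) ≠ 0 := neg_ne_zero.mpr (div_ne_zero hs0 hp.ne')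
  rw [MP.subst (fun _ => -(s / Real.pi)) (fun _ => -(ev r z / (2 * Real.pi)))
    (fun _ => hκ) _ hmeas, ← lintegral_const_mul' _ _ ENNReal.ofReal_ne_top]
  apply lintegral_mono
  intro v
  simp only
  have e1 : ∏ _j : Fin 1, |-(s / Real.pi)| = |s| / Real.pi := by
    simp [abs_div, abs_of_pos hp]
  rw [e1]
  set x : Fin 1 → ℝ := fun j => -(s / Real.pi) * v j + -(ev r z / (2 * Real.pi)) with hx
  have e2 : ev r z + 2 * Real.pi * x 0 = -2 * s * v 0 := by
    rw [hx]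
    field_simp
    ring
  by_cases hm : ((t, x, z) : Sp) ∈ SP p r c α ((σ, μ), k)
  · -- membership
    have hbad : ((t, v) : ℝ × (Fin 1 → ℝ)) ∈ Bad p r c α σ k z := by
      refine ⟨by
        show 0 < sg σ * s
        linarith, ?_⟩
      have h5 : z ∉ BQ σ p (sh r (x 0)) (sh c t) (α * t) (2 ^ k) :=
        AQ_sub σ p (sh r (x 0)) (sh c t) (α * t) k hm.1
      intro hR
      apply h5
      have hτ : ev (sh c t) z = s := ev_sh c t z
      have hτ0 : ev (sh c t) z ≠ 0 := by rw [hτ]; exact hs0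
      have hω : ev (sh r (x 0)) z = -2 * ev (sh c t) z * v 0 := by
        rw [hτ, ev_sh, e2]
      have hT0 : ev (Tp σ (sh c t)) z ≠ 0 := by
        have := Tp_one hm.2
        simp only at this
        linarith
      unfold BQ
      rw [mem_BBR _ _ _ _ hT0, hess11 hσ _ _ _ z (v 0) hτ0 hω, hess12 hσ _ _ _ z (v 0) hτ0 hω,
        hess22 hσ _ _ _ z (v 0) hτ0 hω]
      have f1 : ev (pxx (sh r (x 0))) z = ev (pxx r) z := by unfold pxx; rw [pd_sh]
      have f2 : ev (pxy (sh r (x 0))) z = ev (pxy r) z := by unfold pxy; rw [pd_sh]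
      have f3 : ev (pyy (sh r (x 0))) z = ev (pyy r) z := by unfold pyy; rw [pd_sh]
      have f4 : ev (px (sh r (x 0))) z = ev (px r) z := by unfold px; rw [pd_sh]
      have f5 : ev (py (sh r (x 0))) z = ev (py r) z := by unfold py; rw [pd_sh]
      have g1 : ev (pxx (sh c t)) z = ev (pxx c) z := by unfold pxx; rw [pd_sh]
      have g2 : ev (pxy (sh c t)) z = ev (pxy c) z := by unfold pxy; rw [pd_sh]
      have g3 : ev (pyy (sh c t)) z = ev (pyy c) z := by unfold pyy; rw [pd_sh]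
      have g4 : ev (px (sh c t)) z = ev (px c) z := by unfold px; rw [pd_sh]
      have g5 : ev (py (sh c t)) z = ev (py c) z := by unfold py; rw [pd_sh]
      rw [f1, f2, f3, f4, f5, g1, g2, g3, g4, g5, hτ, pxx_Ph, pxy_Ph, pyy_Ph]
      have k1 : ev (pxx p) z + 4 * Real.pi * (α * t) + v 0 * ev (pxx r) z +
          v 0 ^ 2 * ev (pxx c) z = (ev (pxx p) z + v 0 * ev (pxx r) z + v 0 ^ 2 * ev (pxx c) z) +
          4 * Real.pi * α * t := by ring
      have k2 : ev (pyy p) z + 4 * Real.pi * (α * t) + v 0 * ev (pyy r) z +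
          v 0 ^ 2 * ev (pyy c) z = (ev (pyy p) z + v 0 * ev (pyy r) z + v 0 ^ 2 * ev (pyy c) z) +
          4 * Real.pi * α * t := by ring
      rw [k1, k2]
      exact hR
    rw [indicator_of_mem hbad]
    refine (mul_le_mul_right (UQ_le p r c α _ t x z) _).trans ?_
    rw [← ENNReal.ofReal_mul (by positivity), e2, ← hs]
    apply ENNReal.ofReal_le_ofReal
    unfold wt
    have hle : |s| / Real.sqrt (la s) ≤ 1 := by
      rw [div_le_one hsq]
      apply Real.le_sqrt_of_sq_le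
      rw [sq_abs]
      unfold la
      linarith
    have e4 : ∑ j : Fin 1, v j ^ 2 = v 0 ^ 2 := by simp
    have hexp : Real.exp (-((-2 * s * v 0) ^ 2 / (2 * la s))) ≤ Real.exp (-∑ j, v j ^ 2) := by
      rw [Real.exp_le_exp, neg_le_neg_iff, e4, le_div_iff₀ (by positivity)]
      unfold la
      nlinarith [mul_nonneg (sq_nonneg (v 0)) (show (0 : ℝ) ≤ s ^ 2 - 1 by linarith)]
    calc |s| / Real.pi * (Real.pi / Real.sqrt (la s) *
        Real.exp (-((-2 * s * v 0) ^ 2 / (2 * la s)))) =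
        (|s| / Real.sqrt (la s)) * Real.exp (-((-2 * s * v 0) ^ 2 / (2 * la s))) := by
          field_simp
      _ ≤ 1 * Real.exp (-∑ j, v j ^ 2) := mul_le_mul hle hexp (Real.exp_pos _).le (by norm_num)
      _ = _ := one_mul _
  · have e3 : UQ p r c α ((σ, μ), k) (t, x, z) = 0 := indicator_of_notMem hm _
    rw [e3, mul_zero]
    exact zero_le

/-- the second bound -/
lemma Gz_time2 (hα : 1 ≤ α) (i : Ix) (z : ℝ × ℝ) :
    ∫⁻ t : ℝ, Gz p r c α i z t ≤ 4 * WG * ENNReal.ofReal (2 ^ i.2) := by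
  obtain ⟨⟨σ, μ⟩, k⟩ := i
  by_cases hσ : σ = .zero
  · subst hσ
    by_cases hμ : μ = 0
    · subst hμ
      refine (Gz_time1 p r c α _ z).trans ?_
      gcongr
      · norm_num
      · exact Nat.zero_le _
    · have h0 : ∀ t, Gz p r c α ((Sg.zero, μ), k) z t = 0 := fun t =>
        Gz_zero p r c α _ z t fun h => hμ h.1
      simp only [h0, lintegral_zero]
      exact zero_le
  · have h1 : ∀ t, Gz p r c α ((σ, μ), k) z t ≤
        ∫⁻ v : Fin 1 → ℝ, (Bad p r c α σ k z).indicator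
          (fun w => ENNReal.ofReal (Real.exp (-∑ j, w.2 j ^ 2))) (t, v) := by
      intro t
      by_cases h : zr (σ, μ) (ev c z + 2 * Real.pi * t)
      · exact Gz_good p r c α hσ μ k z t h
      · rw [Gz_zero p r c α _ z t h]
        exact zero_le
    refine (lintegral_mono h1).trans ?_
    have hBm := Bad_meas p r c α σ k z
    rw [lintegral_lintegral_swap]
    swap
    · apply Measurable.aemeasurable
      have h2 : Measurable ((Bad p r c α σ k z).indicator
          (fun w : ℝ × (Fin 1 → ℝ) => ENNReal.ofReal (Real.exp (-∑ j, w.2 j ^ 2)))) :=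
        Measurable.indicator (by fun_prop) hBm
      exact h2
    have h3 : ∀ v : Fin 1 → ℝ, ∫⁻ t : ℝ, (Bad p r c α σ k z).indicator
          (fun w => ENNReal.ofReal (Real.exp (-∑ j, w.2 j ^ 2))) (t, v) ≤
        ENNReal.ofReal (Real.exp (-∑ j, v j ^ 2)) * ENNReal.ofReal (2 ^ k) := by
      intro v
      have e : ∀ t : ℝ, (Bad p r c α σ k z).indicator
          (fun w => ENNReal.ofReal (Real.exp (-∑ j, w.2 j ^ 2))) (t, v) =
          {t : ℝ | (t, v) ∈ Bad p r c α σ k z}.indicator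
            (fun _ => ENNReal.ofReal (Real.exp (-∑ j, v j ^ 2))) t := by
        intro t
        by_cases h : ((t, v) : ℝ × (Fin 1 → ℝ)) ∈ Bad p r c α σ k z
        · rw [indicator_of_mem h, indicator_of_mem (show t ∈ {t : ℝ | (t, v) ∈
            Bad p r c α σ k z} from h)]
        · rw [indicator_of_notMem h, indicator_of_notMem (show t ∉ {t : ℝ | (t, v) ∈
            Bad p r c α σ k z} from h)]
      simp only [e]
      have hm : MeasurableSet {t : ℝ | (t, v) ∈ Bad p r c α σ k z} := hBm.preimage (by fun_prop)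
      rw [lintegral_indicator_const hm]
      gcongr
      exact Bad_vol p r c α hα σ k z v
    refine (lintegral_mono h3).trans ?_
    rw [lintegral_mul_const' _ _ ENNReal.ofReal_ne_top]
    gcongr
    calc WG = 1 * WG := (one_mul _).symm
      _ ≤ 4 * WG := by
          gcongr
          norm_num

/-- **the total weight** -/
lemma tot_le (hα : 1 ≤ α) (i : Ix) :
    ∫⁻ t : ℝ, ∫⁻ x : Fin 1 → ℝ, ∫⁻ z in SQ, UQ p r c α i (t, x, z) ≤
      16 * WG * ENNReal.ofReal (min (2 ^ i.1.2) (2 ^ i.2)) := by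
  rw [tot_swap]
  have h1 : ∀ z, ∫⁻ t : ℝ, Gz p r c α i z t ≤
      4 * WG * ENNReal.ofReal (min (2 ^ i.1.2) (2 ^ i.2)) := by
    intro z
    rcases le_total ((2 : ℝ) ^ i.1.2) (2 ^ i.2) with h | h
    · rw [min_eq_left h]
      exact Gz_time1 p r c α i z
    · rw [min_eq_right h]
      exact Gz_time2 p r c α hα i z
  calc ∫⁻ z in SQ, ∫⁻ t : ℝ, Gz p r c α i z t ≤
      ∫⁻ _z in SQ, 4 * WG * ENNReal.ofReal (min (2 ^ i.1.2) (2 ^ i.2)) := lintegral_mono fun z => h1 z
    _ = _ := by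
        rw [MP.SQ_const]
        ring

end

end Pool.Agent.Helper35.CP
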