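import Pool.Agent.Helper35.CP.I
set_option autoImplicit false

/-! The `L^q` bound of the building block. -/

namespace Pool.Agent.Helper35.CP

open MeasureTheory Set Filter Topology Complex
open scoped ENNReal NNReal
open Pool.Agent.Y183.PP
open Pool.Agent.Helper35.MP (la la_one la_pos kf kf_norm norm_one_sub)

/-- the full integral -/
noncomputable def FC (p r c : Poly) (α : ℝ) (y : ℝ × ℝ) (x : Fin 1 → ℝ) (t : ℝ) : ℂ :=
  ∫ z in SQ, ∫ v : Fin 1 → ℝ, cexp (((-∑ j, v j ^ 2 : ℝ) : ℂ) +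
    ((ev p z + v 0 * ev r z + v 0 ^ 2 * ev c z +
      2 * Real.pi * (z.1 * y.1 + z.2 * y.2 + α * (z.1 ^ 2 + z.2 ^ 2) * t +
        ∑ j, v j * x j + (∑ j, v j ^ 2) * t) : ℝ) : ℂ) * I)

/-- **reduction to two variables** -/
lemma FC_eq (p r c : Poly) (α : ℝ) (y : ℝ × ℝ) (x : Fin 1 → ℝ) (t : ℝ) : FC p r c α y x t =
    ∫ z in SQ, amp .zero (sh r (x 0)) (sh c t) z * ex (Ph p y (α * t)) z := by
  unfold FC
  congr 1
  ext z
  have h1 : ∀ v : Fin 1 → ℝ, cexp (((-∑ j, v j ^ 2 : ℝ) : ℂ) +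
    ((ev p z + v 0 * ev r z + v 0 ^ 2 * ev c z +
      2 * Real.pi * (z.1 * y.1 + z.2 * y.2 + α * (z.1 ^ 2 + z.2 ^ 2) * t +
        ∑ j, v j * x j + (∑ j, v j ^ 2) * t) : ℝ) : ℂ) * I) =
      cexp (((ev p z + 2 * Real.pi * (z.1 * y.1 + z.2 * y.2 + (z.1 ^ 2 + z.2 ^ 2) * (α * t)) : ℝ) :
        ℂ) * I) * cexp (((-∑ j, v j ^ 2 : ℝ) : ℂ) +
      ((∑ j, (v j * (ev r z + 2 * Real.pi * x j) + (ev c z + 2 * Real.pi * t) * v j ^ 2) : ℝ) : ℂ) *
        I) := by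
    intro v
    rw [← Complex.exp_add]
    congr 1
    have e : (ev p z + v 0 * ev r z + v 0 ^ 2 * ev c z +
      2 * Real.pi * (z.1 * y.1 + z.2 * y.2 + α * (z.1 ^ 2 + z.2 ^ 2) * t +
        ∑ j, v j * x j + (∑ j, v j ^ 2) * t) : ℝ) =
        (ev p z + 2 * Real.pi * (z.1 * y.1 + z.2 * y.2 + (z.1 ^ 2 + z.2 ^ 2) * (α * t))) +
        ∑ j, (v j * (ev r z + 2 * Real.pi * x j) + (ev c z + 2 * Real.pi * t) * v j ^ 2) := by
      simp only [Fin.sum_univ_one]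
      ring
    rw [e]
    push_cast
    ring
  simp only [h1]
  rw [integral_const_mul, MP.gauss (fun _ => ev c z + 2 * Real.pi * t)
    (fun j => ev r z + 2 * Real.pi * x j)]
  unfold ex amp am2 hf
  rw [ev_Ph, ev_sh, ev_sh]
  simp only [Fin.sum_univ_one, Fin.prod_univ_one, iot]
  have e1 : (((-((ev r z + 2 * Real.pi * x 0) ^ 2 / (4 * la (ev c z + 2 * Real.pi * t))) : ℝ) : ℂ) +
      ((-((ev c z + 2 * Real.pi * t) * (ev r z + 2 * Real.pi * x 0) ^ 2 /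
        (4 * la (ev c z + 2 * Real.pi * t))) : ℝ) : ℂ) * I) =
      (((-((ev r z + 2 * Real.pi * x 0) ^ 2 / (4 * la (ev c z + 2 * Real.pi * t))) : ℝ) : ℂ) +
      (((ev r z + 2 * Real.pi * x 0) ^ 2 / (4 * la (ev c z + 2 * Real.pi * t)) *
        -(ev c z + 2 * Real.pi * t) : ℝ) : ℂ) * I) := by
    congr 3
    ring
  rw [e1]
  ring

/-- sums over the index set -/
lemma tsum_Ix (f g : ℕ → ℝ≥0∞) : ∑' i : Ix, f i.1.2 * g i.2 = 3 * (∑' n, f n) * ∑' n, g n := by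
  have h1 : ∑' i : Ix, f i.1.2 * g i.2 = ∑' a : Sg × ℕ, ∑' b : ℕ, f a.2 * g b :=
    ENNReal.tsum_prod (f := fun (a : Sg × ℕ) (b : ℕ) => f a.2 * g b)
  rw [h1]
  simp only [ENNReal.tsum_mul_left]
  rw [ENNReal.tsum_mul_right]
  congr 1
  have h2 : ∑' a : Sg × ℕ, f a.2 = ∑' _s : Sg, ∑' n : ℕ, f n :=
    ENNReal.tsum_prod (f := fun (_ : Sg) (n : ℕ) => f n)
  rw [h2, tsum_fintype, Finset.sum_const, nsmul_eq_mul]
  rfl

lemma lin_exp (δ : ℝ) (hδ : 0 < δ) : ∃ C : ℝ, 0 < C ∧ ∀ j : ℕ, (1 : ℝ) + j ≤ C * (2 : ℝ) ^ (δ * j) := by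
  set c : ℝ := δ * Real.log 2 with hc
  have hc0 : 0 < c := mul_pos hδ (Real.log_pos (by norm_num))
  refine ⟨1 + 1 / c, by positivity, ?_⟩
  intro j
  have h2 : 1 + c * j ≤ (2 : ℝ) ^ (δ * j) := by
    rw [Real.rpow_def_of_pos (by norm_num)]
    have := Real.add_one_le_exp (Real.log 2 * (δ * j))
    calc 1 + c * j = Real.log 2 * (δ * j) + 1 := by rw [hc]; ring
      _ ≤ _ := this
  have hj : (0 : ℝ) ≤ j := Nat.cast_nonneg j
  calc (1 : ℝ) + j ≤ (1 + 1 / c) * (1 + c * j) := by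
        have e : (1 + 1 / c) * (1 + c * j) = 1 + j + 1 / c + c * j := by
          field_simp
          ring
        rw [e]
        have : 0 ≤ 1 / c + c * j := by positivity
        linarith
    _ ≤ _ := by gcongr

/-- the bound of the sup bounds -/
lemma SR_bound (D : ℕ) (δ : ℝ) (hδ : 0 < δ) : ∃ C : ℝ, 0 < C ∧ ∀ i : Ix,
    SR D i ≤ C * (2 : ℝ) ^ (-(1 / 2) * (i.1.2 : ℝ)) * (2 : ℝ) ^ (-(1 - δ) * (i.2 : ℝ)) := by
  obtain ⟨C5, hC5, h1⟩ := lin_exp δ hδ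
  have hc2 := c2R_nonneg (2 * D + 2) (5 * D)
  refine ⟨10 * (4 + 4 * c2R (2 * D + 2) (5 * D) * C5), by positivity, ?_⟩
  rintro ⟨⟨σ, μ⟩, k⟩
  have hVm : Vm μ = 10 * (2 : ℝ) ^ (-(1 / 2) * (μ : ℝ)) := by
    unfold Vm
    rw [← Real.rpow_natCast 2 μ, ← Real.rpow_mul (by norm_num), mul_comm (μ : ℝ)]
  set B : ℝ := (2 : ℝ) ^ (-(1 / 2) * (μ : ℝ)) with hB
  have hB0 : 0 < B := by rw [hB]; positivity
  cases k with
  | zero =>
    simp only [SR, Nat.cast_zero, mul_zero, Real.rpow_zero, mul_one]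
    rw [hVm]
    have : 0 ≤ 4 * c2R (2 * D + 2) (5 * D) * C5 * B := by positivity
    nlinarith
  | succ j =>
    simp only [SR]
    rw [hVm]
    have e1 : (2 : ℝ) ^ (-(1 - δ) * ((j + 1 : ℕ) : ℝ)) =
        (2 : ℝ) ^ (-(1 - δ)) * ((2 : ℝ) ^ (δ * j) * ((2 : ℝ) ^ j)⁻¹) := by
      rw [← Real.rpow_natCast 2 j, ← Real.rpow_neg (by norm_num), ← Real.rpow_add (by norm_num),
        ← Real.rpow_add (by norm_num)]
      congr 1
      push_cast
      ring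
    have e2 : (1 / 2 : ℝ) ≤ (2 : ℝ) ^ (-(1 - δ)) := by
      have h3 : (2 : ℝ) ^ (-1 : ℝ) ≤ (2 : ℝ) ^ (-(1 - δ)) :=
        Real.rpow_le_rpow_of_exponent_le (by norm_num) (by linarith)
      rwa [Real.rpow_neg_one, ← one_div] at h3
    rw [e1]
    have h4 : 0 ≤ (2 : ℝ) ^ (δ * j) * ((2 : ℝ) ^ j)⁻¹ := by positivity
    calc 2 * (c2R (2 * D + 2) (5 * D) * (10 * B) * (1 + j) / 2 ^ j) ≤
        2 * (c2R (2 * D + 2) (5 * D) * (10 * B) * (C5 * (2 : ℝ) ^ (δ * j)) / 2 ^ j) := by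
          gcongr
          exact h1 j
      _ = 10 * (4 * c2R (2 * D + 2) (5 * D) * C5) * B *
          ((1 / 2) * ((2 : ℝ) ^ (δ * j) * ((2 : ℝ) ^ j)⁻¹)) := by
          rw [div_eq_mul_inv]
          ring
      _ ≤ 10 * (4 + 4 * c2R (2 * D + 2) (5 * D) * C5) * B * ((2 : ℝ) ^ (-(1 - δ)) *
          ((2 : ℝ) ^ (δ * j) * ((2 : ℝ) ^ j)⁻¹)) := by
          gcongr
          linarith

lemma SR_nonneg (D : ℕ) (i : Ix) : 0 ≤ SR D i := by
  obtain ⟨⟨σ, μ⟩, k⟩ := i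
  have h1 := (Vm_pos μ).le
  have h2 := c2R_nonneg (2 * D + 2) (5 * D)
  cases k with
  | zero =>
    simp only [SR]
    positivity
  | succ j =>
    simp only [SR]
    positivity

lemma min_pow_le (μ k : ℕ) : min ((2 : ℝ) ^ μ) (2 ^ k) ≤ (2 : ℝ) ^ ((1 / 3) * (μ : ℝ)) * (2 : ℝ) ^ ((2 / 3) * (k : ℝ)) := by
  rw [← Real.rpow_add (by norm_num)]
  rcases le_total μ k with h | h
  · have h' : (μ : ℝ) ≤ k := by exact_mod_cast h
    calc min ((2 : ℝ) ^ μ) (2 ^ k) ≤ 2 ^ μ := min_le_left _ _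
      _ = (2 : ℝ) ^ (μ : ℝ) := (Real.rpow_natCast 2 μ).symm
      _ ≤ _ := Real.rpow_le_rpow_of_exponent_le (by norm_num) (by linarith)
  · have h' : (k : ℝ) ≤ μ := by exact_mod_cast h
    calc min ((2 : ℝ) ^ μ) (2 ^ k) ≤ 2 ^ k := min_le_right _ _
      _ = (2 : ℝ) ^ (k : ℝ) := (Real.rpow_natCast 2 k).symm
      _ ≤ _ := Real.rpow_le_rpow_of_exponent_le (by norm_num) (by linarith)

section

variable (p r c : Poly) (α : ℝ)

lemma inner_measC (i : Ix) :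
    Measurable fun w : ℝ × (Fin 1 → ℝ) => ∫⁻ z in SQ, UQ p r c α i (w.1, w.2, z) := by
  have h1 : Measurable fun w : (ℝ × (Fin 1 → ℝ)) × (ℝ × ℝ) =>
      UQ p r c α i (w.1.1, w.1.2, w.2) := (UQ_meas p r c α i).comp (by fun_prop)
  exact h1.lintegral_prod_right' (ν := volume.restrict SQ)

lemma inner_measC2 (i : Ix) (t : ℝ) :
    Measurable fun x : Fin 1 → ℝ => ∫⁻ z in SQ, UQ p r c α i (t, x, z) := by
  have h1 : Measurable fun w : (Fin 1 → ℝ) × (ℝ × ℝ) =>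
      UQ p r c α i (t, w.1, w.2) := (UQ_meas p r c α i).comp (by fun_prop)
  exact h1.lintegral_prod_right' (ν := volume.restrict SQ)

/-- integration over the third variable and the time -/
lemma time_sumC (A0 : ℝ≥0∞) (hA0t : A0 ≠ ∞) (w : Ix → ℝ≥0∞) (hwt : ∀ i, w i ≠ ∞)
    (F : ℝ → (Fin 1 → ℝ) → ℝ≥0∞)
    (h1 : ∀ t x, F t x ≤ A0 * ∑' i, w i * ∫⁻ z in SQ, UQ p r c α i (t, x, z)) :
    ∫⁻ t : ℝ, ∫⁻ x : Fin 1 → ℝ, F t x ≤
      A0 * ∑' i, w i * ∫⁻ t : ℝ, ∫⁻ x : Fin 1 → ℝ, ∫⁻ z in SQ, UQ p r c α i (t, x, z) := by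
  have h2 : ∀ t, ∫⁻ x : Fin 1 → ℝ, F t x ≤
      A0 * ∑' i, w i * ∫⁻ x : Fin 1 → ℝ, ∫⁻ z in SQ, UQ p r c α i (t, x, z) := by
    intro t
    refine (lintegral_mono fun x => h1 t x).trans ?_
    rw [lintegral_const_mul' _ _ hA0t, lintegral_tsum]
    · apply mul_le_mul_right
      apply ENNReal.tsum_le_tsum
      intro i
      rw [lintegral_const_mul' _ _ (hwt i)]
    · intro i
      exact ((inner_measC2 p r c α i t).const_mul _).aemeasurable
  refine (lintegral_mono h2).trans ?_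
  rw [lintegral_const_mul' _ _ hA0t, lintegral_tsum]
  swap
  · intro i
    exact ((inner_measC p r c α i).lintegral_prod_right'.const_mul _).aemeasurable
  apply mul_le_mul_right
  apply ENNReal.tsum_le_tsum
  intro i
  rw [lintegral_const_mul' _ _ (hwt i)]

end

/-- **the estimate of the building block** -/
theorem FC_bound (D : ℕ) (q : ℝ) (hq : 8 / 3 < q) :
    ∃ C : ℝ≥0, ∀ (p r c : Poly) (α : ℝ), p.totalDegree ≤ D → r.totalDegree ≤ D →
      c.totalDegree ≤ D → 1 ≤ α →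
      ∫⁻ t : ℝ, ∫⁻ x : Fin 1 → ℝ, ∫⁻ y : ℝ × ℝ, ‖FC p r c α y x t‖ₑ ^ q ≤ C := by
  have hq2 : 0 ≤ q - 2 := by linarith
  set η : ℝ := q - 8 / 3 with hη
  have hη0 : 0 < η := by rw [hη]; linarith
  set W : ℝ := 2 * q - 3 with hW
  have hW0 : 0 < W := by rw [hW]; linarith
  set δ : ℝ := min 1 (η / (4 * W)) with hδ
  have hδ0 : 0 < δ := by rw [hδ]; positivity
  have hδ1 : δ ≤ 1 := min_le_left _ _
  have hδW : δ * W ≤ η / 4 := by
    have h1 : δ ≤ η / (4 * W) := min_le_right _ _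
    calc δ * W ≤ η / (4 * W) * W := by gcongr
      _ = η / 4 := by field_simp
  obtain ⟨C6, hC6, hSR⟩ := SR_bound D δ hδ0
  set b : ℕ → ℝ≥0∞ := fun n => ENNReal.ofReal ((2 : ℝ) ^ (-δ * n)) with hb
  set a : Ix → ℝ≥0∞ := fun i => b i.1.2 * b i.2 with ha
  have hb0 : ∀ n, b n ≠ 0 := by
    intro n
    simp only [hb, ne_eq, ENNReal.ofReal_eq_zero, not_le]
    positivity
  have hbt : ∀ n, b n ≠ ∞ := fun n => ENNReal.ofReal_ne_top
  have ha0 : ∀ i, a i ≠ 0 := fun i => mul_ne_zero (hb0 _) (hb0 _)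
  have hat : ∀ i, a i ≠ ∞ := fun i => ENNReal.mul_ne_top (hbt _) (hbt _)
  have hat2 : ∑' i, a i ≠ ∞ := by
    simp only [ha]
    rw [tsum_Ix b b]
    exact ENNReal.mul_ne_top (ENNReal.mul_ne_top (by norm_num) (MP.geo δ hδ0)) (MP.geo δ hδ0)
  set w : Ix → ℝ≥0∞ := fun i => a i ^ (1 - q) * ENNReal.ofReal (SR D i) ^ (q - 2) with hw
  have hwt : ∀ i, w i ≠ ∞ := by
    intro i
    apply ENNReal.mul_ne_top
    · exact ENNReal.rpow_ne_top_of_ne_zero (ha0 i) (hat i)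
    · exact ENNReal.rpow_ne_top_of_nonneg (by linarith) ENNReal.ofReal_ne_top
  set g : ℕ → ℝ≥0∞ := fun n => ENNReal.ofReal ((2 : ℝ) ^ (-(η / 4) * n)) with hg
  have hterm : ∀ i : Ix, w i * ENNReal.ofReal (min (2 ^ i.1.2) (2 ^ i.2)) ≤
      ENNReal.ofReal (C6 ^ (q - 2)) * (g i.1.2 * g i.2) := by
    rintro ⟨⟨σ, μ⟩, k⟩
    simp only [hw, ha, hg]
    have hbx : ∀ n : ℕ, ∀ x : ℝ, b n ^ x = ENNReal.ofReal ((2 : ℝ) ^ (-δ * n * x)) := by
      intro n x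
      simp only [hb]
      rw [ENNReal.ofReal_rpow_of_pos (by positivity), ← Real.rpow_mul (by norm_num)]
    have h1 : (b μ * b k) ^ (1 - q) = ENNReal.ofReal ((2 : ℝ) ^ (-δ * μ * (1 - q))) *
        ENNReal.ofReal ((2 : ℝ) ^ (-δ * k * (1 - q))) := by
      rw [ENNReal.mul_rpow_of_ne_top (hbt _) (hbt _), hbx, hbx]
    have h2 : ENNReal.ofReal (SR D ((σ, μ), k)) ^ (q - 2) ≤
        ENNReal.ofReal ((C6 * (2 : ℝ) ^ (-(1 / 2) * (μ : ℝ)) * (2 : ℝ) ^ (-(1 - δ) * (k : ℝ))) ^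
          (q - 2)) := by
      rw [← ENNReal.ofReal_rpow_of_nonneg (by positivity) (by linarith)]
      gcongr
      exact hSR ((σ, μ), k)
    have h3 : ENNReal.ofReal (min (2 ^ μ) (2 ^ k)) ≤
        ENNReal.ofReal ((2 : ℝ) ^ ((1 / 3) * (μ : ℝ)) * (2 : ℝ) ^ ((2 / 3) * (k : ℝ))) :=
      ENNReal.ofReal_le_ofReal (min_pow_le μ k)
    have hμ : (0 : ℝ) ≤ μ := Nat.cast_nonneg μ
    have hk : (0 : ℝ) ≤ k := Nat.cast_nonneg k
    calc (b μ * b k) ^ (1 - q) * ENNReal.ofReal (SR D ((σ, μ), k)) ^ (q - 2) *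
        ENNReal.ofReal (min (2 ^ μ) (2 ^ k)) ≤
        ENNReal.ofReal ((2 : ℝ) ^ (-δ * μ * (1 - q))) * ENNReal.ofReal ((2 : ℝ) ^ (-δ * k * (1 - q))) *
        ENNReal.ofReal ((C6 * (2 : ℝ) ^ (-(1 / 2) * (μ : ℝ)) * (2 : ℝ) ^ (-(1 - δ) * (k : ℝ))) ^
          (q - 2)) *
        ENNReal.ofReal ((2 : ℝ) ^ ((1 / 3) * (μ : ℝ)) * (2 : ℝ) ^ ((2 / 3) * (k : ℝ))) := by
          rw [h1]
          gcongr
      _ = ENNReal.ofReal (C6 ^ (q - 2) *
          ((2 : ℝ) ^ (-δ * μ * (1 - q) + -(1 / 2) * μ * (q - 2) + (1 / 3) * μ) *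
          (2 : ℝ) ^ (-δ * k * (1 - q) + -(1 - δ) * k * (q - 2) + (2 / 3) * k))) := by
          rw [← ENNReal.ofReal_mul (by positivity), ← ENNReal.ofReal_mul (by positivity),
            ← ENNReal.ofReal_mul (by positivity)]
          congr 1
          rw [Real.mul_rpow (by positivity) (by positivity), Real.mul_rpow hC6.le (by positivity),
            ← Real.rpow_mul (by norm_num), ← Real.rpow_mul (by norm_num),
            Real.rpow_add (by norm_num), Real.rpow_add (by norm_num), Real.rpow_add (by norm_num),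
            Real.rpow_add (by norm_num)]
          ring
      _ ≤ ENNReal.ofReal (C6 ^ (q - 2) * ((2 : ℝ) ^ (-(η / 4) * μ) * (2 : ℝ) ^ (-(η / 4) * k))) := by
          apply ENNReal.ofReal_le_ofReal
          have f1 : -δ * μ * (1 - q) + -(1 / 2) * μ * (q - 2) + (1 / 3) * μ ≤ -(η / 4) * μ := by
            have e : -δ * μ * (1 - q) + -(1 / 2) * μ * (q - 2) + (1 / 3) * μ =
                (δ * (q - 1) - η / 2) * μ := by rw [hη]; ring
            rw [e]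
            apply mul_le_mul_of_nonneg_right _ hμ
            have : δ * (q - 1) ≤ δ * W := by
              apply mul_le_mul_of_nonneg_left _ hδ0.le
              rw [hW]
              linarith
            linarith
          have f2 : -δ * k * (1 - q) + -(1 - δ) * k * (q - 2) + (2 / 3) * k ≤ -(η / 4) * k := by
            have e : -δ * k * (1 - q) + -(1 - δ) * k * (q - 2) + (2 / 3) * k =
                (δ * W - η) * k := by rw [hη, hW]; ring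
            rw [e]
            apply mul_le_mul_of_nonneg_right _ hk
            linarith
          gcongr
          · norm_num
          · norm_num
      _ = _ := by
          rw [ENNReal.ofReal_mul (by positivity), ENNReal.ofReal_mul (by positivity)]
  set A0 : ℝ≥0∞ := (∑' i, a i) ^ (q - 1) with hA0
  have hA0t : A0 ≠ ∞ := ENNReal.rpow_ne_top_of_nonneg (by linarith) hat2
  set S0 : ℝ≥0∞ := 3 * (∑' n, g n) * ∑' n, g n with hS0
  have hη4 : 0 < η / 4 := by linarith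
  have hS0t : S0 ≠ ∞ := ENNReal.mul_ne_top (ENNReal.mul_ne_top (by norm_num) (MP.geo _ hη4))
    (MP.geo _ hη4)
  have hfin : A0 * (16 * WG * (ENNReal.ofReal (C6 ^ (q - 2)) * S0)) ≠ ∞ :=
    ENNReal.mul_ne_top hA0t (ENNReal.mul_ne_top (ENNReal.mul_ne_top (by norm_num) WG_top)
      (ENNReal.mul_ne_top ENNReal.ofReal_ne_top hS0t))
  refine ⟨(A0 * (16 * WG * (ENNReal.ofReal (C6 ^ (q - 2)) * S0))).toNNReal, ?_⟩
  rw [ENNReal.coe_toNNReal hfin]
  intro p r c α hp hr hc hα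
  have h1 : ∀ (t : ℝ) (x : Fin 1 → ℝ), ∫⁻ y : ℝ × ℝ, ‖FC p r c α y x t‖ₑ ^ q ≤
      A0 * ∑' i, w i * ∫⁻ z in SQ, UQ p r c α i (t, x, z) := by
    intro t x
    simp only [FC_eq]
    refine (fixedR hp (deg_sh hr (x 0)) (deg_sh hc t) q (by linarith) a ha0 hat (α * t)).trans ?_
    apply mul_le_mul_right
    apply ENNReal.tsum_le_tsum
    intro i
    rw [← mul_assoc]
    apply mul_le_mul_right
    rw [← lintegral_indicator (SQ_meas.inter (PC_meas _ _ _ _ _)), ← lintegral_indicator SQ_meas]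
    apply lintegral_mono
    intro z
    by_cases hz : z ∈ SQ ∩ PC p (sh r (x 0)) (sh c t) (α * t) i
    · rw [indicator_of_mem hz, indicator_of_mem hz.1]
      have hmem : ((t, x, z) : Sp) ∈ SP p r c α i := hz.2
      have e2 : UQ p r c α i (t, x, z) = ENNReal.ofReal (wt (ev r z + 2 * Real.pi * x 0)
          (ev c z + 2 * Real.pi * t)) := indicator_of_mem hmem _
      rw [e2, amp_wt, ev_sh, ev_sh]
    · rw [indicator_of_notMem hz]
      exact zero_le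
  refine (time_sumC p r c α A0 hA0t w hwt _ h1).trans ?_
  apply mul_le_mul_right
  calc ∑' i, w i * ∫⁻ t : ℝ, ∫⁻ x : Fin 1 → ℝ, ∫⁻ z in SQ, UQ p r c α i (t, x, z) ≤
      ∑' i : Ix, 16 * WG * (ENNReal.ofReal (C6 ^ (q - 2)) * (g i.1.2 * g i.2)) := by
        apply ENNReal.tsum_le_tsum
        intro i
        calc w i * ∫⁻ t : ℝ, ∫⁻ x : Fin 1 → ℝ, ∫⁻ z in SQ, UQ p r c α i (t, x, z) ≤
            w i * (16 * WG * ENNReal.ofReal (min (2 ^ i.1.2) (2 ^ i.2))) :=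
              mul_le_mul_right (tot_le p r c α hα i) _
          _ = 16 * WG * (w i * ENNReal.ofReal (min (2 ^ i.1.2) (2 ^ i.2))) := by ring
          _ ≤ _ := mul_le_mul_right (hterm i) _
    _ = _ := by
        rw [ENNReal.tsum_mul_left, ENNReal.tsum_mul_left, tsum_Ix g g]

end Pool.Agent.Helper35.CP
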