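import Pool.Agent.Helper35.CP.K
import Pool.Agent.Helper35.MP.X
set_option autoImplicit false

/-! From the building block to functions of three variables. -/

namespace Pool.Agent.Helper35.CP

open MeasureTheory Set Filter Topology Complex Matrix
open scoped ENNReal NNReal
open Pool.Agent.Y183.LS (BA FT ec dt ec_norm ec_add ec_zero dt_comm FT_meas sq2)
open Pool.Agent.Y183.PP (Poly ev ev_cont SQ SQ_meas SQ_vol ex Ph)
open Pool.Agent.Helper35.MP (BR BR_meas BR_SQ BR_fin gauss_int EE JJ Bd sq2_cont ec_cont scale_poly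
  FT_aff_norm mat_meas osc osc_norm smooth_mult JJ_mult JJ_rot JJ_poly cubeP cubeP_eq sq_le_sq2
  sq2_le_BA sq2_orth)

/-- splitting the variables -/
noncomputable def sp3 : (Fin 3 → ℝ) ≃ᵐ (ℝ × ℝ) × (Fin 1 → ℝ) := MP.spl 1

lemma sp3_apply (v : Fin 3 → ℝ) : sp3 v = ((v 0, v 1), fun _ => v 2) := by
  show MP.spl 1 v = _
  rw [MP.spl_apply]
  congr 1
  ext j
  fin_cases j
  rfl

lemma sp3_mp : MeasurePreserving sp3 volume volume := MP.spl_mp 1

/-- the phase -/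
noncomputable def ph3 (p r c : Poly) (w : (ℝ × ℝ) × (Fin 1 → ℝ)) : ℝ :=
  ev p w.1 + w.2 0 * ev r w.1 + w.2 0 ^ 2 * ev c w.1

lemma ph3_cont (p r c : Poly) : Continuous (ph3 p r c) := by
  unfold ph3
  have h1 : ∀ P : Poly, Continuous fun w : (ℝ × ℝ) × (Fin 1 → ℝ) => ev P w.1 := fun P =>
    (ev_cont P).comp continuous_fst
  have h2 : Continuous fun w : (ℝ × ℝ) × (Fin 1 → ℝ) => w.2 0 := by fun_prop
  exact ((h1 p).add (h2.mul (h1 r))).add ((h2.pow 2).mul (h1 c))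

/-- the building block as a function of the split variables -/
noncomputable def G0 (p r c : Poly) (w : (ℝ × ℝ) × (Fin 1 → ℝ)) : ℂ :=
  cexp (((-∑ j, w.2 j ^ 2 : ℝ) : ℂ) + ((ph3 p r c w : ℝ) : ℂ) * I)

lemma G0_cont (p r c : Poly) : Continuous (G0 p r c) := by
  unfold G0
  have := ph3_cont p r c
  fun_prop

lemma G0_norm (p r c : Poly) (w : (ℝ × ℝ) × (Fin 1 → ℝ)) :
    ‖G0 p r c w‖ = Real.exp (-∑ j, w.2 j ^ 2) := by
  unfold G0
  rw [Complex.norm_exp, Complex.add_re, Complex.ofReal_re, Complex.re_ofReal_mul, Complex.I_re,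
    mul_zero, add_zero]

lemma G0_int (S : Set (ℝ × ℝ)) (hS : MeasurableSet S) (hfin : volume S ≠ ∞) (p r c : Poly) :
    Integrable ({w : (ℝ × ℝ) × (Fin 1 → ℝ) | w.1 ∈ S}.indicator (G0 p r c)) := by
  have h1 : Integrable (S.indicator fun _ => (1 : ℝ)) :=
    (integrable_indicator_iff hS).mpr (integrableOn_const hfin)
  have h2 := h1.mul_prod (gauss_int 1)
  refine h2.mono' ?_ ?_
  · exact ((G0_cont p r c).measurable.indicator (measurable_fst hS)).aestronglyMeasurable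
  · apply ae_of_all
    intro w
    by_cases hw : w.1 ∈ S
    · rw [indicator_of_mem (show w ∈ {w : (ℝ × ℝ) × (Fin 1 → ℝ) | w.1 ∈ S} from hw),
        indicator_of_mem hw, one_mul, G0_norm]
    · rw [indicator_of_notMem (show w ∉ {w : (ℝ × ℝ) × (Fin 1 → ℝ) | w.1 ∈ S} from hw),
        indicator_of_notMem hw, zero_mul, norm_zero]

/-- the function `e^{-ζ_2²} e^{i P(ζ)}` for `|ζ_0|, |ζ_1| ≤ R` -/
noncomputable def g0 (R : ℝ) (p r c : Poly) (v : Fin 3 → ℝ) : ℂ :=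
  {w : (ℝ × ℝ) × (Fin 1 → ℝ) | w.1 ∈ BR R}.indicator (G0 p r c) (sp3 v)

lemma g0_meas (R : ℝ) (p r c : Poly) : Measurable (g0 R p r c) :=
  ((G0_cont p r c).measurable.indicator (MP.ind_meas R)).comp sp3.measurable

lemma g0_int (R : ℝ) (p r c : Poly) : Integrable (g0 R p r c) := by
  have h := G0_int (BR R) (BR_meas R) (BR_fin R) p r c
  exact sp3_mp.integrable_comp_emb sp3.measurableEmbedding |>.mpr h

/-- the scaling of the planar variables -/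
noncomputable def sc3 (R : ℝ) : Fin 3 → ℝ := ![R, R, 1]

lemma sc3_det (R : ℝ) : (Matrix.diagonal (sc3 R)).det = R ^ 2 := by
  rw [Matrix.det_diagonal, Fin.prod_univ_three]
  simp [sc3]
  ring

/-- **the connection with the building block** -/
lemma block3 (R : ℝ) (hR : 0 < R) (p p' r r' c c' : Poly)
    (hp : ∀ z : ℝ × ℝ, ev p' z = ev p (R * z.1, R * z.2))
    (hr : ∀ z : ℝ × ℝ, ev r' z = ev r (R * z.1, R * z.2))
    (hc : ∀ z : ℝ × ℝ, ev c' z = ev c (R * z.1, R * z.2)) (t : ℝ)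
    (x : Fin 3 → ℝ) :
    FT (fun v => (fun v => g0 R p r c v * ec (t * sq2 v)) (Matrix.diagonal (sc3 R) *ᵥ v + 0)) x =
      FC p' r' c' (R ^ 2) (sp3 x).1 (sp3 x).2 t := by
  set G : (ℝ × ℝ) × (Fin 1 → ℝ) → ℂ := fun w => {w : (ℝ × ℝ) × (Fin 1 → ℝ) | w.1 ∈ SQ}.indicator
    (G0 p' r' c') w * (ec (t * (R ^ 2 * (w.1.1 ^ 2 + w.1.2 ^ 2) + ∑ j, w.2 j ^ 2)) *
      ec (x 0 * w.1.1 + x 1 * w.1.2 + ∑ j, x 2 * w.2 j)) with hG
  have h1 : FT (fun v => (fun v => g0 R p r c v * ec (t * sq2 v))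
      (Matrix.diagonal (sc3 R) *ᵥ v + 0)) x = ∫ v, G (sp3 v) := by
    unfold FT
    congr 1
    ext v
    simp only [hG]
    set u : Fin 3 → ℝ := Matrix.diagonal (sc3 R) *ᵥ v + 0 with hu
    have hu0 : u 0 = R * v 0 := by
      simp [hu, Matrix.mulVec_diagonal, sc3]
    have hu1 : u 1 = R * v 1 := by
      simp [hu, Matrix.mulVec_diagonal, sc3]
    have hu2 : u 2 = v 2 := by
      simp [hu, Matrix.mulVec_diagonal, sc3]
    have hsq : sq2 u = R ^ 2 * (v 0 ^ 2 + v 1 ^ 2) + v 2 ^ 2 := by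
      unfold sq2
      rw [Fin.sum_univ_three, hu0, hu1, hu2]
      ring
    have hdt : dt x v = x 0 * v 0 + x 1 * v 1 + x 2 * v 2 := by
      unfold dt
      rw [Fin.sum_univ_three]
    have hf : g0 R p r c u = {w : (ℝ × ℝ) × (Fin 1 → ℝ) | w.1 ∈ SQ}.indicator (G0 p' r' c')
        (sp3 v) := by
      unfold g0
      rw [sp3_apply, sp3_apply, hu0, hu1, hu2]
      by_cases h : ((v 0, v 1) : ℝ × ℝ) ∈ SQ
      · have h' := (BR_SQ R hR (v 0, v 1)).mpr h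
        rw [indicator_of_mem (show ((((R * v 0, R * v 1) : ℝ × ℝ), fun _ : Fin 1 => v 2) :
          (ℝ × ℝ) × (Fin 1 → ℝ)) ∈ {w : (ℝ × ℝ) × (Fin 1 → ℝ) | w.1 ∈ BR R} from h'),
          indicator_of_mem (show ((((v 0, v 1) : ℝ × ℝ), fun _ : Fin 1 => v 2) :
          (ℝ × ℝ) × (Fin 1 → ℝ)) ∈ {w : (ℝ × ℝ) × (Fin 1 → ℝ) | w.1 ∈ SQ} from h)]
        unfold G0 ph3
        simp only [hp, hr, hc]
      · have h' := fun h' => h ((BR_SQ R hR (v 0, v 1)).mp h')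
        rw [indicator_of_notMem (show ((((R * v 0, R * v 1) : ℝ × ℝ), fun _ : Fin 1 => v 2) :
          (ℝ × ℝ) × (Fin 1 → ℝ)) ∉ {w : (ℝ × ℝ) × (Fin 1 → ℝ) | w.1 ∈ BR R} from h'),
          indicator_of_notMem (show ((((v 0, v 1) : ℝ × ℝ), fun _ : Fin 1 => v 2) :
          (ℝ × ℝ) × (Fin 1 → ℝ)) ∉ {w : (ℝ × ℝ) × (Fin 1 → ℝ) | w.1 ∈ SQ} from h)]
    rw [hf, hsq, hdt, sp3_apply]
    simp only [Fin.sum_univ_one]
    ring
  have h2 : ∫ v, G (sp3 v) = ∫ w, G w := sp3_mp.integral_comp sp3.measurableEmbedding G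
  have hGi : Integrable G := by
    have h3 := G0_int SQ SQ_meas (by rw [SQ_vol]; norm_num) p' r' c'
    refine h3.mul_bdd (c := 1) ?_ ?_
    · apply Continuous.aestronglyMeasurable
      exact (ec_cont.comp (by fun_prop)).mul (ec_cont.comp (by fun_prop))
    · apply ae_of_all
      intro w
      rw [norm_mul, ec_norm, ec_norm, mul_one]
  rw [h1, h2, Measure.volume_eq_prod, integral_prod _ hGi]
  unfold FC
  rw [← integral_indicator SQ_meas]
  congr 1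
  ext z
  by_cases hz : z ∈ SQ
  · rw [indicator_of_mem hz]
    congr 1
    ext v
    simp only [hG]
    rw [indicator_of_mem (show ((z, v) : (ℝ × ℝ) × (Fin 1 → ℝ)) ∈
      {w : (ℝ × ℝ) × (Fin 1 → ℝ) | w.1 ∈ SQ} from hz)]
    unfold G0 ec ph3
    rw [← Complex.exp_add, ← Complex.exp_add, sp3_apply]
    congr 1
    simp only [Fin.sum_univ_one]
    push_cast
    ring
  · rw [indicator_of_notMem hz]
    have : ∀ v : Fin 1 → ℝ, G (z, v) = 0 := by
      intro v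
      simp only [hG]
      rw [indicator_of_notMem (show ((z, v) : (ℝ × ℝ) × (Fin 1 → ℝ)) ∉
        {w : (ℝ × ℝ) × (Fin 1 → ℝ) | w.1 ∈ SQ} from hz), zero_mul]
    simp only [this, integral_zero]

/-- **the estimate of the basic function** -/
theorem JJ_g0 (D : ℕ) (q : ℝ) (hq : 8 / 3 < q) (R : ℝ) (hR : 1 ≤ R) :
    ∃ C : ℝ≥0, ∀ (p r c : Poly), p.totalDegree ≤ D → r.totalDegree ≤ D → c.totalDegree ≤ D →
      JJ q (g0 R p r c) ≤ C := by
  obtain ⟨C, hC⟩ := FC_bound D q hq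
  have hR0 : 0 < R := by linarith
  set M : Matrix (Fin 3) (Fin 3) ℝ := Matrix.diagonal (sc3 R) with hM
  have hMd : M.det ≠ 0 := by
    rw [hM, sc3_det]
    positivity
  set s : ℝ≥0∞ := ENNReal.ofReal |M.det⁻¹| with hs
  have hs0 : s ≠ 0 := by
    rw [hs, ne_eq, ENNReal.ofReal_eq_zero, not_le]
    exact abs_pos.mpr (inv_ne_zero hMd)
  have hst : s ≠ ∞ := ENNReal.ofReal_ne_top
  have hsq0 : s ^ q ≠ 0 := by
    rw [ne_eq, ENNReal.rpow_eq_zero_iff]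
    rintro (⟨h13, -⟩ | ⟨h13, -⟩)
    · exact hs0 h13
    · exact hst h13
  have hsqt : s ^ q ≠ ∞ := ENNReal.rpow_ne_top_of_nonneg (by linarith) hst
  have hfin : (s ^ q)⁻¹ * (s * C) ≠ ∞ :=
    ENNReal.mul_ne_top (ENNReal.inv_ne_top.mpr hsq0) (ENNReal.mul_ne_top hst ENNReal.coe_ne_top)
  refine ⟨((s ^ q)⁻¹ * (s * C)).toNNReal, ?_⟩
  rw [ENNReal.coe_toNNReal hfin]
  intro p r c hp hr hc
  obtain ⟨p', hp'd, hp'⟩ := scale_poly R p
  obtain ⟨r', hr'd, hr'⟩ := scale_poly R r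
  obtain ⟨c', hc'd, hc'⟩ := scale_poly R c
  have hb := hC p' r' c' (R ^ 2) (hp'd.trans hp) (hr'd.trans hr) (hc'd.trans hc)
    (one_le_pow₀ hR)
  have hfm := g0_meas R p r c
  have hfix : ∀ t, ∫⁻ x : Fin 3 → ℝ, ‖EE (g0 R p r c) x t‖ₑ ^ q =
      (s ^ q)⁻¹ * (s * ∫⁻ x : Fin 1 → ℝ, ∫⁻ y : ℝ × ℝ, ‖FC p' r' c' (R ^ 2) y x t‖ₑ ^ q) := by
    intro t
    have hHm : Measurable fun v : Fin 3 → ℝ => g0 R p r c v * ec (t * sq2 v) :=
      hfm.mul (ec_cont.comp (continuous_const.mul sq2_cont)).measurable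
    have h1 := FT_aff_norm M hMd 0 q (by linarith) _ hHm
    rw [← hs] at h1
    have h2 : ∫⁻ x : Fin 3 → ℝ, ‖EE (g0 R p r c) x t‖ₑ ^ q = (s ^ q)⁻¹ *
        (s ^ q * ∫⁻ x : Fin 3 → ℝ, ‖EE (g0 R p r c) x t‖ₑ ^ q) := by
      rw [← mul_assoc, ENNReal.inv_mul_cancel hsq0 hsqt, one_mul]
    rw [h2]
    congr 1
    unfold EE
    rw [← h1]
    congr 1
    have hbl : ∀ x, FT (fun v => (fun v => g0 R p r c v * ec (t * sq2 v)) (M *ᵥ v + 0)) x =
      FC p' r' c' (R ^ 2) (sp3 x).1 (sp3 x).2 t :=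
        fun x => block3 R hR0 p p' r r' c c' hp' hr' hc' t x
    have hFBm : Measurable fun w : (ℝ × ℝ) × (Fin 1 → ℝ) => FC p' r' c' (R ^ 2) w.1 w.2 t := by
      have h5 : (fun w : (ℝ × ℝ) × (Fin 1 → ℝ) => FC p' r' c' (R ^ 2) w.1 w.2 t) = fun w =>
          FT (fun v => (fun v => g0 R p r c v * ec (t * sq2 v)) (M *ᵥ v + 0)) (sp3.symm w) := by
        ext w
        rw [hbl, MeasurableEquiv.apply_symm_apply]
      rw [h5]
      exact (FT_meas (hHm.comp ((mat_meas M).add_const 0))).comp sp3.symm.measurable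
    have h6 := sp3_mp.lintegral_comp_emb sp3.measurableEmbedding
      (fun w : (ℝ × ℝ) × (Fin 1 → ℝ) => ‖FC p' r' c' (R ^ 2) w.1 w.2 t‖ₑ ^ q)
    rw [Measure.volume_eq_prod, lintegral_prod_symm _ (hFBm.enorm.pow_const q).aemeasurable] at h6
    rw [← h6]
    apply lintegral_congr
    intro x
    rw [← hbl]
  unfold JJ
  simp only [hfix]
  rw [lintegral_const_mul' _ _ (ENNReal.inv_ne_top.mpr hsq0), lintegral_const_mul' _ _ hst]
  gcongr

/-- functions that are equal to `e^{iφ}` on a large ball -/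
theorem core3 (D : ℕ) (q : ℝ) (hq : 8 / 3 < q) :
    ∃ C : ℝ≥0, ∀ (V : Matrix (Fin 3) (Fin 3) ℝ), Vᵀ * V = 1 →
      ∀ (p r c : Poly), p.totalDegree ≤ D → r.totalDegree ≤ D → c.totalDegree ≤ D →
      ∃ f : (Fin 3 → ℝ) → ℂ, Bd f ∧ JJ q f ≤ C ∧
        ∀ v ∈ BA 1 3, f v = osc (fun v => ph3 p r c (sp3 (V *ᵥ v))) v := by
  have hq2 : 1 < q := by linarith
  set R : ℝ := 3 with hR
  have hR0 : 0 < R := by positivity
  have hR1 : 1 ≤ R := by
    rw [hR]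
    norm_num
  obtain ⟨C, hC⟩ := JJ_g0 D q hq R hR1
  obtain ⟨k, hk, hkt, θ, hθk, hθm, ⟨B, hB⟩, hθ, ⟨ρ', hρ'⟩⟩ := smooth_mult (n := 3) R hR0
    (fun v => v 2 ^ 2) (by fun_prop)
  refine ⟨((∫⁻ y, ‖k y‖ₑ) ^ q * C).toNNReal, ?_⟩
  intro V hV p r c hp hr hc
  have hf0 := g0_meas R p r c
  set f1 : (Fin 3 → ℝ) → ℂ := fun v => θ v * g0 R p r c v with hf1
  have hf1m : Measurable f1 := hθm.mul hf0
  have hf0b : ∀ v, ‖g0 R p r c v‖ ≤ 1 := by
    intro v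
    unfold g0
    by_cases h : sp3 v ∈ {w : (ℝ × ℝ) × (Fin 1 → ℝ) | w.1 ∈ BR R}
    · rw [indicator_of_mem h, G0_norm, Real.exp_le_one_iff]
      have : 0 ≤ ∑ j, (sp3 v).2 j ^ 2 := Finset.sum_nonneg fun j _ => sq_nonneg _
      linarith
    · rw [indicator_of_notMem h, norm_zero]
      exact zero_le_one
  have hJ1 : JJ q f1 ≤ (∫⁻ y, ‖k y‖ₑ) ^ q * C := by
    have h1 := JJ_mult q hq2 k hk hkt (g0 R p r c) hf0 (g0_int R p r c)
    simp only [← hθk] at h1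
    refine h1.trans ?_
    gcongr
    exact hC p r c hp hr hc
  have hf1v : ∀ v, sq2 v ≤ R ^ 2 → f1 v = osc (fun v => ph3 p r c (sp3 v)) v := by
    intro v hv
    have h1 : ∀ i, |v i| ≤ R := fun i => abs_le_of_sq_le_sq ((sq_le_sq2 v i).trans hv) hR0.le
    simp only [hf1]
    rw [hθ v hv]
    unfold g0
    have hmem : sp3 v ∈ {w : (ℝ × ℝ) × (Fin 1 → ℝ) | w.1 ∈ BR R} := by
      rw [sp3_apply]
      exact ⟨h1 0, h1 1⟩
    rw [indicator_of_mem hmem]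
    unfold G0 osc
    rw [Complex.ofReal_exp, ← Complex.exp_add]
    congr 1
    have h2 : ((v 2 ^ 2 : ℝ) : ℂ) + ((-∑ j, (sp3 v).2 j ^ 2 : ℝ) : ℂ) = 0 := by
      rw [sp3_apply, ← Complex.ofReal_add]
      simp
    rw [← add_assoc, h2, zero_add]
  refine ⟨fun v => f1 (V *ᵥ v), ?_, ?_, ?_⟩
  · refine ⟨hf1m.comp (mat_meas V), ⟨B * 1, fun v => ?_⟩, ⟨(1 + (3 : ℕ)) * (1 + ρ' ^ 2), fun v hv => ?_⟩⟩
    · simp only [hf1]
      rw [norm_mul]
      exact mul_le_mul (hB _) (hf0b _) (norm_nonneg _) ((norm_nonneg _).trans (hB 0))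
    · by_contra hc
      have h1 : V *ᵥ v ∈ BA ρ' 3 := by
        by_contra h2
        apply hc
        simp only [hf1]
        rw [hρ' _ h2, zero_mul]
      have h2 := sq2_le_BA ρ' _ h1
      rw [sq2_orth V hV] at h2
      apply hv
      have h3 : ∀ i, |v i| ≤ (1 + (3 : ℕ)) * (1 + ρ' ^ 2) := by
        intro i
        apply abs_le_of_sq_le_sq _ (by positivity)
        refine ((sq_le_sq2 v i).trans h2).trans ?_
        have h5 : 0 ≤ ρ' ^ 2 := sq_nonneg _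
        push_cast
        nlinarith [mul_nonneg h5 h5]
      exact ⟨fun i => (abs_le.mp (h3 i)).1, fun i => (abs_le.mp (h3 i)).2⟩
  · rw [JJ_rot q f1 hf1m V hV]
    rw [ENNReal.coe_toNNReal]
    · exact hJ1
    · exact ENNReal.mul_ne_top (ENNReal.rpow_ne_top_of_nonneg (by linarith) hkt) ENNReal.coe_ne_top
  · intro v hv
    have h1 := sq2_le_BA 1 v hv
    have h2 : sq2 (V *ᵥ v) ≤ R ^ 2 := by
      rw [sq2_orth V hV]
      refine h1.trans ?_
      rw [hR]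
      push_cast
      norm_num
    simp only
    rw [hf1v _ h2]
    rfl

/-- **the estimate for one phase and one polyhedron** -/
theorem single3 (D N : ℕ) (q : ℝ) (hq : 8 / 3 < q) :
    ∃ C : ℝ≥0, ∀ (V : Matrix (Fin 3) (Fin 3) ℝ), Vᵀ * V = 1 →
      ∀ (p r c : Poly), p.totalDegree ≤ D → r.totalDegree ≤ D → c.totalDegree ≤ D →
      ∀ (A : Fin N → Fin 3 → ℝ) (b : Fin N → ℝ),
      JJ q ((cubeP A b).indicator (osc fun v => ph3 p r c (sp3 (V *ᵥ v)))) ≤ C := by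
  have hq2 : 1 < q := by linarith
  obtain ⟨C, hC⟩ := core3 D q hq
  obtain ⟨C', -, hC'⟩ := JJ_poly q hq2
  refine ⟨C' ^ (Finset.univ : Finset (Fin N ⊕ (Fin 3 ⊕ Fin 3))).card * C, ?_⟩
  intro V hV p r c hp hr hc A b
  obtain ⟨f, hf, hJ, hfv⟩ := hC V hV p r c hp hr hc
  have h1 := hC' 3 f hf _ (Finset.univ : Finset (Fin N ⊕ (Fin 3 ⊕ Fin 3)))
      (Sum.elim A (Sum.elim (fun i => Pi.single i 1) (fun i => Pi.single i (-1))))
      (Sum.elim b (Sum.elim (fun _ => 1) (fun _ => 1)))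
  rw [← cubeP_eq] at h1
  have h2 : (cubeP A b).indicator f =
      (cubeP A b).indicator (osc fun v => ph3 p r c (sp3 (V *ᵥ v))) := by
    ext v
    by_cases h : v ∈ cubeP A b
    · rw [indicator_of_mem h, indicator_of_mem h]
      exact hfv v h.1
    · rw [indicator_of_notMem h, indicator_of_notMem h]
  rw [h2] at h1
  refine h1.trans ?_
  push_cast
  gcongr

end Pool.Agent.Helper35.CP
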