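import Pool.Agent.Helper35.CP.L
set_option autoImplicit false

/-! Cubic polynomials of three variables are quadratic in one variable after a rotation. -/

namespace Pool.Agent.Helper35.CP

open MeasureTheory Set Filter Topology Matrix
open scoped ENNReal NNReal
open Pool.Agent.Y183.PP (Poly ev)

lemma deg_aeval {n k : ℕ} (φ : MvPolynomial (Fin n) ℝ) (L : Fin n → MvPolynomial (Fin k) ℝ)
    (hL : ∀ i, (L i).totalDegree ≤ 1) : (MvPolynomial.aeval L φ).totalDegree ≤ φ.totalDegree := by
  rw [MvPolynomial.aeval_def, MvPolynomial.eval₂_eq']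
  refine (MvPolynomial.totalDegree_finsetSum _ _).trans (Finset.sup_le fun d hd => ?_)
  refine (MvPolynomial.totalDegree_mul _ _).trans ?_
  have h1 : ((algebraMap ℝ (MvPolynomial (Fin k) ℝ)) (MvPolynomial.coeff d φ)).totalDegree = 0 :=
    MvPolynomial.totalDegree_C _
  rw [h1, zero_add]
  refine (MvPolynomial.totalDegree_finsetProd _ _).trans ?_
  have h2 : ∀ i, (L i ^ d i).totalDegree ≤ d i := by
    intro i
    refine (MvPolynomial.totalDegree_pow _ _).trans ?_
    calc d i * (L i).totalDegree ≤ d i * 1 := Nat.mul_le_mul_left _ (hL i)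
      _ = d i := mul_one _
  refine (Finset.sum_le_sum fun i _ => h2 i).trans ?_
  have h3 := MvPolynomial.le_totalDegree hd
  rw [Finsupp.sum_fintype _ _ (fun _ => rfl)] at h3
  exact h3

lemma eval_aeval' {n k : ℕ} (φ : MvPolynomial (Fin n) ℝ) (L : Fin n → MvPolynomial (Fin k) ℝ)
    (v : Fin k → ℝ) : MvPolynomial.eval v (MvPolynomial.aeval L φ) =
      MvPolynomial.eval (fun i => MvPolynomial.eval v (L i)) φ := by
  induction φ using MvPolynomial.induction_on with
  | C a => simp
  | add p q hp hq => simp only [map_add, hp, hq]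
  | mul_X p i hp => simp only [map_mul, hp, MvPolynomial.aeval_X, MvPolynomial.eval_X]

/-- third differences of cubic polynomials -/
lemma third (f : Polynomial ℝ) (hf : f.natDegree ≤ 3) :
    f.eval 3 - 3 * f.eval 2 + 3 * f.eval 1 - f.eval 0 = 6 * f.coeff 3 ∧
    f.eval (-3) - 3 * f.eval (-2) + 3 * f.eval (-1) - f.eval 0 = -(6 * f.coeff 3) := by
  have h : ∀ x, f.eval x = f.coeff 0 + f.coeff 1 * x + f.coeff 2 * x ^ 2 + f.coeff 3 * x ^ 3 := by
    intro x
    rw [Polynomial.eval_eq_sum_range' (lt_of_le_of_lt hf (by norm_num : 3 < 4))]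
    simp only [Finset.sum_range_succ, Finset.sum_range_zero]
    ring
  constructor
  · rw [h 3, h 2, h 1, h 0]
    ring
  · rw [h (-3), h (-2), h (-1), h 0]
    ring

/-- the restriction to a line through the origin -/
lemma ray (φ : MvPolynomial (Fin 3) ℝ) (hφ : φ.totalDegree ≤ 3) (e : Fin 3 → ℝ) :
    ∃ f : Polynomial ℝ, f.natDegree ≤ 3 ∧ ∀ x, f.eval x = MvPolynomial.eval (x • e) φ := by
  refine ⟨MvPolynomial.aeval (fun i => Polynomial.C (e i) * Polynomial.X) φ, ?_, ?_⟩
  · have h := MvPolynomial.aeval_natDegree_le (m := 3) (n := 1) φ hφ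
      (fun i => Polynomial.C (e i) * Polynomial.X) (fun i => (Polynomial.natDegree_C_mul_le _ _).trans Polynomial.natDegree_X_le)
    simpa using h
  · intro x
    induction φ using MvPolynomial.induction_on with
    | C a => simp
    | add p q hp hq =>
      have hp' : Polynomial.eval x (MvPolynomial.aeval (fun i => Polynomial.C (e i) * Polynomial.X) p) =
          MvPolynomial.eval (x • e) p := by
        clear hφ hp hq
        induction p using MvPolynomial.induction_on with
        | C a => simp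
        | add p q hp hq => simp only [map_add, Polynomial.eval_add, hp, hq]
        | mul_X p i hp =>
          simp only [map_mul, Polynomial.eval_mul, hp, MvPolynomial.aeval_X, MvPolynomial.eval_X,
            Polynomial.eval_C, Polynomial.eval_X, Pi.smul_apply, smul_eq_mul]
          ring
      have hq' : Polynomial.eval x (MvPolynomial.aeval (fun i => Polynomial.C (e i) * Polynomial.X) q) =
          MvPolynomial.eval (x • e) q := by
        clear hφ hp hq hp'
        induction q using MvPolynomial.induction_on with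
        | C a => simp
        | add p q hp hq => simp only [map_add, Polynomial.eval_add, hp, hq]
        | mul_X p i hp =>
          simp only [map_mul, Polynomial.eval_mul, hp, MvPolynomial.aeval_X, MvPolynomial.eval_X,
            Polynomial.eval_C, Polynomial.eval_X, Pi.smul_apply, smul_eq_mul]
          ring
      simp only [map_add, Polynomial.eval_add, hp', hq']
    | mul_X p i hp =>
      have hp' : Polynomial.eval x (MvPolynomial.aeval (fun i => Polynomial.C (e i) * Polynomial.X) p) =
          MvPolynomial.eval (x • e) p := by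
        clear hφ hp
        induction p using MvPolynomial.induction_on with
        | C a => simp
        | add p q hp hq => simp only [map_add, Polynomial.eval_add, hp, hq]
        | mul_X p i hp =>
          simp only [map_mul, Polynomial.eval_mul, hp, MvPolynomial.aeval_X, MvPolynomial.eval_X,
            Polynomial.eval_C, Polynomial.eval_X, Pi.smul_apply, smul_eq_mul]
          ring
      simp only [map_mul, Polynomial.eval_mul, hp', MvPolynomial.aeval_X, MvPolynomial.eval_X,
        Polynomial.eval_C, Polynomial.eval_X, Pi.smul_apply, smul_eq_mul]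
      ring

/-- the third difference on the unit circle -/
noncomputable def F3 (φ : MvPolynomial (Fin 3) ℝ) (θ : ℝ) : ℝ :=
  MvPolynomial.eval ((3 : ℝ) • ![Real.cos θ, Real.sin θ, 0]) φ -
    3 * MvPolynomial.eval ((2 : ℝ) • ![Real.cos θ, Real.sin θ, 0]) φ +
    3 * MvPolynomial.eval ((1 : ℝ) • ![Real.cos θ, Real.sin θ, 0]) φ -
    MvPolynomial.eval ((0 : ℝ) • ![Real.cos θ, Real.sin θ, 0]) φ

lemma F3_cont (φ : MvPolynomial (Fin 3) ℝ) : Continuous (F3 φ) := by
  have h : ∀ x : ℝ, Continuous fun θ : ℝ =>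
      MvPolynomial.eval (x • ![Real.cos θ, Real.sin θ, 0]) φ := by
    intro x
    apply (MvPolynomial.continuous_eval φ).comp
    apply continuous_pi
    intro i
    fin_cases i
    · exact continuous_const.mul Real.continuous_cos
    · exact continuous_const.mul Real.continuous_sin
    · show Continuous fun _ : ℝ => x • (0 : ℝ)
      exact continuous_const
  unfold F3
  exact (((h 3).sub (continuous_const.mul (h 2))).add (continuous_const.mul (h 1))).sub (h 0)

lemma F3_odd (φ : MvPolynomial (Fin 3) ℝ) (hφ : φ.totalDegree ≤ 3) : F3 φ Real.pi = -F3 φ 0 := by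
  obtain ⟨f, hf, hfe⟩ := ray φ hφ ![Real.cos 0, Real.sin 0, 0]
  obtain ⟨h1, h2⟩ := third f hf
  have e : ∀ x : ℝ, MvPolynomial.eval (x • ![Real.cos Real.pi, Real.sin Real.pi, 0]) φ =
      f.eval (-x) := by
    intro x
    have hv : (x • ![Real.cos Real.pi, Real.sin Real.pi, 0] : Fin 3 → ℝ) =
        (-x) • ![Real.cos 0, Real.sin 0, 0] := by
      ext i
      fin_cases i <;> simp
    rw [hfe, hv]
  unfold F3
  rw [e 3, e 2, e 1, e 0, ← hfe, ← hfe, ← hfe, ← hfe, neg_zero, h1, h2]

lemma F3_zero (φ : MvPolynomial (Fin 3) ℝ) (hφ : φ.totalDegree ≤ 3) : ∃ θ, F3 φ θ = 0 := by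
  have h := intermediate_value_uIcc (a := (0 : ℝ)) (b := Real.pi) (F3_cont φ).continuousOn
  have h0 : (0 : ℝ) ∈ uIcc (F3 φ 0) (F3 φ Real.pi) := by
    rw [F3_odd φ hφ, mem_uIcc]
    rcases le_total 0 (F3 φ 0) with h1 | h1
    · right
      constructor <;> linarith
    · left
      constructor <;> linarith
  obtain ⟨θ, _, hθ⟩ := h h0
  exact ⟨θ, hθ⟩

/-- **the reduction of cubic polynomials** -/
theorem cubic_red (φ : MvPolynomial (Fin 3) ℝ) (hφ : φ.totalDegree ≤ 3) :
    ∃ (V : Matrix (Fin 3) (Fin 3) ℝ) (p r c : Poly), Vᵀ * V = 1 ∧ p.totalDegree ≤ 3 ∧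
      r.totalDegree ≤ 3 ∧ c.totalDegree ≤ 3 ∧
      ∀ ξ : Fin 3 → ℝ, MvPolynomial.eval ξ φ = ph3 p r c (sp3 (V *ᵥ ξ)) := by
  obtain ⟨θ, hθ⟩ := F3_zero φ hφ
  set C := Real.cos θ with hC
  set S := Real.sin θ with hS
  have hCS : C ^ 2 + S ^ 2 = 1 := by rw [hC, hS]; exact Real.cos_sq_add_sin_sq θ
  set V : Matrix (Fin 3) (Fin 3) ℝ := !![-S, C, 0; 0, 0, 1; C, S, 0] with hV
  set L : Fin 3 → MvPolynomial (Fin 3) ℝ :=
    ![MvPolynomial.C C * MvPolynomial.X 0 - MvPolynomial.C S * MvPolynomial.X 1,
      MvPolynomial.C S * MvPolynomial.X 0 + MvPolynomial.C C * MvPolynomial.X 1,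
      MvPolynomial.X 2] with hL
  have hX : ∀ (a : ℝ) (i : Fin 3), (MvPolynomial.C a * MvPolynomial.X i :
      MvPolynomial (Fin 3) ℝ).totalDegree ≤ 1 := by
    intro a i
    refine (MvPolynomial.totalDegree_mul _ _).trans ?_
    rw [MvPolynomial.totalDegree_C, MvPolynomial.totalDegree_X]
  have hLd : ∀ i, (L i).totalDegree ≤ 1 := by
    intro i
    fin_cases i
    · exact (MvPolynomial.totalDegree_sub _ _).trans (max_le (hX _ _) (hX _ _))
    · exact (MvPolynomial.totalDegree_add _ _).trans (max_le (hX _ _) (hX _ _))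
    · show (MvPolynomial.X 2 : MvPolynomial (Fin 3) ℝ).totalDegree ≤ 1
      rw [MvPolynomial.totalDegree_X]
  set Q : MvPolynomial (Fin 3) ℝ := MvPolynomial.aeval L φ with hQ
  have hQd : Q.totalDegree ≤ 3 := (deg_aeval φ L hLd).trans hφ
  have hQe : ∀ y a b : ℝ, MvPolynomial.eval (Fin.cons y ![a, b]) Q =
      MvPolynomial.eval ![C * y - S * a, S * y + C * a, b] φ := by
    intro y a b
    have hv : (fun i => MvPolynomial.eval (Fin.cons y ![a, b]) (L i)) =
        ![C * y - S * a, S * y + C * a, b] := by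
      ext i
      fin_cases i
      · simp [hL]
      · simp [hL]
      · simp [hL]
    rw [hQ, eval_aeval', hv]
  set H := MvPolynomial.finSuccEquiv ℝ 2 Q with hH
  have hHc : ∀ i, (H.coeff i).totalDegree ≤ 3 := by
    intro i
    by_cases h : H.coeff i = 0
    · rw [h, MvPolynomial.totalDegree_zero]
      omega
    · have := MvPolynomial.totalDegree_coeff_finSuccEquiv_add_le Q i h
      rw [← hH] at this
      omega
  have hHd : H.natDegree ≤ 3 := by
    by_contra hcon
    push Not at hcon
    have h0 : H ≠ 0 := by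
      intro h
      rw [h, Polynomial.natDegree_zero] at hcon
      omega
    have h1 : H.coeff H.natDegree ≠ 0 := by
      rw [Polynomial.coeff_natDegree]
      exact Polynomial.leadingCoeff_ne_zero.mpr h0
    have := MvPolynomial.totalDegree_coeff_finSuccEquiv_add_le Q _ h1
    rw [← hH] at this
    omega
  have hH3 : ∃ a : ℝ, H.coeff 3 = MvPolynomial.C a := by
    by_cases h : H.coeff 3 = 0
    · exact ⟨0, by rw [h, map_zero]⟩
    · have h1 := MvPolynomial.totalDegree_coeff_finSuccEquiv_add_le Q 3 h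
      rw [← hH] at h1
      have h2 : (H.coeff 3).totalDegree = 0 := by omega
      exact ⟨_, MvPolynomial.totalDegree_eq_zero_iff_eq_C.mp h2⟩
  obtain ⟨a3, ha3⟩ := hH3
  have hev : ∀ y a b : ℝ, MvPolynomial.eval ![C * y - S * a, S * y + C * a, b] φ =
      ev (H.coeff 0) (a, b) + ev (H.coeff 1) (a, b) * y + ev (H.coeff 2) (a, b) * y ^ 2 +
        a3 * y ^ 3 := by
    intro y a b
    rw [← hQe, MvPolynomial.eval_eq_eval_mv_eval', Polynomial.eval_eq_sum_range'
      (n := 4) (lt_of_le_of_lt Polynomial.natDegree_map_le (lt_of_le_of_lt hHd (by norm_num)))]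
    simp only [Finset.sum_range_succ, Finset.sum_range_zero, Polynomial.coeff_map]
    rw [ha3]
    unfold ev
    simp only [MvPolynomial.eval_C]
    ring
  -- the leading coefficient
  have ha0 : a3 = 0 := by
    have h1 : ∀ x : ℝ, MvPolynomial.eval (x • ![C, S, 0]) φ =
        ev (H.coeff 0) (0, 0) + ev (H.coeff 1) (0, 0) * x + ev (H.coeff 2) (0, 0) * x ^ 2 +
        a3 * x ^ 3 := by
      intro x
      rw [← hev]
      have hv : (x • ![C, S, 0] : Fin 3 → ℝ) = ![C * x - S * 0, S * x + C * 0, 0] := by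
        ext i
        fin_cases i
        · simp [mul_comm]
        · simp [mul_comm]
        · simp
      rw [hv]
    unfold F3 at hθ
    rw [← hC, ← hS, h1 3, h1 2, h1 1, h1 0] at hθ
    linarith
  refine ⟨V, H.coeff 0, H.coeff 1, H.coeff 2, ?_, hHc 0, hHc 1, hHc 2, ?_⟩
  · rw [hV]
    ext i j
    fin_cases i <;> fin_cases j <;>
      simp [Matrix.mul_apply, Fin.sum_univ_three, Matrix.transpose_apply] <;>
      nlinarith [hCS]
  · intro ξ
    have hz0 : (V *ᵥ ξ) 0 = -S * ξ 0 + C * ξ 1 := by
      rw [hV]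
      simp [Matrix.mulVec, dotProduct, Fin.sum_univ_three]
    have hz1 : (V *ᵥ ξ) 1 = ξ 2 := by
      rw [hV]
      simp [Matrix.mulVec, dotProduct, Fin.sum_univ_three]
    have hz2 : (V *ᵥ ξ) 2 = C * ξ 0 + S * ξ 1 := by
      rw [hV]
      simp [Matrix.mulVec, dotProduct, Fin.sum_univ_three]
    have h1 := hev ((V *ᵥ ξ) 2) ((V *ᵥ ξ) 0) ((V *ᵥ ξ) 1)
    rw [ha0] at h1
    unfold ph3
    rw [sp3_apply]
    have e : (![C * (V *ᵥ ξ) 2 - S * (V *ᵥ ξ) 0, S * (V *ᵥ ξ) 2 + C * (V *ᵥ ξ) 0, (V *ᵥ ξ) 1] :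
        Fin 3 → ℝ) = ξ := by
      rw [hz0, hz1, hz2]
      ext i
      fin_cases i
      · show C * (C * ξ 0 + S * ξ 1) - S * (-S * ξ 0 + C * ξ 1) = ξ 0
        linear_combination ξ 0 * hCS
      · show S * (C * ξ 0 + S * ξ 1) + C * (-S * ξ 0 + C * ξ 1) = ξ 1
        linear_combination ξ 1 * hCS
      · rfl
    rw [e] at h1
    rw [h1]
    simp only
    ring

end Pool.Agent.Helper35.CP
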